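import Pool.Agent.Lib.MP_a0d2f7_nt.Der

set_option autoImplicit false

namespace Pool.Agent.Lib.MP_a0d2f7_nt

open Polynomial

section
variable {A : Type*} [CommRing A]

/-- degree in the inner variable -/
noncomputable def dz (B : A[X][X]) : ℕ := (Bivariate.swap B).natDegree

theorem coeff_swap (B : A[X][X]) (i l : ℕ) :
    ((Bivariate.swap B).coeff i).coeff l = (B.coeff l).coeff i := by
  induction B using Polynomial.induction_on' with
  | add p q hp hq => simp [hp, hq]
  | monomial n c =>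
    rw [Bivariate.swap_monomial, coeff_mul_C, coeff_map, coeff_monomial]
    split_ifs with h
    · subst h; simp
    · rw [coeff_C_mul, coeff_X_pow, if_neg (Ne.symm h)]; simp

theorem dz_le_iff {B : A[X][X]} {M : ℕ} : dz B ≤ M ↔ ∀ l, (B.coeff l).natDegree ≤ M := by
  simp only [dz, natDegree_le_iff_coeff_eq_zero]
  constructor
  · intro h l i hi; rw [← coeff_swap, h i hi]; simp
  · intro h i hi; ext l; rw [coeff_swap, h l i hi]; simp

theorem coeff_le_dz (B : A[X][X]) (l : ℕ) : (B.coeff l).natDegree ≤ dz B := dz_le_iff.1 le_rfl l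

theorem dz_swap (B : A[X][X]) : dz (Bivariate.swap B) = B.natDegree := by
  rw [dz, Bivariate.swap_swap_apply]

theorem dz_mul_le (B G : A[X][X]) : dz (B * G) ≤ dz B + dz G := by
  simp only [dz, map_mul]; exact natDegree_mul_le

theorem dz_mul [IsDomain A] {B G : A[X][X]} (hB : B ≠ 0) (hG : G ≠ 0) :
    dz (B * G) = dz B + dz G := by
  simp only [dz, map_mul]
  exact natDegree_mul (by simpa using hB) (by simpa using hG)

theorem dz_add_le {B G : A[X][X]} {M : ℕ} (hB : dz B ≤ M) (hG : dz G ≤ M) : dz (B + G) ≤ M := by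
  simp only [dz, map_add] at *; exact (natDegree_add_le _ _).trans (max_le hB hG)

theorem dz_neg (B : A[X][X]) : dz (-B) = dz B := by simp [dz]

theorem dz_sub_le {B G : A[X][X]} {M : ℕ} (hB : dz B ≤ M) (hG : dz G ≤ M) : dz (B - G) ≤ M := by
  rw [sub_eq_add_neg]; exact dz_add_le hB (by rwa [dz_neg])

theorem dz_C (p : A[X]) : dz (C p) = p.natDegree := by
  rw [dz, Bivariate.swap_C]; exact natDegree_map_eq_of_injective C_injective p

theorem dz_zero : dz (0 : A[X][X]) = 0 := by simp [dz]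

theorem dz_X_pow (j : ℕ) : dz (X ^ j : A[X][X]) = 0 := by
  rw [dz, map_pow, Bivariate.swap_Y, ← C_pow, natDegree_C]

theorem dz_pow_le (B : A[X][X]) (j : ℕ) : dz (B ^ j) ≤ j * dz B := by
  simp only [dz, map_pow]; exact natDegree_pow_le

theorem dz_sum_le {ι : Type*} (s : Finset ι) (f : ι → A[X][X]) {M : ℕ} (h : ∀ i ∈ s, dz (f i) ≤ M) :
    dz (∑ i ∈ s, f i) ≤ M := by
  simp only [dz, map_sum] at *; exact natDegree_sum_le_of_forall_le _ _ h

theorem dz_derivative_le (B : A[X][X]) : dz B.derivative ≤ dz B := by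
  rw [dz_le_iff]; intro l
  rw [coeff_derivative]
  refine natDegree_mul_le.trans ?_
  have : ((l : A[X]) + 1).natDegree = 0 := by
    rw [← Nat.cast_succ, natDegree_natCast]
  rw [this]; exact coeff_le_dz _ _

theorem dz_mc_le (δ : A →+ A) (B : A[X][X]) : dz (mc (mc δ) B) ≤ dz B := by
  rw [dz_le_iff]; intro l
  rw [coeff_mc]; exact (natDegree_mc _ _).trans (coeff_le_dz _ _)

theorem dz_map_le {A' : Type*} [CommRing A'] (φ : A →+* A') (B : A[X][X]) :
    dz (B.map (mapRingHom φ)) ≤ dz B := by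
  rw [dz_le_iff]; intro l
  rw [coeff_map]; exact natDegree_map_le.trans (coeff_le_dz _ _)

theorem natDegree_resultant_le (B G : A[X][X]) (m n : ℕ) :
    (resultant B G m n).natDegree ≤ m * dz G + n * dz B := by
  rw [resultant, Matrix.det_apply]
  refine natDegree_sum_le_of_forall_le _ _ fun σ _ => ?_
  refine (natDegree_smul_le _ _).trans ((natDegree_prod_le _ _).trans ?_)
  rw [Fin.sum_univ_add]
  refine add_le_add ?_ ?_
  · refine (Finset.sum_le_card_nsmul _ _ (dz G) fun i _ => ?_).trans (by simp)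
    simp only [sylvester, Matrix.of_apply, Fin.addCases_left]
    split_ifs
    · exact coeff_le_dz _ _
    · simp
  · refine (Finset.sum_le_card_nsmul _ _ (dz B) fun i _ => ?_).trans (by simp)
    simp only [sylvester, Matrix.of_apply, Fin.addCases_right]
    split_ifs
    · exact coeff_le_dz _ _
    · simp

end

section
variable {K : Type*} [Field K]

theorem res_ne_zero {B G : K[X][X]} (hB : Prime B) (hm : 1 ≤ B.natDegree) (hG : ¬ B ∣ G) :
    resultant B G ≠ 0 := by
  let L := FractionRing K[X]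
  have hp : B.IsPrimitive := hB.irreducible.isPrimitive (by omega)
  have hi : Irreducible (B.map (algebraMap K[X] L)) :=
    (hp.irreducible_iff_irreducible_map_fraction_map (K := L)).1 hB.irreducible
  have hnd : ¬ B.map (algebraMap K[X] L) ∣ G.map (algebraMap K[X] L) := fun h =>
    hG (hp.dvd_of_fraction_map_dvd_fraction_map (K := L) h)
  have hc := (hi.coprime_iff_not_dvd).2 hnd
  have := resultant_ne_zero _ _ hc
  have inj := FaithfulSMul.algebraMap_injective K[X] L
  rw [natDegree_map_eq_of_injective inj, natDegree_map_eq_of_injective inj, resultant_map_map] at this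
  intro h; exact this (by rw [h, map_zero])

theorem res_bound {B G : K[X][X]} (hB : Prime B) (hm : 1 ≤ B.natDegree) (hG : ¬ B ∣ G)
    {F : K[X]} {L : ℕ} (h1 : X ^ L ∣ B.eval F) (h2 : X ^ L ∣ G.eval F) :
    L ≤ B.natDegree * dz G + G.natDegree * dz B := by
  obtain ⟨p, q, -, -, h⟩ := exists_mul_add_mul_eq_C_resultant B G le_rfl le_rfl (Or.inl (by omega))
  have h3 : X ^ L ∣ resultant B G := by
    have := congrArg (eval F) h
    simp only [eval_add, eval_mul, eval_C] at this
    rw [← this]; exact dvd_add (h1.mul_right _) (h2.mul_right _)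
  have := natDegree_le_of_dvd h3 (res_ne_zero hB hm hG)
  rw [natDegree_X_pow] at this
  exact this.trans (natDegree_resultant_le _ _ _ _)

theorem ordmul {p q : K[X]} {L b c : ℕ} (h : X ^ L ∣ p * q) (hp : ¬ X ^ (b + 1) ∣ p)
    (hq : ¬ X ^ (c + 1) ∣ q) : L ≤ b + c := by
  have p0 : p ≠ 0 := by rintro rfl; simp at hp
  have q0 : q ≠ 0 := by rintro rfl; simp at hq
  have key : ∀ (r : K[X]) (k : ℕ), r ≠ 0 → (X ^ k ∣ r ↔ k ≤ r.rootMultiplicity 0) := by
    intro r k hr
    rw [le_rootMultiplicity_iff hr]; simp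
  rw [key _ _ (mul_ne_zero p0 q0), rootMultiplicity_mul (mul_ne_zero p0 q0)] at h
  rw [key _ _ p0] at hp
  rw [key _ _ q0] at hq
  omega

variable [CharZero K]

theorem not_dvd_derivative {B : K[X][X]} (hm : 1 ≤ B.natDegree) : ¬ B ∣ B.derivative := by
  intro h
  have h0 : B.derivative ≠ 0 := by
    intro h0; have := derivative_eq_zero.1 h0; omega
  have h1 := natDegree_le_of_dvd h h0
  have := natDegree_derivative_lt (p := B) (by omega)
  omega

theorem wcore {B e₀ e₁ : K[X][X]} {u : K[X]} (hB : Prime B) (hm : 1 ≤ B.natDegree)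
    (d0 : e₀.natDegree ≤ B.natDegree) (d1 : e₁.natDegree ≤ B.natDegree) (z1 : dz e₁ ≤ dz B)
    (hu : 2 * dz B < u.natDegree) (h : B ∣ e₁ - C u * e₀) : B ∣ e₀ := by
  obtain ⟨g, hg⟩ := h
  have hdeg : (e₁ - C u * e₀).natDegree ≤ B.natDegree :=
    (natDegree_sub_le _ _).trans (max_le d1 ((natDegree_C_mul_le _ _).trans d0))
  have hg0 : g.derivative = 0 := by
    by_cases g0 : g = 0
    · simp [g0]
    · rw [hg, natDegree_mul hB.ne_zero g0] at hdeg
      exact derivative_of_natDegree_zero (by omega)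
  refine wronski (δ := dd K[X]) (u := C u) (g := g) (e₁ := e₁) isDer_dd hB (not_dvd_derivative hm)
    (by rw [hg]; ring) hg0 (by simp) fun w hw hc => ?_
  have u0 : u ≠ 0 := by rintro rfl; simp at hu
  have h1 : dz (C u * w) = u.natDegree + dz w := by rw [dz_mul (by simpa) hw, dz_C]
  have h2 : dz (dd K[X] e₁ * B - e₁ * dd K[X] B) ≤ 2 * dz B := by
    refine dz_sub_le ((dz_mul_le _ _).trans ?_) ((dz_mul_le _ _).trans ?_)
    · have := dz_derivative_le e₁; simp only [dd_apply]; omega
    · have := dz_derivative_le B; simp only [dd_apply]; omega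
  rw [hc] at h1; omega

theorem zcore {B e₀ e₁ : K[X][X]} {u F : K[X]} {L : ℕ} (hB : Prime B) (hm : 1 ≤ B.natDegree)
    (d0 : e₀.natDegree ≤ B.natDegree) (d1 : e₁.natDegree ≤ B.natDegree) (z0 : dz e₀ ≤ dz B)
    (z1 : dz e₁ ≤ dz B) (hu : 2 * dz B < u.natDegree) (h1 : X ^ L ∣ B.eval F)
    (h2 : X ^ L ∣ e₁.eval F - u * e₀.eval F) (hL : B.natDegree * (2 * dz B + u.natDegree) < L) :
    B ∣ e₀ := by
  refine wcore hB hm d0 d1 z1 hu ?_
  by_contra hc
  have hdeg : (e₁ - C u * e₀).natDegree ≤ B.natDegree :=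
    (natDegree_sub_le _ _).trans (max_le d1 ((natDegree_C_mul_le _ _).trans d0))
  have hz : dz (e₁ - C u * e₀) ≤ dz B + u.natDegree :=
    dz_sub_le (by omega) ((dz_mul_le _ _).trans (by rw [dz_C]; omega))
  have := res_bound hB hm hc h1 (by simpa using h2)
  have h3 := Nat.mul_le_mul_left B.natDegree hz
  have h4 := Nat.mul_le_mul_right (dz B) hdeg
  nlinarith

theorem ycore {B e₀ e₁ : K[X][X]} {F : K[X]} {L j : ℕ} (hB : Prime B) (hm : 1 ≤ B.natDegree)
    (hM : 1 ≤ dz B)
    (d0 : e₀.natDegree ≤ B.natDegree) (d1 : e₁.natDegree ≤ B.natDegree) (z0 : dz e₀ ≤ dz B)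
    (z1 : dz e₁ ≤ dz B) (hu : 2 * B.natDegree < j) (h1 : X ^ L ∣ B.eval F)
    (h2 : X ^ L ∣ e₁.eval F - F ^ j * e₀.eval F) (hL : dz B * (2 * B.natDegree + j) < L) :
    B ∣ e₀ := by
  have hdvd : B ∣ e₁ - X ^ j * e₀ := by
    by_contra hc
    have hdeg : (e₁ - X ^ j * e₀).natDegree ≤ B.natDegree + j :=
      (natDegree_sub_le _ _).trans (max_le (by omega)
        (natDegree_mul_le.trans (by rw [natDegree_X_pow]; omega)))
    have hz : dz (e₁ - X ^ j * e₀) ≤ dz B :=
      dz_sub_le z1 ((dz_mul_le _ _).trans (by rw [dz_X_pow]; omega))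
    have := res_bound hB hm hc h1 (by simpa using h2)
    have h3 := Nat.mul_le_mul_left B.natDegree hz
    have h4 := Nat.mul_le_mul_right (dz B) hdeg
    nlinarith
  have hs : Prime (Bivariate.swap B) := (MulEquiv.prime_iff (Bivariate.swap (R := K))).2 hB
  have h3 : Bivariate.swap B ∣ Bivariate.swap e₀ := by
    refine wcore (e₁ := Bivariate.swap e₁) (u := X ^ j) hs hM z0 z1 (by rwa [dz_swap, dz_swap])
      (by rwa [dz_swap, natDegree_X_pow]) ?_
    have := map_dvd (Bivariate.swap (R := K)) hdvd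
    rwa [map_sub, map_mul, map_pow, Bivariate.swap_Y, ← C_pow] at this
  exact (map_dvd_iff (Bivariate.swap (R := K))).1 h3

end

end Pool.Agent.Lib.MP_a0d2f7_nt
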