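import Pool.Agent.Lib.MP_a0d2f7_nt.ZE

set_option autoImplicit false

namespace Pool.Agent.Lib.MP_a0d2f7_nt

open Polynomial Finset

section
variable {A : Type*} [CommRing A] {A' : Type*} [CommRing A']

/-- polynomial with given coefficients up to degree `N` -/
noncomputable def fP (N : ℕ) (x : ℕ → A) : A[X] := ∑ i ∈ range (N + 1), monomial i (x i)

theorem coeff_fP (N : ℕ) (x : ℕ → A) (j : ℕ) : (fP N x).coeff j = if j ≤ N then x j else 0 := by
  simp [fP, finsetSum_coeff, coeff_monomial]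

theorem natDegree_fP (N : ℕ) (x : ℕ → A) : (fP N x).natDegree ≤ N := by
  rw [natDegree_le_iff_coeff_eq_zero]; intro i hi; rw [coeff_fP, if_neg (by omega)]

theorem map_fP (φ : A →+* A') (N : ℕ) (x : ℕ → A) : (fP N x).map φ = fP N (fun i => φ (x i)) := by
  ext j; simp only [coeff_map, coeff_fP]; split_ifs <;> simp

theorem mc_fP (δ : A →+ A) (N : ℕ) (x : ℕ → A) : mc δ (fP N x) = fP N (fun i => δ (x i)) := by
  ext j; simp only [coeff_mc, coeff_fP]; split_ifs <;> simp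

theorem fP_coeff {N : ℕ} {p : A[X]} (h : p.natDegree ≤ N) : fP N (fun i => p.coeff i) = p := by
  ext j; rw [coeff_fP]; split_ifs with h1
  · rfl
  · rw [coeff_eq_zero_of_natDegree_lt (by omega)]

/-- bivariate polynomial with given coefficients in a box -/
noncomputable def ofC (M m : ℕ) (c : ℕ → ℕ → A) : A[X][X] := fP m fun l => fP M fun i => c i l

theorem natDegree_ofC (M m : ℕ) (c : ℕ → ℕ → A) : (ofC M m c).natDegree ≤ m := natDegree_fP _ _

theorem dz_ofC (M m : ℕ) (c : ℕ → ℕ → A) : dz (ofC M m c) ≤ M := by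
  rw [dz_le_iff]; intro l; rw [ofC, coeff_fP]; split_ifs
  · exact natDegree_fP _ _
  · simp

theorem ofC_coeff {M m : ℕ} {D : A[X][X]} (h1 : dz D ≤ M) (h2 : D.natDegree ≤ m) :
    ofC M m (fun i l => (D.coeff l).coeff i) = D := by
  rw [ofC]; simp only [fP_coeff (dz_le_iff.1 h1 _)]; exact fP_coeff h2

theorem map_ofC (φ : A →+* A') (M m : ℕ) (c : ℕ → ℕ → A) :
    (ofC M m c).map (mapRingHom φ) = ofC M m (fun i l => φ (c i l)) := by
  simp [ofC, map_fP]

theorem mc_ofC (δ : A →+ A) (M m : ℕ) (c : ℕ → ℕ → A) :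
    mc (mc δ) (ofC M m c) = ofC M m (fun i l => δ (c i l)) := by
  simp [ofC, mc_fP]

/-- names of the free parameters -/
abbrev Var := ℕ × ℕ × ℕ

/-- index set of the linear conditions -/
abbrev Io (μ : ℕ) := Fin (2 * μ + 1) ⊕ Fin μ

/-- the fixed part of the exceptional polynomial -/
noncomputable def TP (a ν : ℕ) (c : A) : A[X][X] :=
  C (X ^ (4 * a + 2)) * (X ^ (4 * ν + 3) + 2) + (X - C (C c)) ^ 2

/-- the correcting polynomials -/
noncomputable def Lam (A : Type*) [CommRing A] (a ν : ℕ) : Io (ν * a) → A[X][X]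
  | Sum.inl e => C (X ^ (e.1 % a)) * X ^ (e.1 / a)
  | Sum.inr e => (X - C (X ^ a)) * (C (X ^ (e.1 % a)) * X ^ (e.1 / a))

/-- a combination of the correcting polynomials -/
noncomputable def LS (a ν : ℕ) (y : Io (ν * a) → A) : A[X][X] := ∑ e, C (C (y e)) * Lam A a ν e

/-- the exceptional polynomial -/
noncomputable def A0 (a ν : ℕ) (x : Var → A) (y : Io (ν * a) → A) : A[X][X] :=
  TP a ν (x (0, 0, 0)) + C X * (ofC (4 * a) (4 * ν + 1) (fun i l => x (1, i, l)) - LS a ν y)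

/-- initial part of the series -/
noncomputable def fx (μ : ℕ) (x : Var → A) : A[X] := fP μ fun i => x (0, i, 0)

/-- free middle part of the series -/
noncomputable def tP (L₀ d : ℕ) (x : Var → A) : A[X] := ∑ e ∈ Ico L₀ d, monomial e (x (3, e, 0))

/-- contribution of the next level -/
noncomputable def gP (d μ' : ℕ) (x' : ℕ → A) : A[X] :=
  ∑ i ∈ range (μ' + 1), monomial (d * (i + 1)) (x' i)

/-- the linear conditions -/
noncomputable def hv (μ : ℕ) (f : A[X]) (D : A[X][X]) : Io μ → A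
  | Sum.inl i => (D.eval f).coeff i
  | Sum.inr i => (D.derivative.eval f).coeff i

/-- matrix of the linear conditions on the correcting polynomials -/
noncomputable def GM (a ν : ℕ) (f : A[X]) : Matrix (Io (ν * a)) (Io (ν * a)) A :=
  Matrix.of fun e' e => hv (ν * a) f (Lam A a ν e) e'

theorem map_TP (φ : A →+* A') (a ν : ℕ) (c : A) :
    (TP a ν c).map (mapRingHom φ) = TP a ν (φ c) := by
  simp [TP, Polynomial.map_ofNat]

theorem map_Lam (φ : A →+* A') (a ν : ℕ) (e : Io (ν * a)) :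
    (Lam A a ν e).map (mapRingHom φ) = Lam A' a ν e := by
  cases e <;> simp [Lam]

theorem map_LS (φ : A →+* A') (a ν : ℕ) (y : Io (ν * a) → A) :
    (LS a ν y).map (mapRingHom φ) = LS a ν (fun e => φ (y e)) := by
  simp [LS, Polynomial.map_sum, map_Lam]

theorem map_A0 (φ : A →+* A') (a ν : ℕ) (x : Var → A) (y : Io (ν * a) → A) :
    (A0 a ν x y).map (mapRingHom φ) = A0 a ν (fun t => φ (x t)) (fun e => φ (y e)) := by
  simp [A0, map_TP, map_LS, map_ofC]

theorem map_fx (φ : A →+* A') (μ : ℕ) (x : Var → A) :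
    (fx μ x).map φ = fx μ (fun t => φ (x t)) := map_fP _ _ _

theorem map_tP (φ : A →+* A') (L₀ d : ℕ) (x : Var → A) :
    (tP L₀ d x).map φ = tP L₀ d (fun t => φ (x t)) := by
  simp [tP, Polynomial.map_sum]

theorem map_gP (φ : A →+* A') (d μ' : ℕ) (x : ℕ → A) :
    (gP d μ' x).map φ = gP d μ' (fun t => φ (x t)) := by
  simp [gP, Polynomial.map_sum]

theorem map_GM (φ : A →+* A') (a ν : ℕ) (f : A[X]) :
    φ.mapMatrix (GM a ν f) = GM a ν (f.map φ) := by
  ext e' e
  simp only [GM, RingHom.mapMatrix_apply, Matrix.map_apply, Matrix.of_apply]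
  rw [← map_Lam φ]
  cases e' with
  | inl i => simp only [hv]; rw [map_mapRingHom_eval_map, coeff_map]
  | inr i => simp only [hv]; rw [derivative_map, map_mapRingHom_eval_map, coeff_map]

theorem hv_LS (a ν : ℕ) (f : A[X]) (y : Io (ν * a) → A) :
    hv (ν * a) f (LS a ν y) = (GM a ν f).mulVec y := by
  ext e'
  cases e' <;>
    simp [hv, LS, GM, Matrix.mulVec, dotProduct, eval_finsetSum, finsetSum_coeff, mul_comm]

theorem det_GM_model (a ν : ℕ) : (GM a ν (X ^ a : A[X])).det = 1 := by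
  have h : ∀ e : ℕ, (X ^ (e % a) * (X ^ a) ^ (e / a) : A[X]) = X ^ e := by
    intro e; rw [← pow_mul, ← pow_add, Nat.mod_add_div]
  have : GM a ν (X ^ a : A[X]) = Matrix.fromBlocks 1 0 (GM a ν (X ^ a : A[X])).toBlocks₂₁ 1 := by
    ext e' e
    rcases e' with i | i <;> rcases e with e | e
    · simp [GM, hv, Lam, h, Matrix.one_apply, coeff_X_pow, Fin.ext_iff]
    · simp [GM, hv, Lam]
    · simp [Matrix.toBlocks₂₁]
    · simp [GM, hv, Lam, h, Matrix.one_apply, coeff_X_pow, Fin.ext_iff, -map_pow]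
  rw [this, Matrix.det_fromBlocks_zero₁₂]; simp

theorem LS_surj {a ν : ℕ} {f : A[X]} (h : IsUnit (GM a ν f).det) (p₁ p₂ : A[X]) :
    ∃ y, X ^ (2 * (ν * a) + 1) ∣ (LS a ν y).eval f - p₁ ∧
      X ^ (ν * a) ∣ (LS a ν y).derivative.eval f - p₂ := by
  let t : Io (ν * a) → A := Sum.elim (fun i => p₁.coeff i) (fun i => p₂.coeff i)
  have h1 : hv (ν * a) f (LS a ν ((GM a ν f)⁻¹.mulVec t)) = t := by
    rw [hv_LS, Matrix.mulVec_mulVec, Matrix.mul_nonsing_inv _ h, Matrix.one_mulVec]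
  refine ⟨(GM a ν f)⁻¹.mulVec t, ?_, ?_⟩ <;> rw [X_pow_dvd_iff] <;> intro i hi
  · have := congrFun h1 (Sum.inl ⟨i, hi⟩)
    simp only [hv, t, Sum.elim_inl] at this
    rw [coeff_sub, this, sub_self]
  · have := congrFun h1 (Sum.inr ⟨i, hi⟩)
    simp only [hv, t, Sum.elim_inr] at this
    rw [coeff_sub, this, sub_self]

theorem LS_inj {a ν : ℕ} {f : A[X]} (h : IsUnit (GM a ν f).det) {y : Io (ν * a) → A}
    (h1 : X ^ (2 * (ν * a) + 1) ∣ (LS a ν y).eval f)
    (h2 : X ^ (ν * a) ∣ (LS a ν y).derivative.eval f) : y = 0 := by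
  have h3 : (GM a ν f).mulVec y = 0 := by
    rw [← hv_LS]; ext e
    rcases e with i | i
    · exact X_pow_dvd_iff.1 h1 i i.2
    · exact X_pow_dvd_iff.1 h2 i i.2
  have : ((GM a ν f)⁻¹ * GM a ν f).mulVec y = 0 := by
    rw [← Matrix.mulVec_mulVec, h3, Matrix.mulVec_zero]
  rwa [Matrix.nonsing_inv_mul _ h, Matrix.one_mulVec] at this

theorem dz_X : dz (X : A[X][X]) = 0 := by simpa using dz_X_pow (A := A) 1

theorem dz_LS {a ν : ℕ} (ha : 1 ≤ a) (y : Io (ν * a) → A) : dz (LS a ν y) ≤ 2 * a - 1 := by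
  refine dz_sum_le _ _ fun e _ => (dz_mul_le _ _).trans ?_
  rw [dz_C, natDegree_C, zero_add]
  have h : ∀ e : ℕ, dz (C (X ^ (e % a)) * X ^ (e / a) : A[X][X]) ≤ a - 1 := by
    intro e
    refine (dz_mul_le _ _).trans ?_
    rw [dz_C, dz_X_pow]
    have := natDegree_X_pow_le (R := A) (e % a)
    have := Nat.mod_lt e (show 0 < a by omega)
    omega
  rcases e with e | e
  · exact (h e).trans (by omega)
  · refine (dz_mul_le _ _).trans ?_
    have h1 : dz (X - C (X ^ a) : A[X][X]) ≤ a :=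
      dz_sub_le (by rw [dz_X]; omega) (by rw [dz_C]; exact natDegree_X_pow_le _)
    have := h e
    omega

theorem natDegree_LS {a ν : ℕ} (ha : 1 ≤ a) (y : Io (ν * a) → A) :
    (LS a ν y).natDegree ≤ 2 * ν := by
  refine natDegree_sum_le_of_forall_le _ _ fun e _ => (natDegree_C_mul_le _ _).trans ?_
  have h : ∀ e : ℕ, (C (X ^ (e % a)) * X ^ (e / a) : A[X][X]).natDegree ≤ e / a :=
    fun e => (natDegree_C_mul_le _ _).trans (natDegree_X_pow_le _)
  rcases e with e | e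
  · refine (h e).trans (Nat.div_le_of_le_mul ?_)
    have := e.2; nlinarith
  · refine natDegree_mul_le.trans ?_
    have h1 := natDegree_X_sub_C_le (X ^ a : A[X])
    have h2 := h e
    have h3 : e.1 / a < ν := by
      rw [Nat.div_lt_iff_lt_mul (by omega)]; exact e.2
    omega

/-- everything that is recorded about the root `α` of the exceptional polynomial -/
structure Dat (a ν L₀ : ℕ) (x : Var → A) (y : Io (ν * a) → A) (α : A[X]) : Prop where
  c1 : X ^ (2 * (ν * a) + 2) ∣ (A0 a ν x y).eval (fx (ν * a) x) -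
    C (x (2, 0, 0)) * X ^ (2 * (ν * a) + 1)
  c2 : X ^ (ν * a + 1) ∣ (A0 a ν x y).derivative.eval (fx (ν * a) x) - X ^ (ν * a)
  c3 : X ^ (ν * a + 1) ∣ α - fx (ν * a) x
  c4 : α.natDegree ≤ L₀
  c5 : X ^ (L₀ + ν * a + 1) ∣ (A0 a ν x y).eval α

theorem Dat.map {a ν L₀ : ℕ} {x : Var → A} {y : Io (ν * a) → A} {α : A[X]}
    (h : Dat a ν L₀ x y α) (φ : A →+* A') :
    Dat a ν L₀ (fun t => φ (x t)) (fun e => φ (y e)) (α.map φ) := by
  refine ⟨?_, ?_, ?_, natDegree_map_le.trans h.c4, ?_⟩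
  · rw [← map_A0, ← map_fx, map_mapRingHom_eval_map]
    simpa using Polynomial.map_dvd φ h.c1
  · rw [← map_A0, ← map_fx, derivative_map, map_mapRingHom_eval_map]
    simpa using Polynomial.map_dvd φ h.c2
  · rw [← map_fx]
    simpa using Polynomial.map_dvd φ h.c3
  · rw [← map_A0, map_mapRingHom_eval_map]
    simpa using Polynomial.map_dvd φ h.c5

theorem hensel {B : A[X][X]} {f : A[X]} {μ : ℕ} (hf : f.natDegree ≤ μ)
    (h1 : X ^ (2 * μ + 1) ∣ B.eval f) (h2 : X ^ (μ + 1) ∣ B.derivative.eval f - X ^ μ) (N : ℕ) :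
    ∃ α : A[X], X ^ (μ + 1) ∣ α - f ∧ α.natDegree ≤ μ + N ∧ X ^ (2 * μ + 1 + N) ∣ B.eval α := by
  induction N with
  | zero => exact ⟨f, by simp, hf, h1⟩
  | succ N ih =>
    obtain ⟨α, e1, e2, g, hg⟩ := ih
    obtain ⟨v, hv⟩ : X ^ (μ + 1) ∣ B.derivative.eval α - X ^ μ := by
      have := dvd_add (e1.trans (sub_dvd_eval_sub α f B.derivative)) h2
      simpa using this
    obtain ⟨g', hg'⟩ : X ∣ g - C (g.coeff 0) := by rw [X_dvd_iff]; simp
    refine ⟨α + -C (g.coeff 0) * X ^ (μ + 1 + N), ?_, ?_, ?_⟩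
    · rw [add_sub_right_comm]
      exact dvd_add e1 ((pow_dvd_pow _ (by omega)).mul_left _)
    · refine (natDegree_add_le _ _).trans (max_le (by omega) ?_)
      rw [← C_neg]
      exact (natDegree_C_mul_X_pow_le _ _).trans (by omega)
    · obtain ⟨k, hk⟩ := B.binomExpansion α (-C (g.coeff 0) * X ^ (μ + 1 + N))
      rw [hk, hg, eq_add_of_sub_eq hv]
      refine ⟨g' - v * C (g.coeff 0) + k * C (g.coeff 0) ^ 2 * X ^ N, ?_⟩
      rw [eq_add_of_sub_eq hg']
      simp only [coeff_add, mul_coeff_zero, coeff_X_zero, zero_mul, coeff_C_zero, zero_add]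
      ring

theorem exists_dat {a ν L₀ : ℕ} (hμ : 1 ≤ ν * a) (hL : ν * a ≤ L₀) (x : Var → A)
    (h : IsUnit (GM a ν (fx (ν * a) x)).det) : ∃ y α, Dat a ν L₀ x y α := by
  set f := fx (ν * a) x with hf
  obtain ⟨f', hf'⟩ : X ∣ f - C (x (0, 0, 0)) := by
    rw [X_dvd_iff]; simp [hf, fx, coeff_fP]
  obtain ⟨t₁, ht₁⟩ : X ∣ (TP a ν (x (0, 0, 0))).eval f := by
    simp only [TP, eval_add, eval_mul, eval_C, eval_pow, eval_sub, eval_X, hf']
    exact dvd_add ((dvd_pow_self _ (by omega)).mul_right _)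
      ((dvd_mul_right _ _).trans (dvd_pow_self _ (by omega)))
  obtain ⟨t₂, ht₂⟩ : X ∣ (TP a ν (x (0, 0, 0))).derivative.eval f := by
    simp only [TP, derivative_add, derivative_C_mul, derivative_sq, eval_add, eval_mul, eval_C,
      eval_sub, eval_X, hf']
    exact dvd_add ((dvd_pow_self _ (by omega)).mul_right _)
      (((dvd_mul_right _ _).mul_left _).mul_right _)
  set S := ofC (4 * a) (4 * ν + 1) (fun i l => x (1, i, l)) with hS
  obtain ⟨y, ⟨g₁, h1⟩, ⟨g₂, h2⟩⟩ := LS_surj h (S.eval f + t₁ - C (x (2, 0, 0)) * X ^ (2 * (ν * a)))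
    (S.derivative.eval f + t₂ - X ^ (ν * a - 1))
  have c1 : X ^ (2 * (ν * a) + 2) ∣ (A0 a ν x y).eval f -
      C (x (2, 0, 0)) * X ^ (2 * (ν * a) + 1) := by
    refine ⟨-g₁, ?_⟩
    simp only [A0, eval_add, eval_mul, eval_C, eval_sub, ht₁, ← hS, eq_add_of_sub_eq h1]
    ring
  have c2 : X ^ (ν * a + 1) ∣ (A0 a ν x y).derivative.eval f - X ^ (ν * a) := by
    refine ⟨-g₂, ?_⟩
    simp only [A0, derivative_add, derivative_C_mul, derivative_sub, eval_add, eval_mul, eval_C,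
      eval_sub, ht₂, ← hS, eq_add_of_sub_eq h2]
    obtain ⟨k, hk⟩ : ∃ k, ν * a = k + 1 := ⟨ν * a - 1, by omega⟩
    simp only [hk, Nat.add_sub_cancel]
    ring
  obtain ⟨α, e1, e2, e3⟩ := hensel (B := A0 a ν x y) (f := f) (μ := ν * a) (natDegree_fP _ _)
    (by
      have := dvd_add ((pow_dvd_pow _ (by omega : 2 * (ν * a) + 1 ≤ _)).trans c1)
        (dvd_mul_left (X ^ (2 * (ν * a) + 1)) (C (x (2, 0, 0))))
      simpa using this) c2 (L₀ - ν * a)
  exact ⟨y, α, c1, c2, e1, by omega, by convert e3 using 2; omega⟩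

end

end Pool.Agent.Lib.MP_a0d2f7_nt
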