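import Mathlib

set_option autoImplicit false

namespace Pool.Agent.Lib.MP_a0d2f7_nt

open Polynomial

/-- additive maps satisfying the Leibniz rule -/
def IsDer {A : Type*} [CommRing A] (δ : A →+ A) : Prop := ∀ a b, δ (a * b) = a * δ b + b * δ a

section
variable {A : Type*} [CommRing A] {δ δ' : A →+ A}

theorem IsDer.one (h : IsDer δ) : δ 1 = 0 := by
  have := h 1 1
  simpa using this

theorem IsDer.int (h : IsDer δ) (n : ℤ) : δ n = 0 := by
  have : (n : A) = n • (1 : A) := by simp
  rw [this, map_zsmul, h.one, smul_zero]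

theorem IsDer.add (h : IsDer δ) (h' : IsDer δ') : IsDer (δ + δ') := fun a b => by
  simp only [AddMonoidHom.add_apply, h a b, h' a b]; ring

theorem IsDer.pow (h : IsDer δ) {a : A} (ha : δ a = 0) (n : ℕ) : δ (a ^ n) = 0 := by
  induction n with
  | zero => simpa using h.one
  | succ n ih => rw [pow_succ, h, ih, ha]; simp

/-- coefficientwise action -/
noncomputable def mc (δ : A →+ A) : A[X] →+ A[X] where
  toFun p := p.sum fun n c => monomial n (δ c)
  map_zero' := by simp
  map_add' p q := sum_add_index p q _ (by simp) (by simp)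

@[simp] theorem coeff_mc (δ : A →+ A) (p : A[X]) (n : ℕ) : (mc δ p).coeff n = δ (p.coeff n) := by
  simp only [mc, AddMonoidHom.coe_mk, ZeroHom.coe_mk, Polynomial.sum, finsetSum_coeff,
    coeff_monomial, Finset.sum_ite_eq']
  split_ifs with h
  · rfl
  · rw [notMem_support_iff.1 h, map_zero]

@[simp] theorem mc_monomial (δ : A →+ A) (n : ℕ) (c : A) :
    mc δ (monomial n c) = monomial n (δ c) := by
  ext i; simp only [coeff_mc, coeff_monomial]; split_ifs <;> simp

@[simp] theorem mc_C (δ : A →+ A) (c : A) : mc δ (C c) = C (δ c) := mc_monomial δ 0 c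

theorem mc_add (δ δ' : A →+ A) (p : A[X]) : mc (δ + δ') p = mc δ p + mc δ' p := by
  ext i; simp

theorem IsDer.mc (h : IsDer δ) : IsDer (mc δ) := fun p q => by
  ext n
  simp only [coeff_mc, coeff_add, coeff_mul, map_sum, h _ _, Finset.sum_add_distrib]
  congr 1
  rw [← Finset.Nat.sum_antidiagonal_swap]
  rfl

theorem IsDer.mc_X (h : IsDer δ) : Pool.Agent.Lib.MP_a0d2f7_nt.mc δ X = 0 := by
  rw [← monomial_one_one_eq_X, mc_monomial, h.one, map_zero]

theorem IsDer.eval (h : IsDer δ) (F : A) (B : A[X]) :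
    δ (B.eval F) = (Pool.Agent.Lib.MP_a0d2f7_nt.mc δ B).eval F + B.derivative.eval F * δ F := by
  induction B using Polynomial.induction_on' with
  | add p q hp hq => simp only [eval_add, map_add, hp, hq]; ring
  | monomial n c =>
    have : ∀ k : ℕ, δ (F ^ k) = k * F ^ (k - 1) * δ F := by
      intro k
      induction k with
      | zero => simpa using h.one
      | succ k ih =>
        rw [pow_succ, h, ih]
        cases k <;> simp [pow_succ]; ring
    simp only [eval_monomial, mc_monomial, derivative_monomial, h _ _, this]; ring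

theorem mc_derivative (δ : A →+ A) (B : A[X]) : mc δ B.derivative = (mc δ B).derivative := by
  ext n
  simp only [coeff_mc, coeff_derivative]
  have : ∀ c : A, c * (n + 1) = (n + 1) • c := fun c => by simp [mul_comm]
  rw [this, this, map_nsmul]

theorem X_pow_dvd_mc (δ : A →+ A) {L : ℕ} {p : A[X]} (h : X ^ L ∣ p) : X ^ L ∣ mc δ p := by
  rw [X_pow_dvd_iff] at h ⊢
  intro i hi; simp [h i hi]

theorem natDegree_mc (δ : A →+ A) (p : A[X]) : (mc δ p).natDegree ≤ p.natDegree := by
  rw [natDegree_le_iff_coeff_eq_zero]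
  intro i hi; simp [coeff_eq_zero_of_natDegree_lt hi]

/-- the derivative as an additive map -/
noncomputable def dd (A : Type*) [CommRing A] : A[X] →+ A[X] :=
  (derivative : A[X] →ₗ[A] A[X]).toAddMonoidHom

@[simp] theorem dd_apply (p : A[X]) : dd A p = p.derivative := rfl

theorem isDer_dd : IsDer (dd A) := fun p q => by simp [derivative_mul]; ring

theorem wronski [IsDomain A] (h : IsDer δ) {B e₀ e₁ u g : A} (hB : Prime B) (hn : ¬ B ∣ δ B)
    (he : e₁ - u * e₀ = g * B) (hg : δ g = 0) (hu : δ u = 0)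
    (hw : ∀ w, w ≠ 0 → u * w ≠ δ e₁ * B - e₁ * δ B) : B ∣ e₀ := by
  have h1 : e₁ = u * e₀ + g * B := by rw [← he]; ring
  have h2 : u * (δ e₀ * B - e₀ * δ B) = δ e₁ * B - e₁ * δ B := by
    rw [h1, map_add, h, h, hg, hu]; ring
  have h3 : δ e₀ * B - e₀ * δ B = 0 := by
    by_contra hc; exact hw _ hc h2
  have h4 : B ∣ e₀ * δ B := ⟨δ e₀, by rw [sub_eq_zero] at h3; rw [← h3]; ring⟩
  exact (hB.dvd_or_dvd h4).resolve_right hn

end

/-- derivations of a rational function field with prescribed values on the variables -/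
theorem exists_der {σ : Type*} (c : σ → FractionRing (MvPolynomial σ ℚ)) :
    ∃ δ : FractionRing (MvPolynomial σ ℚ) →+ FractionRing (MvPolynomial σ ℚ), IsDer δ ∧
      ∀ v, δ (algebraMap (MvPolynomial σ ℚ) _ (MvPolynomial.X v)) = c v := by
  let K := FractionRing (MvPolynomial σ ℚ)
  let i0 : ℚ →+* K := (algebraMap (MvPolynomial σ ℚ) K).comp MvPolynomial.C
  let g : MvPolynomial σ ℚ →+* TrivSqZeroExt K K :=
    MvPolynomial.eval₂Hom ((TrivSqZeroExt.inlHom K K).comp i0) fun v =>
    TrivSqZeroExt.inl (algebraMap (MvPolynomial σ ℚ) K (MvPolynomial.X v)) + TrivSqZeroExt.inr (c v)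
  have hg : ∀ p, (g p).fst = algebraMap _ K p := by
    intro p
    have : ((TrivSqZeroExt.fstHom K K K).toRingHom.comp g) = algebraMap _ K := by
      apply MvPolynomial.ringHom_ext
      · intro r
        have : g (MvPolynomial.C r) = TrivSqZeroExt.inl (i0 r) := MvPolynomial.eval₂Hom_C _ _ r
        rw [RingHom.comp_apply, this]; rfl
      · intro v; simp [g]
    exact DFunLike.congr_fun this p
  have hu : ∀ y : nonZeroDivisors (MvPolynomial σ ℚ), IsUnit (g y) := by
    intro y
    rw [TrivSqZeroExt.isUnit_iff_isUnit_fst, hg]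
    exact IsLocalization.map_units K y
  let ψ : K →+* TrivSqZeroExt K K := IsLocalization.lift hu
  have hψ : ∀ a, (ψ a).fst = a := by
    have : ((TrivSqZeroExt.fstHom K K K).toRingHom.comp ψ) = RingHom.id K := by
      apply IsLocalization.ringHom_ext (nonZeroDivisors (MvPolynomial σ ℚ))
      refine RingHom.ext fun p => ?_
      simp [ψ, hg]
    exact fun a => DFunLike.congr_fun this a
  refine ⟨(TrivSqZeroExt.sndHom K K).toAddMonoidHom.comp ψ.toAddMonoidHom, fun a b => ?_, fun v => ?_⟩
  · simp [hψ, mul_comm]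
  · simp [ψ, g]

end Pool.Agent.Lib.MP_a0d2f7_nt
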