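import Mathlib

set_option autoImplicit false

namespace Pool.Agent.Lib.MP_a0d2f7_nt

open Polynomial Finset

section
variable {R : Type*} [NormedCommRing R]

/-- sum of the absolute values of the coefficients -/
noncomputable def N1 (p : R[X]) : ℝ := p.sum fun _ a => ‖a‖

theorem N1_eq (p : R[X]) {n : ℕ} (h : p.natDegree < n) : N1 p = ∑ i ∈ range n, ‖p.coeff i‖ :=
  sum_over_range' p (by simp) n h

theorem N1_nonneg (p : R[X]) : 0 ≤ N1 p := sum_nonneg fun _ _ => norm_nonneg _

theorem coeff_le_N1 (p : R[X]) (i : ℕ) : ‖p.coeff i‖ ≤ N1 p := by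
  rw [N1_eq p (n := max p.natDegree i + 1) (by omega)]
  exact single_le_sum (f := fun i => ‖p.coeff i‖) (fun _ _ => norm_nonneg _)
    (mem_range.2 (by omega))

theorem N1_zero : N1 (0 : R[X]) = 0 := by simp [N1]

theorem N1_add_le (p q : R[X]) : N1 (p + q) ≤ N1 p + N1 q := by
  have := natDegree_add_le p q
  rw [N1_eq (p + q) (n := max p.natDegree q.natDegree + 1) (by omega),
    N1_eq p (n := max p.natDegree q.natDegree + 1) (by omega),
    N1_eq q (n := max p.natDegree q.natDegree + 1) (by omega), ← sum_add_distrib]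
  exact sum_le_sum fun i _ => by rw [coeff_add]; exact norm_add_le _ _

theorem N1_monomial (n : ℕ) (a : R) : N1 (monomial n a) = ‖a‖ :=
  sum_monomial_index a _ (by simp)

theorem N1_C (a : R) : N1 (C a) = ‖a‖ := N1_monomial 0 a

theorem N1_sum_le {ι : Type*} (s : Finset ι) (f : ι → R[X]) :
    N1 (∑ i ∈ s, f i) ≤ ∑ i ∈ s, N1 (f i) :=
  Finset.le_sum_of_subadditive N1 N1_zero.le N1_add_le s f

theorem N1_mul_le (p q : R[X]) : N1 (p * q) ≤ N1 p * N1 q := by
  rw [mul_eq_sum_sum]
  refine (N1_sum_le _ _).trans ?_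
  conv_rhs => rw [N1, Polynomial.sum, sum_mul]
  refine sum_le_sum fun i _ => (N1_sum_le _ _).trans ?_
  conv_rhs => rw [N1, Polynomial.sum, mul_sum]
  refine sum_le_sum fun j _ => ?_
  rw [N1_monomial]; exact norm_mul_le _ _

variable [NormOneClass R]

theorem N1_pow_le (p : R[X]) (n : ℕ) : N1 (p ^ n) ≤ N1 p ^ n := by
  induction n with
  | zero => rw [pow_zero, ← C_1, N1_C]; simp
  | succ n ih =>
    rw [pow_succ, pow_succ]
    exact (N1_mul_le _ _).trans (mul_le_mul_of_nonneg_right ih (N1_nonneg _))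

omit [NormOneClass R] in
theorem N1_lin (a b : R) : N1 (C a * X + C b) ≤ ‖a‖ + ‖b‖ := by
  refine (N1_add_le _ _).trans ?_
  rw [C_mul_X_eq_monomial, N1_monomial, N1_C]

theorem N1_comp_le (p g : R[X]) {W : ℝ} {n : ℕ} (h1 : 1 ≤ W) (hg : N1 g ≤ W)
    (hn : p.natDegree ≤ n) : N1 (p.comp g) ≤ N1 p * W ^ n := by
  rw [comp, eval₂_eq_sum, Polynomial.sum]
  refine (N1_sum_le _ _).trans ?_
  conv_rhs => rw [N1, Polynomial.sum, sum_mul]
  refine sum_le_sum fun i hi => (N1_mul_le _ _).trans ?_
  rw [N1_C]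
  refine mul_le_mul_of_nonneg_left ((N1_pow_le _ _).trans ?_) (norm_nonneg _)
  exact (pow_le_pow_left₀ (N1_nonneg _) hg _).trans
    (pow_le_pow_right₀ h1 ((le_natDegree_of_mem_supp i hi).trans hn))

theorem norm_eval_le (p : R[X]) (x : R) : ‖p.eval x‖ ≤ N1 p * max 1 ‖x‖ ^ p.natDegree := by
  have := N1_comp_le p (C x) (W := max 1 ‖x‖) (le_max_left _ _) (by rw [N1_C]; simp) le_rfl
  rwa [comp_C, N1_C] at this

end

theorem N1_map {R S : Type*} [NormedCommRing R] [NormedCommRing S] (f : R →+* S)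
    (hf : ∀ a, ‖f a‖ = ‖a‖) (p : R[X]) : N1 (p.map f) = N1 p := by
  rw [N1_eq p (Nat.lt_succ_self _), N1_eq _ (Nat.lt_succ_of_le natDegree_map_le)]
  simp [hf]

theorem irred_rat {B : ℤ[X]} {β : ℝ} (hB : Irreducible B) (hβ : aeval β B = 0) :
    0 < B.natDegree ∧ Irreducible (B.map (algebraMap ℤ ℚ)) := by
  have h0 : B.natDegree ≠ 0 := by
    intro h
    obtain ⟨c, rfl⟩ := natDegree_eq_zero.1 h
    have : c = 0 := by simpa using hβ
    exact hB.ne_zero (by simp [this])
  exact ⟨by omega, ((hB.isPrimitive h0).irreducible_iff_irreducible_map_fraction_map).1 hB⟩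

theorem liouville {B P : ℤ[X]} {β : ℝ} (hB : Irreducible B) (hβ : aeval β B = 0)
    (hP : aeval β P ≠ 0) {m m' : ℕ} {V W : ℝ} (d1 : B.natDegree ≤ m) (d2 : P.natDegree ≤ m')
    (hV : N1 B ≤ V) (hW : N1 P ≤ W) (hV1 : 1 ≤ V) (hW1 : 1 ≤ W) :
    1 ≤ |aeval β P| * W ^ m * V ^ m' := by
  obtain ⟨h0, hi⟩ := irred_rat hB hβ
  have hres : resultant B P ≠ 0 := by
    have hnd : ¬ B.map (algebraMap ℤ ℚ) ∣ P.map (algebraMap ℤ ℚ) := by
      rintro ⟨g, hg⟩
      apply hP
      have := congrArg (aeval β) hg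
      rwa [map_mul, aeval_map_algebraMap, aeval_map_algebraMap, hβ, zero_mul] at this
    have := resultant_ne_zero _ _ (hi.coprime_iff_not_dvd.2 hnd)
    have inj := FaithfulSMul.algebraMap_injective ℤ ℚ
    rw [natDegree_map_eq_of_injective inj, natDegree_map_eq_of_injective inj,
      resultant_map_map] at this
    intro h; exact this (by rw [h, map_zero])
  have inj := FaithfulSMul.algebraMap_injective ℤ ℂ
  set Bc := B.map (algebraMap ℤ ℂ) with hBc
  set Pc := P.map (algebraMap ℤ ℂ) with hPc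
  have hBd : Bc.natDegree = B.natDegree := natDegree_map_eq_of_injective inj _
  have hPd : Pc.natDegree = P.natDegree := natDegree_map_eq_of_injective inj _
  have hB0 : Bc ≠ 0 := by intro h; rw [h] at hBd; simp at hBd; omega
  have h1 := resultant_eq_prod_eval Bc Pc P.natDegree hPd.le (IsAlgClosed.splits Bc)
  rw [hBd, resultant_map_map] at h1
  have h2 : (1 : ℝ) ≤ ‖algebraMap ℤ ℂ (resultant B P)‖ := by
    simp only [algebraMap_int_eq, eq_intCast, Complex.norm_intCast]
    exact_mod_cast Int.one_le_abs hres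
  have ev : ∀ p : ℤ[X], (p.map (algebraMap ℤ ℂ)).eval (β : ℂ) = ((aeval β p : ℝ) : ℂ) := by
    intro p
    rw [eval_map_algebraMap]
    exact aeval_algebraMap_apply ℂ β p
  have hr : (β : ℂ) ∈ Bc.roots := by
    rw [mem_roots hB0, IsRoot, ev, hβ]; simp
  obtain ⟨s, hs⟩ := Multiset.exists_cons_of_mem hr
  have hcard : s.card ≤ m := by
    have := card_roots' Bc
    rw [hs, Multiset.card_cons] at this; omega
  have hn : ∀ a : ℤ, ‖algebraMap ℤ ℂ a‖ = ‖a‖ := fun a => by
    simp [Int.norm_eq_abs]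
  have h3 : ∀ t : Multiset ℂ, ‖(t.map Pc.eval).prod‖ ≤
      W ^ t.card * (t.map fun a => max 1 ‖a‖).prod ^ P.natDegree := by
    intro t
    induction t using Multiset.induction_on with
    | empty => simp
    | cons a t ih =>
      simp only [Multiset.map_cons, Multiset.prod_cons, Multiset.card_cons, norm_mul, mul_pow]
      have := norm_eval_le Pc a
      rw [hPd, N1_map _ hn] at this
      have h4 : ‖Pc.eval a‖ ≤ W * max 1 ‖a‖ ^ P.natDegree :=
        this.trans (mul_le_mul_of_nonneg_right hW (by positivity))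
      refine (mul_le_mul h4 ih (norm_nonneg _) (by positivity)).trans (le_of_eq (by ring))
  have hM := mahlerMeasure_le_sum_norm_coeff Bc
  rw [mahlerMeasure_eq_leadingCoeff_mul_prod_roots, hs, Multiset.map_cons, Multiset.prod_cons] at hM
  have hp0 : 0 ≤ (s.map fun a => max 1 ‖a‖).prod :=
    Multiset.prod_nonneg fun a ha => by
      obtain ⟨b, -, rfl⟩ := Multiset.mem_map.1 ha; positivity
  have hM' : ‖Bc.leadingCoeff‖ * (s.map fun a => max 1 ‖a‖).prod ≤ V := by
    refine le_trans ?_ (hM.trans ((N1_map _ hn B).le.trans hV))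
    exact mul_le_mul_of_nonneg_left (le_mul_of_one_le_left hp0 (le_max_left _ _)) (norm_nonneg _)
  rw [h1, hs, Multiset.map_cons, Multiset.prod_cons, norm_mul, norm_mul, norm_pow, ev,
    Complex.norm_real, Real.norm_eq_abs] at h2
  calc (1 : ℝ) ≤ _ := h2
    _ ≤ ‖Bc.leadingCoeff‖ ^ P.natDegree * (|aeval β P| *
        (W ^ s.card * (s.map fun a => max 1 ‖a‖).prod ^ P.natDegree)) := by
      gcongr; exact h3 s
    _ = |aeval β P| * W ^ s.card *
        (‖Bc.leadingCoeff‖ * (s.map fun a => max 1 ‖a‖).prod) ^ P.natDegree := by ring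
    _ ≤ |aeval β P| * W ^ m * V ^ m' := by
      gcongr
      exact (pow_le_pow_left₀ (by positivity) hM' _).trans (pow_le_pow_right₀ hV1 d2)

theorem eisenstein {G : ℤ[X]} {u : ℤ} {n : ℕ} (hu : Odd u) (hG : G.natDegree < n) :
    Irreducible ((C u * (X ^ n + 2) + C 4 * G).map (algebraMap ℤ ℚ)) := by
  set p := C u * (X ^ n + 2) + C 4 * G with hp
  have hc : ∀ i, p.coeff i = u * ((if i = n then 1 else 0) + if i = 0 then 2 else 0) +
      4 * G.coeff i := by
    intro i
    rw [hp, coeff_add, coeff_C_mul, coeff_C_mul, coeff_add, coeff_X_pow,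
      show (2 : ℤ[X]) = C 2 from rfl, coeff_C]
  have hn : p.coeff n = u := by
    rw [hc, if_pos rfl, if_neg (by omega), coeff_eq_zero_of_natDegree_lt hG]; ring
  have u0 : u ≠ 0 := by rintro rfl; simp at hu
  have hd : p.natDegree = n := by
    refine natDegree_eq_of_le_of_coeff_ne_zero ?_ (by rwa [hn])
    rw [natDegree_le_iff_coeff_eq_zero]
    intro i hi
    rw [hc, if_neg (by omega), if_neg (by omega), coeff_eq_zero_of_natDegree_lt (by omega)]; ring
  have p0 : p ≠ 0 := by intro h; rw [h] at hd; simp at hd; omega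
  have he := p.eq_C_content_mul_primPart
  have hk : ∀ i, p.coeff i = p.content * p.primPart.coeff i := by
    intro i; conv_lhs => rw [he]
    rw [coeff_C_mul]
  have ho := (hk n).symm.trans hn
  rw [← ho, Int.odd_mul] at hu
  have h2 : Prime (2 : ℤ) := Int.prime_two
  have o2 : ∀ z : ℤ, Odd z → ¬ 2 ∣ z := by rintro _ ⟨k, rfl⟩; omega
  have hi : Irreducible p.primPart := by
    refine irreducible_of_eisenstein_criterion (P := Ideal.span {2})
      ((Ideal.span_singleton_prime two_ne_zero).2 h2) ?_ (fun i hi => ?_) ?_ ?_ p.isPrimitive_primPart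
    · rw [Ideal.mem_span_singleton, leadingCoeff, natDegree_primPart, hd]
      exact o2 _ hu.2
    · rw [Ideal.mem_span_singleton]
      have h3 : i < n := by
        have := coe_lt_degree.1 hi
        rwa [natDegree_primPart, hd] at this
      have : (2 : ℤ) ∣ p.content * p.primPart.coeff i := by
        rw [← hk, hc, if_neg (by omega)]
        split_ifs <;> omega
      exact (h2.dvd_or_dvd this).resolve_left (o2 _ hu.1)
    · rw [← natDegree_pos_iff_degree_pos, natDegree_primPart, hd]; omega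
    · rw [Ideal.span_singleton_pow, Ideal.mem_span_singleton]
      intro h
      have := h.mul_left p.content
      rw [← hk, hc, if_neg (by omega), if_pos rfl] at this
      have h4 : Odd u := by rw [← ho, Int.odd_mul]; exact hu
      obtain ⟨k, rfl⟩ := h4
      omega
  rw [he, Polynomial.map_mul, map_C, irreducible_isUnit_mul]
  · exact (p.isPrimitive_primPart.irreducible_iff_irreducible_map_fraction_map).1 hi
  · rw [isUnit_C, isUnit_iff_ne_zero]
    simpa [content_eq_zero_iff] using p0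

end Pool.Agent.Lib.MP_a0d2f7_nt
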