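import Pool.Agent.Lib.MP_a0d2f7_nt.Spec
import Pool.Agent.Lib.MP_a0d2f7_nt.Liou

set_option autoImplicit false

namespace Pool.Agent.Lib.MP_a0d2f7_nt

open Polynomial Finset Filter

/-- evaluation of a rational bivariate polynomial at a real point -/
noncomputable def ev (z y : ℝ) : ℚ[X][X] →+* ℝ :=
  eval₂RingHom (aeval z : ℚ[X] →ₐ[ℚ] ℝ).toRingHom y

@[simp] theorem ev_C (z y : ℝ) (p : ℚ[X]) : ev z y (C p) = aeval z p := by simp [ev]

@[simp] theorem ev_X (z y : ℝ) : ev z y X = y := by simp [ev]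

theorem ev_comp (z y : ℝ) (A G : ℚ[X][X]) : ev z y (A.comp G) = ev z (ev z y G) A :=
  eval₂_comp _

theorem taylor2 (A : ℚ[X][X]) (F : ℚ[X]) : ∃ D : ℚ[X][X], ∀ z h : ℝ,
    ev z (aeval z F + h) A = aeval z (A.eval F) + h * aeval z (A.derivative.eval F) +
      h ^ 2 * ev z h D := by
  refine ⟨divX (divX (taylor F A)), fun z h => ?_⟩
  have h1 := X_mul_divX_add (taylor F A)
  have h2 := X_mul_divX_add (divX (taylor F A))
  rw [coeff_divX, taylor_coeff_one] at h2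
  rw [taylor_coeff_zero, ← h2] at h1
  have h3 := congrArg (ev z h) h1
  conv_rhs at h3 => rw [taylor_apply, ev_comp]
  simp only [map_add, map_mul, ev_X, ev_C] at h3
  rw [add_comm _ h, ← h3]; ring

theorem bdd1 (p : ℚ[X]) : ∃ c : ℝ, 0 ≤ c ∧ ∀ z : ℝ, |z| ≤ 1 → |aeval z p| ≤ c := by
  induction p using Polynomial.induction_on' with
  | add p q hp hq =>
    obtain ⟨c, h0, h⟩ := hp
    obtain ⟨c', h0', h'⟩ := hq
    exact ⟨c + c', by positivity, fun z hz => by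
      rw [map_add]; exact (abs_add_le _ _).trans (add_le_add (h z hz) (h' z hz))⟩
  | monomial n a =>
    refine ⟨|algebraMap ℚ ℝ a|, abs_nonneg _, fun z hz => ?_⟩
    rw [aeval_monomial, abs_mul, abs_pow]
    exact mul_le_of_le_one_right (abs_nonneg _) (pow_le_one₀ (abs_nonneg _) hz)

theorem bdd2 (D : ℚ[X][X]) :
    ∃ c : ℝ, 0 ≤ c ∧ ∀ z h : ℝ, |z| ≤ 1 → |h| ≤ 1 → |ev z h D| ≤ c := by
  induction D using Polynomial.induction_on' with
  | add p q hp hq =>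
    obtain ⟨c, h0, h⟩ := hp
    obtain ⟨c', h0', h'⟩ := hq
    exact ⟨c + c', by positivity, fun z y hz hy => by
      rw [map_add]; exact (abs_add_le _ _).trans (add_le_add (h z y hz hy) (h' z y hz hy))⟩
  | monomial n a =>
    obtain ⟨c, h0, h⟩ := bdd1 a
    refine ⟨c, h0, fun z y hz hy => ?_⟩
    rw [← C_mul_X_pow_eq_monomial, map_mul, map_pow, ev_C, ev_X, abs_mul, abs_pow]
    exact (mul_le_of_le_one_right (abs_nonneg _) (pow_le_one₀ (abs_nonneg _) hy)).trans (h z hz)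

theorem ev_ge (c : ℝ) : ∀ᶠ q : ℕ in atTop, c ≤ (q : ℝ) :=
  tendsto_natCast_atTop_atTop.eventually_ge_atTop c

theorem lower (U : ℚ[X]) (h : U.coeff 0 ≠ 0) :
    ∀ᶠ q : ℕ in atTop, |((U.coeff 0 : ℚ) : ℝ)| / 2 ≤ |aeval (q : ℝ)⁻¹ U| := by
  have h1 : Tendsto (fun q : ℕ => |aeval (q : ℝ)⁻¹ U|) atTop (nhds |aeval (0 : ℝ) U|) :=
    ((U.continuous_aeval.tendsto 0).comp tendsto_inv_atTop_nhds_zero_nat).abs
  have h2 : aeval (0 : ℝ) U = U.coeff 0 := by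
    rw [aeval_def, eval₂_at_zero]; rfl
  rw [h2] at h1
  refine h1.eventually_const_le ?_
  have : 0 < |((U.coeff 0 : ℚ) : ℝ)| := by simpa using h
  linarith

theorem inv_facts {q : ℕ} (hq : (1 : ℝ) ≤ q) : 0 < (q : ℝ)⁻¹ ∧ (q : ℝ)⁻¹ ≤ 1 :=
  ⟨by positivity, inv_le_one_of_one_le₀ hq⟩

theorem est_small {A : ℚ[X][X]} {F : ℚ[X]} {N : ℕ} (h : X ^ N ∣ A.eval F) :
    ∀ᶠ q : ℕ in atTop, ∀ Λ ≤ N, ∀ y : ℝ, |y - aeval (q : ℝ)⁻¹ F| ≤ (q : ℝ)⁻¹ ^ Λ →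
      |ev (q : ℝ)⁻¹ y A| ≤ q * (q : ℝ)⁻¹ ^ Λ := by
  obtain ⟨D, hD⟩ := taylor2 A F
  obtain ⟨U, hU⟩ := h
  obtain ⟨c₁, p₁, h₁⟩ := bdd1 U
  obtain ⟨c₂, p₂, h₂⟩ := bdd1 (A.derivative.eval F)
  obtain ⟨c₃, p₃, h₃⟩ := bdd2 D
  filter_upwards [ev_ge (c₁ + c₂ + c₃), ev_ge 1] with q hq hq1 Λ hΛ y hy
  obtain ⟨z0, z1⟩ := inv_facts hq1
  set z := (q : ℝ)⁻¹
  have za : |z| ≤ 1 := by rwa [abs_of_pos z0]
  have e := hD z (y - aeval z F)
  set h := y - aeval z F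
  have hh : |h| ≤ 1 := hy.trans (pow_le_one₀ z0.le z1)
  rw [add_sub_cancel, hU, map_mul, map_pow, aeval_X] at e
  have b1 : |z ^ N * aeval z U| ≤ z ^ Λ * c₁ := by
    rw [abs_mul, abs_pow, abs_of_pos z0]
    exact mul_le_mul (pow_le_pow_of_le_one z0.le z1 hΛ) (h₁ z za) (abs_nonneg _) (by positivity)
  have b2 : |h * aeval z (A.derivative.eval F)| ≤ z ^ Λ * c₂ := by
    rw [abs_mul]; exact mul_le_mul hy (h₂ z za) (abs_nonneg _) (by positivity)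
  have b3 : |h ^ 2 * ev z h D| ≤ z ^ Λ * c₃ := by
    rw [abs_mul, abs_pow]
    refine mul_le_mul ?_ (h₃ z h za hh) (abs_nonneg _) (by positivity)
    exact (pow_le_of_le_one (abs_nonneg _) hh two_ne_zero).trans hy
  rw [e]
  refine (abs_add_three _ _ _).trans ?_
  have : 0 ≤ z ^ Λ := by positivity
  nlinarith

theorem est_free {A : ℚ[X][X]} {F : ℚ[X]} {N μ Λ : ℕ} (h : ¬ X ^ (N + 1) ∣ A.eval F)
    (h' : X ^ μ ∣ A.derivative.eval F) (l1 : N + 1 ≤ Λ + μ) (l2 : N + 1 ≤ Λ * 2) :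
    ∀ᶠ q : ℕ in atTop, ∀ y : ℝ, |y - aeval (q : ℝ)⁻¹ F| ≤ (q : ℝ)⁻¹ ^ Λ →
      ev (q : ℝ)⁻¹ y A ≠ 0 := by
  obtain ⟨D, hD⟩ := taylor2 A F
  have h0 : A.eval F ≠ 0 := by intro h0; rw [h0] at h; exact h (dvd_zero _)
  obtain ⟨U, hU, hn⟩ := exists_eq_pow_rootMultiplicity_mul_and_not_dvd _ h0 0
  rw [map_zero, sub_zero] at hU hn
  set ℓ := rootMultiplicity 0 (A.eval F)
  have hl : ℓ ≤ N := by
    by_contra hc; exact h (hU ▸ (pow_dvd_pow _ (by omega)).mul_right _)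
  rw [X_dvd_iff] at hn
  obtain ⟨V, hV⟩ := h'
  obtain ⟨c₂, p₂, h₂⟩ := bdd1 V
  obtain ⟨c₃, p₃, h₃⟩ := bdd2 D
  have hc : 0 < |((U.coeff 0 : ℚ) : ℝ)| / 2 := by
    have : 0 < |((U.coeff 0 : ℚ) : ℝ)| := by simpa using hn
    linarith
  filter_upwards [lower U hn, ev_ge ((c₂ + c₃) / (|((U.coeff 0 : ℚ) : ℝ)| / 2) + 1), ev_ge 1]
    with q hq hq' hq1 y hy h00
  obtain ⟨z0, z1⟩ := inv_facts hq1
  have zq : (q : ℝ)⁻¹ * q = 1 := inv_mul_cancel₀ (by positivity)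
  set c := |((U.coeff 0 : ℚ) : ℝ)| / 2
  set z := (q : ℝ)⁻¹
  have za : |z| ≤ 1 := by rwa [abs_of_pos z0]
  have e := hD z (y - aeval z F)
  set h := y - aeval z F
  have hh : |h| ≤ 1 := hy.trans (pow_le_one₀ z0.le z1)
  rw [add_sub_cancel, hU, hV, map_mul, map_pow, aeval_X, map_mul, map_pow, aeval_X, h00] at e
  have b1 : z ^ N * c ≤ |z ^ ℓ * aeval z U| := by
    rw [abs_mul, abs_pow, abs_of_pos z0]
    exact mul_le_mul (pow_le_pow_of_le_one z0.le z1 hl) hq hc.le (by positivity)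
  have b2 : |h * (z ^ μ * aeval z V)| ≤ z ^ (N + 1) * c₂ := by
    rw [← mul_assoc, abs_mul, abs_mul, abs_pow, abs_of_pos z0]
    refine mul_le_mul ?_ (h₂ z za) (abs_nonneg _) (by positivity)
    refine (mul_le_mul_of_nonneg_right hy (by positivity)).trans ?_
    rw [← pow_add]; exact pow_le_pow_of_le_one z0.le z1 l1
  have b3 : |h ^ 2 * ev z h D| ≤ z ^ (N + 1) * c₃ := by
    rw [abs_mul, abs_pow]
    refine mul_le_mul ?_ (h₃ z h za hh) (abs_nonneg _) (by positivity)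
    refine (pow_le_pow_left₀ (abs_nonneg _) hy 2).trans ?_
    rw [← pow_mul]; exact pow_le_pow_of_le_one z0.le z1 l2
  have b4 : |z ^ ℓ * aeval z U| ≤ z ^ (N + 1) * c₂ + z ^ (N + 1) * c₃ := by
    have : z ^ ℓ * aeval z U = -(h * (z ^ μ * aeval z V) + h ^ 2 * ev z h D) := by linarith
    rw [this, abs_neg]
    exact (abs_add_le _ _).trans (add_le_add b2 b3)
  have b5 : c ≤ z * (c₂ + c₃) := by
    refine le_of_mul_le_mul_left ((b1.trans b4).trans (le_of_eq ?_)) (pow_pos z0 N)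
    ring
  have b6 : c * q ≤ c₂ + c₃ := by
    have := mul_le_mul_of_nonneg_right b5 (show (0 : ℝ) ≤ q by positivity)
    rwa [mul_right_comm, zq, one_mul] at this
  rw [← le_sub_iff_add_le, div_le_iff₀ hc] at hq'
  nlinarith

theorem int_coeffs (A : ℚ[X][X]) :
    ∃ b : ℕ, 0 < b ∧ ∀ i l, ∃ c : ℤ, (c : ℚ) = b * (A.coeff l).coeff i := by
  refine ⟨∏ p ∈ range (dz A + 1) ×ˢ range (A.natDegree + 1), ((A.coeff p.2).coeff p.1).den,
    prod_pos fun _ _ => Rat.pos _, fun i l => ?_⟩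
  by_cases h : (i, l) ∈ range (dz A + 1) ×ˢ range (A.natDegree + 1)
  · obtain ⟨k, hk⟩ := dvd_prod_of_mem (fun p : ℕ × ℕ => ((A.coeff p.2).coeff p.1).den) h
    refine ⟨k * ((A.coeff l).coeff i).num, ?_⟩
    rw [hk]; push_cast
    rw [mul_comm _ (k : ℚ), mul_assoc, Rat.den_mul_eq_num]
  · refine ⟨0, ?_⟩
    have : (A.coeff l).coeff i = 0 := by
      simp only [mem_product, mem_range, not_and_or, not_lt] at h
      rcases h with h | h
      · exact coeff_eq_zero_of_natDegree_lt ((coeff_le_dz A l).trans_lt h)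
      · rw [coeff_eq_zero_of_natDegree_lt (p := A) h, coeff_zero]
    simp [this]

theorem clear {p : ℚ[X]} {M : ℕ} (hp : p.natDegree ≤ M) {b : ℚ} {c : ℕ → ℤ}
    (h : ∀ i, (c i : ℚ) = b * p.coeff i) {q : ℚ} (hq : q ≠ 0) :
    ∑ i ∈ range (M + 1), (c i : ℚ) * q ^ (M - i) = b * q ^ M * p.eval q⁻¹ := by
  rw [eval_eq_sum_range' (Nat.lt_succ_of_le hp), mul_sum]
  refine sum_congr rfl fun i hi => ?_
  rw [h, pow_sub₀ _ hq (by simpa [Nat.lt_succ_iff] using hi), inv_pow]; ring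

/-- specialisation of the inner variable to `1 / q` -/
noncomputable def sp (q : ℕ) (A : ℚ[X][X]) : ℚ[X] := A.map (evalRingHom (q : ℚ)⁻¹)

theorem aeval_inv (q : ℕ) (p : ℚ[X]) : aeval (q : ℝ)⁻¹ p = ((p.eval (q : ℚ)⁻¹ : ℚ) : ℝ) := by
  have := aeval_algebraMap_apply ℝ (q : ℚ)⁻¹ p
  simpa using this

theorem ev_sp (q : ℕ) (y : ℝ) (A : ℚ[X][X]) : ev (q : ℝ)⁻¹ y A = aeval y (sp q A) := by
  rw [sp, aeval_def, eval₂_map, ev, coe_eval₂RingHom]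
  congr 1
  refine RingHom.ext fun p => ?_
  simpa using aeval_inv q p

theorem int_model {A : ℚ[X][X]} {M m : ℕ} (h1 : dz A ≤ M) (h2 : A.natDegree ≤ m) :
    ∃ (b : ℕ) (c : ℝ), 0 < b ∧ ∀ q : ℕ, 0 < q → ∃ P : ℤ[X], P.natDegree ≤ m ∧ N1 P ≤ c * q ^ M ∧
      P.map (algebraMap ℤ ℚ) = C ((b : ℚ) * q ^ M) * sp q A := by
  obtain ⟨b, hb, hc⟩ := int_coeffs A
  choose c hc using hc
  refine ⟨b, ∑ l ∈ range (m + 1), ∑ i ∈ range (M + 1), ‖c i l‖, hb, fun q hq =>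
    ⟨fP m fun l => ∑ i ∈ range (M + 1), c i l * q ^ (M - i), natDegree_fP _ _, ?_, ?_⟩⟩
  · rw [N1_eq _ (Nat.lt_succ_of_le (natDegree_fP _ _)), sum_mul]
    refine sum_le_sum fun l hl => ?_
    rw [coeff_fP, if_pos (by simpa [Nat.lt_succ_iff] using hl), sum_mul]
    refine (norm_sum_le _ _).trans (sum_le_sum fun i _ => ?_)
    rw [norm_mul, norm_pow, Int.norm_natCast]
    exact mul_le_mul_of_nonneg_left (pow_le_pow_right₀ (by exact_mod_cast hq) (Nat.sub_le _ _))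
      (norm_nonneg _)
  · ext l
    rw [coeff_map, coeff_fP, coeff_C_mul, sp, coeff_map]
    split_ifs with hl
    · have := clear (dz_le_iff.1 h1 l) (fun i => hc i l) (q := q) (by positivity)
      simpa using this
    · rw [coeff_eq_zero_of_natDegree_lt (p := A) (by omega)]; simp

theorem affine {P : ℤ[X]} {m E Q : ℕ} {ρ : ℤ} (hP : P.natDegree ≤ m) (hE : 0 < E) {W : ℝ}
    (h1 : 1 ≤ W) (hW : (E : ℝ) * Q + |(ρ : ℝ)| ≤ W) :
    ∃ P' : ℤ[X], P'.natDegree ≤ m ∧ N1 P' ≤ N1 P * E ^ m * W ^ m ∧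
      ∀ x : ℝ, aeval x P' = E ^ m * aeval (Q * x - ρ / E) P := by
  refine ⟨(fP m fun l => P.coeff l * E ^ (m - l)).comp (C ((E : ℤ) * Q) * X + C (-ρ)), ?_, ?_,
    fun x => ?_⟩
  · refine natDegree_comp_le.trans ?_
    have := natDegree_linear_le (a := (E : ℤ) * Q) (b := -ρ)
    have := natDegree_fP m fun l => P.coeff l * E ^ (m - l)
    nlinarith
  · refine (N1_comp_le _ _ h1 ((N1_lin _ _).trans ?_) (natDegree_fP _ _)).trans ?_
    · simpa [Int.norm_eq_abs] using hW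
    refine mul_le_mul_of_nonneg_right ?_ (by positivity)
    rw [N1_eq _ (Nat.lt_succ_of_le (natDegree_fP _ _)), N1_eq _ (Nat.lt_succ_of_le hP), sum_mul]
    refine sum_le_sum fun l hl => ?_
    rw [coeff_fP, if_pos (by simpa [Nat.lt_succ_iff] using hl), norm_mul, norm_pow,
      Int.norm_natCast]
    exact mul_le_mul_of_nonneg_left (pow_le_pow_right₀ (by exact_mod_cast hE) (Nat.sub_le _ _))
      (norm_nonneg _)
  · have hE' : (E : ℝ) ≠ 0 := by positivity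
    rw [aeval_comp, aeval_eq_sum_range' (Nat.lt_succ_of_le (natDegree_fP _ _)),
      aeval_eq_sum_range' (Nat.lt_succ_of_le hP), mul_sum]
    refine sum_congr rfl fun l hl => ?_
    have hl' : l ≤ m := by simpa [Nat.lt_succ_iff] using hl
    have : aeval x (C ((E : ℤ) * Q) * X + C (-ρ)) = E * (Q * x - ρ / E) := by
      simp; field_simp; ring
    rw [this, coeff_fP, if_pos hl', mul_pow]
    obtain ⟨k, rfl⟩ := Nat.exists_eq_add_of_le hl'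
    simp [pow_add]; ring

theorem est_model {A : ℚ[X][X]} {M m : ℕ} (h1 : dz A ≤ M) (h2 : A.natDegree ≤ m) :
    ∀ᶠ q : ℕ in atTop, ∀ (E Q : ℕ) (ρ : ℤ), 0 < E → E ≤ q → Q ≤ q ^ 2 → |(ρ : ℝ)| ≤ q ^ 5 →
      ∃ (P : ℤ[X]) (κ : ℝ), 0 < κ ∧ κ ≤ q ^ (M + 1 + m) ∧ P.natDegree ≤ m ∧
        N1 P ≤ q ^ (M + 1 + 7 * m) ∧ ∀ x : ℝ, aeval x P = κ * ev (q : ℝ)⁻¹ (Q * x - ρ / E) A := by
  obtain ⟨b, c, hb, h⟩ := int_model h1 h2
  filter_upwards [ev_ge b, ev_ge c, ev_ge 2] with q qb qc q2 E Q ρ hE hEq hQ hρ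
  have q0 : 0 < q := by exact_mod_cast (by linarith : (0 : ℝ) < q)
  obtain ⟨P, p1, p2, p3⟩ := h q q0
  have hE' : (E : ℝ) ≤ q := by exact_mod_cast hEq
  have hQ' : (Q : ℝ) ≤ q ^ 2 := by exact_mod_cast hQ
  obtain ⟨P', e1, e2, e3⟩ := affine (Q := Q) (ρ := ρ) p1 hE (W := q ^ 6)
    (one_le_pow₀ (by linarith)) (by
      have h3 : (E : ℝ) * Q ≤ q * q ^ 2 := by gcongr
      have h4 : (q : ℝ) ^ 3 ≤ q ^ 5 := pow_le_pow_right₀ (by linarith) (by norm_num)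
      have h5 : (0 : ℝ) ≤ q ^ 5 := by positivity
      nlinarith)
  refine ⟨P', b * q ^ M * E ^ m, by positivity, ?_, e1, e2.trans ?_, fun x => ?_⟩
  · calc (b : ℝ) * q ^ M * E ^ m ≤ q * q ^ M * q ^ m := by gcongr
      _ = _ := by ring
  · calc N1 P * E ^ m * ((q : ℝ) ^ 6) ^ m ≤ (q * q ^ M) * q ^ m * ((q : ℝ) ^ 6) ^ m := by
          gcongr; exact p2.trans (by gcongr)
      _ = _ := by ring
  · rw [e3, ev_sp, ← aeval_map_algebraMap ℚ, p3]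
    simp; ring

end Pool.Agent.Lib.MP_a0d2f7_nt
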