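import Pool.Agent.Lib.MP_a0d2f7_nt.Est

set_option autoImplicit false

namespace Pool.Agent.Lib.MP_a0d2f7_nt

open Polynomial Finset Filter

/-- large powers of two -/
def pw : Filter ℕ := Filter.map (fun D : ℕ => 2 ^ D) atTop

theorem pw_le : pw ≤ atTop := tendsto_pow_atTop_atTop_of_one_lt (by norm_num : 1 < 2)

theorem pw_dvd (v : ℕ) : ∀ᶠ q in pw, 2 ^ v ∣ q := by
  rw [pw, eventually_map]
  filter_upwards [eventually_ge_atTop v] with D hD using pow_dvd_pow _ hD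

theorem est_exc {A : ℚ[X][X]} {M n : ℕ} (hn : 2 < n)
    (h1 : dz (A - C (X ^ (M + 1)) * (X ^ n + 2)) ≤ M)
    (h2 : (A - C (X ^ (M + 1)) * (X ^ n + 2)).natDegree ≤ n - 1) (h3 : (A.coeff 2).coeff 0 = 1) :
    ∀ᶠ q in pw, ∀ (Q : ℕ) (r : ℚ) (β : ℝ) (B : ℤ[X]), 0 < Q → Q ≤ q ^ 2 → |(r : ℝ)| ≤ q ^ 5 →
      Irreducible B → aeval β B = 0 → ev (q : ℝ)⁻¹ (Q * β - r) A = 0 →
      n ≤ B.natDegree ∧ (q : ℝ) ^ (M + 1) ≤ 2 * N1 B * q ^ (8 * n) := by
  obtain ⟨b, c, hb, h⟩ := int_model h1 h2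
  obtain ⟨v, u, hu, rfl⟩ := Nat.exists_eq_two_pow_mul_odd hb.ne'
  filter_upwards [pw_dvd (v + 2), pw_le (ev_ge 2), pw_le (lower (A.coeff 2) (by simp [h3]))]
    with q ⟨w, hw⟩ q2 ql Q r β B Q0 hQ hr hB hβ h0
  have q0 : 0 < q := by exact_mod_cast (by linarith : (0 : ℝ) < q)
  have q0' : (q : ℚ) ≠ 0 := by positivity
  obtain ⟨P, p1, -, p3⟩ := h q q0
  set W := A - C (X ^ (M + 1)) * (X ^ n + 2) with hW
  have e1 : sp q A = C ((q : ℚ)⁻¹ ^ (M + 1)) * (X ^ n + 2) + sp q W := by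
    simp [sp, hW, -inv_pow]
  have dW : (sp q W).natDegree ≤ n - 1 := natDegree_map_le.trans h2
  have hi : Irreducible (sp q A) := by
    have := eisenstein (G := C (w : ℤ) * P) (u := u) (n := n) (by exact_mod_cast hu)
      (((natDegree_C_mul_le _ _).trans p1).trans_lt (by omega))
    have e2 : (C (u : ℤ) * (X ^ n + 2) + C 4 * (C (w : ℤ) * P)).map (algebraMap ℤ ℚ) =
        C ((u : ℚ) * q ^ (M + 1)) * sp q A := by
      rw [e1, mul_add (C ((u : ℚ) * q ^ (M + 1))), ← mul_assoc (C _) (C _) (X ^ n + 2 : ℚ[X]),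
        ← C_mul, Polynomial.map_add,
        Polynomial.map_mul, Polynomial.map_mul, Polynomial.map_mul, p3, map_C, map_C, map_C,
        ← mul_assoc, ← mul_assoc, ← C_mul, ← C_mul]
      congr 3
      · simp; field_simp
      · simp
      · rw [pow_succ, hw]; simp; ring
    rw [e2, irreducible_isUnit_mul] at this
    · exact this
    · rw [isUnit_C, isUnit_iff_ne_zero]
      have := hu.pos
      positivity
  have cn : (sp q A).coeff n = (q : ℚ)⁻¹ ^ (M + 1) := by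
    rw [e1, coeff_add, coeff_eq_zero_of_natDegree_lt (p := sp q W) (by omega), coeff_C_mul,
      coeff_add, coeff_X_pow, show (2 : ℚ[X]) = C 2 from rfl, coeff_C, if_pos rfl,
      if_neg (by omega)]
    simp
  have dn : (sp q A).natDegree = n := by
    refine natDegree_eq_of_le_of_coeff_ne_zero ?_ (by rw [cn]; positivity)
    rw [e1]
    refine (natDegree_add_le _ _).trans (max_le ((natDegree_C_mul_le _ _).trans
      ((natDegree_add_le _ _).trans (max_le (natDegree_X_pow_le _) (by simp)))) (by omega))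
  have Q0' : (Q : ℚ) ≠ 0 := by positivity
  obtain ⟨-, hBi⟩ := irred_rat hB hβ
  set B₁ := (B.map (algebraMap ℤ ℚ)).comp (C (Q : ℚ)⁻¹ * X + C (r / Q)) with hB₁
  have hi₁ : Irreducible B₁ := by
    let _ := invertibleOfNonzero (inv_ne_zero Q0')
    have := (MulEquiv.irreducible_iff (algEquivCMulXAddC (Q : ℚ)⁻¹ (r / Q))).2 hBi
    rwa [algEquivCMulXAddC_apply, ← comp_eq_aeval] at this
  have r1 : aeval ((Q : ℝ) * β - r) B₁ = 0 := by
    rw [hB₁, aeval_comp, aeval_map_algebraMap, ← hβ]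
    congr 2
    have : (Q : ℝ) ≠ 0 := by positivity
    simp; field_simp; ring
  rw [ev_sp] at h0
  have hd : sp q A ∣ B₁ := by
    by_contra hc
    obtain ⟨s, t, hst⟩ := hi.coprime_iff_not_dvd.2 hc
    have := congrArg (aeval ((Q : ℝ) * β - r)) hst
    simp [h0, r1] at this
  obtain ⟨e, he⟩ := hi.associated_of_dvd hi₁ hd
  obtain ⟨k, hk0, hk⟩ := isUnit_iff.1 e.isUnit
  rw [← hk] at he
  have dl : (C (Q : ℚ)⁻¹ * X + C (r / Q)).natDegree = 1 := natDegree_linear (inv_ne_zero Q0')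
  have inj := FaithfulSMul.algebraMap_injective ℤ ℚ
  have dB : B.natDegree = n := by
    have := congrArg natDegree he
    rw [natDegree_mul_C hk0.ne_zero, dn, hB₁, natDegree_comp, dl,
      natDegree_map_eq_of_injective inj] at this
    omega
  refine ⟨dB.ge, ?_⟩
  have lc : (q : ℚ)⁻¹ ^ (M + 1) * k = B.leadingCoeff * (Q : ℚ)⁻¹ ^ n := by
    have := congrArg leadingCoeff he
    rw [leadingCoeff_mul, leadingCoeff_C, leadingCoeff, dn, cn, hB₁,
      leadingCoeff_comp (by omega), leadingCoeff_linear (inv_ne_zero Q0'),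
      natDegree_map_eq_of_injective inj, dB, leadingCoeff_map_of_injective inj] at this
    simpa using this
  have lc' : (k : ℝ) * Q ^ n = B.leadingCoeff * q ^ (M + 1) := by
    have : k * Q ^ n = B.leadingCoeff * q ^ (M + 1) := by
      field_simp at lc
      simp only [one_div, inv_pow] at lc
      field_simp at lc
      linear_combination lc
    exact_mod_cast this
  have l1 : (1 : ℝ) ≤ |(B.leadingCoeff : ℝ)| := by
    exact_mod_cast Int.one_le_abs (leadingCoeff_ne_zero.2 hB.ne_zero)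
  have hQ' : (Q : ℝ) ≤ q ^ 2 := by exact_mod_cast hQ
  have Q1 : (1 : ℝ) ≤ Q := by exact_mod_cast Q0
  have k1 : (q : ℝ) ^ (M + 1) ≤ |(k : ℝ)| * (q ^ 2) ^ n := by
    calc (q : ℝ) ^ (M + 1) ≤ |(B.leadingCoeff : ℝ)| * q ^ (M + 1) :=
          le_mul_of_one_le_left (by positivity) l1
      _ = |(k : ℝ)| * Q ^ n := by
          have := congrArg abs lc'
          rwa [abs_mul, abs_mul, abs_of_nonneg (by positivity : (0 : ℝ) ≤ Q ^ n),
            abs_of_nonneg (by positivity : (0 : ℝ) ≤ q ^ (M + 1)), eq_comm] at this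
      _ ≤ _ := by gcongr
  have k2 : 1 / 2 * |(k : ℝ)| ≤ N1 B * ((q : ℝ) ^ 6) ^ n := by
    have c2 := coeff_le_N1 B₁ 2
    rw [← he, coeff_mul_C, norm_mul, he] at c2
    have c3 : N1 B₁ ≤ N1 (B.map (algebraMap ℤ ℚ)) * ((q : ℝ) ^ 6) ^ n := by
      refine N1_comp_le _ _ (one_le_pow₀ (by linarith)) ((N1_lin _ _).trans ?_)
        (natDegree_map_le.trans dB.le)
      rw [← Rat.norm_cast_real, ← Rat.norm_cast_real]
      simp only [Rat.cast_inv, Rat.cast_natCast, Rat.cast_div, Real.norm_eq_abs, abs_inv, abs_div,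
        Nat.abs_cast]
      have a1 : (Q : ℝ)⁻¹ ≤ 1 := inv_le_one_of_one_le₀ Q1
      have a2 : |(r : ℝ)| / Q ≤ q ^ 5 := (div_le_self (abs_nonneg _) Q1).trans hr
      have a3 : (1 : ℝ) ≤ q ^ 5 := one_le_pow₀ (by linarith)
      nlinarith
    rw [N1_map _ (fun a => by simp) B] at c3
    refine le_trans ?_ (c2.trans c3)
    rw [← Rat.norm_cast_real k, Real.norm_eq_abs]
    refine mul_le_mul_of_nonneg_right ?_ (abs_nonneg _)
    rw [h3, aeval_inv] at ql
    rw [← Rat.norm_cast_real, sp, coeff_map, Real.norm_eq_abs]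
    simpa using ql
  calc (q : ℝ) ^ (M + 1) ≤ |(k : ℝ)| * (q ^ 2) ^ n := k1
    _ ≤ (2 * (N1 B * ((q : ℝ) ^ 6) ^ n)) * (q ^ 2) ^ n := by gcongr; linarith
    _ = _ := by ring

end Pool.Agent.Lib.MP_a0d2f7_nt
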