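import Pool.Agent.Lib.MP_a0d2f7_nt.Build

set_option autoImplicit false

namespace Pool.Agent.Lib.MP_a0d2f7_nt

open Polynomial Finset

section
variable {A : Type*} [CommRing A]

theorem X_pow_cancel {N k : ℕ} {p : A[X]} (h : X ^ (N + k) ∣ X ^ k * p) : X ^ N ∣ p := by
  obtain ⟨g, hg⟩ := h
  refine ⟨g, (monic_X_pow (R := A) k).isRegular.left ?_⟩
  simp only [hg]; ring

theorem cancel_unit {N μ : ℕ} {u p : A[X]} (hu : X ^ (μ + 1) ∣ u - X ^ μ)
    (h : X ^ (N + μ) ∣ u * p) : X ^ N ∣ p := by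
  obtain ⟨v, hv⟩ := hu
  have h1 : X ^ N ∣ (1 + X * v) * p := by
    apply X_pow_cancel (k := μ)
    rw [eq_add_of_sub_eq hv] at h
    convert h using 1; ring
  have h2 : IsCoprime (X ^ N : A[X]) (1 + X * v) := IsCoprime.pow_left ⟨-v, 1, by ring⟩
  exact h2.dvd_of_dvd_mul_left h1

theorem dvd_tP (L₀ d : ℕ) (x : Var → A) : X ^ L₀ ∣ tP L₀ d x := by
  refine dvd_sum fun e he => ?_
  rw [← C_mul_X_pow_eq_monomial]
  exact (pow_dvd_pow _ (mem_Ico.1 he).1).mul_left _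

theorem dvd_gP (d μ' : ℕ) (x' : ℕ → A) : X ^ d ∣ gP d μ' x' := by
  refine dvd_sum fun e _ => ?_
  rw [← C_mul_X_pow_eq_monomial]
  exact (pow_dvd_pow _ (by nlinarith)).mul_left _

theorem coeff_tP (L₀ d : ℕ) (x : Var → A) (j : ℕ) :
    (tP L₀ d x).coeff j = if L₀ ≤ j ∧ j < d then x (3, j, 0) else 0 := by
  simp [tP, finsetSum_coeff, coeff_monomial]

theorem dvd_tP' {L₀ d : ℕ} (h : L₀ < d) (x : Var → A) :
    X ^ (L₀ + 1) ∣ tP L₀ d x - C (x (3, L₀, 0)) * X ^ L₀ := by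
  rw [X_pow_dvd_iff]; intro i hi
  rw [coeff_sub, coeff_tP, coeff_C_mul_X_pow]
  by_cases h1 : i = L₀
  · subst h1; simp [h]
  · rw [if_neg (by omega), if_neg h1, sub_zero]

theorem natDegree_tP {L₀ d : ℕ} (x : Var → A) : (tP L₀ d x).natDegree ≤ d - 1 := by
  rw [natDegree_le_iff_coeff_eq_zero]; intro i hi; rw [coeff_tP, if_neg (by omega)]

theorem dz_A0_sub {a ν : ℕ} (ha : 1 ≤ a) (x : Var → A) (y : Io (ν * a) → A) :
    dz (A0 a ν x y - C (X ^ (4 * a + 2)) * (X ^ (4 * ν + 3) + 2)) ≤ 4 * a + 1 := by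
  have : A0 a ν x y - C (X ^ (4 * a + 2)) * (X ^ (4 * ν + 3) + 2) = (X - C (C (x (0, 0, 0)))) ^ 2 +
      C X * (ofC (4 * a) (4 * ν + 1) (fun i l => x (1, i, l)) - LS a ν y) := by
    simp only [A0, TP]; ring
  rw [this]
  refine dz_add_le ((dz_pow_le _ _).trans ?_) ((dz_mul_le _ _).trans ?_)
  · have : dz (X - C (C (x (0, 0, 0))) : A[X][X]) ≤ 0 :=
      dz_sub_le (by rw [dz_X]) (by rw [dz_C, natDegree_C])
    omega
  · have h1 : dz (ofC (4 * a) (4 * ν + 1) (fun i l => x (1, i, l)) - LS a ν y) ≤ 4 * a :=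
      dz_sub_le (dz_ofC _ _ _) ((dz_LS ha y).trans (by omega))
    have := natDegree_X_le (R := A)
    rw [dz_C]; omega

theorem natDegree_A0_sub {a ν : ℕ} (ha : 1 ≤ a) (x : Var → A) (y : Io (ν * a) → A) :
    (A0 a ν x y - C (X ^ (4 * a + 2)) * (X ^ (4 * ν + 3) + 2)).natDegree ≤ 4 * ν + 2 := by
  have : A0 a ν x y - C (X ^ (4 * a + 2)) * (X ^ (4 * ν + 3) + 2) = (X - C (C (x (0, 0, 0)))) ^ 2 +
      C X * (ofC (4 * a) (4 * ν + 1) (fun i l => x (1, i, l)) - LS a ν y) := by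
    simp only [A0, TP]; ring
  rw [this]
  refine (natDegree_add_le _ _).trans (max_le (natDegree_pow_le.trans ?_)
    ((natDegree_C_mul_le _ _).trans ((natDegree_sub_le _ _).trans (max_le ?_ ?_))))
  · have := natDegree_X_sub_C_le (C (x (0, 0, 0))); omega
  · exact (natDegree_ofC _ _ _).trans (by omega)
  · exact (natDegree_LS ha y).trans (by omega)

theorem coeff_A0_two (a ν : ℕ) (x : Var → A) (y : Io (ν * a) → A) :
    ((A0 a ν x y).coeff 2).coeff 0 = 1 := by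
  have : ((X - C (C (x (0, 0, 0)))) ^ 2 : A[X][X]).coeff 2 = 1 := by
    have : ((X - C (C (x (0, 0, 0)))) ^ 2 : A[X][X]) =
      X ^ 2 - C (C (2 * x (0, 0, 0))) * X + C (C (x (0, 0, 0)) ^ 2) := by
      simp only [map_mul, map_pow, map_ofNat]; ring
    rw [this]; simp only [coeff_add, coeff_sub, coeff_C_mul, coeff_X_pow, coeff_X, coeff_C]; simp
  simp only [A0, TP, coeff_add, coeff_C_mul, this]
  simp [mul_coeff_zero, coeff_X_pow]

theorem dz_A0 {a ν : ℕ} (ha : 1 ≤ a) (x : Var → A) (y : Io (ν * a) → A) :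
    dz (A0 a ν x y) ≤ 4 * a + 2 := by
  have h1 : dz (C (X ^ (4 * a + 2)) * (X ^ (4 * ν + 3) + 2) : A[X][X]) ≤ 4 * a + 2 := by
    refine (dz_mul_le _ _).trans ?_
    have : dz (X ^ (4 * ν + 3) + 2 : A[X][X]) ≤ 0 := dz_add_le (by rw [dz_X_pow]) (by
      rw [show (2 : A[X][X]) = C (C 2) from by simp [map_ofNat], dz_C, natDegree_C])
    have := natDegree_X_pow_le (R := A) (4 * a + 2)
    rw [dz_C]; omega
  simpa using dz_add_le ((dz_A0_sub ha x y).trans (Nat.le_succ _)) h1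

theorem natDegree_A0 {a ν : ℕ} (ha : 1 ≤ a) (x : Var → A) (y : Io (ν * a) → A) :
    (A0 a ν x y).natDegree ≤ 4 * ν + 3 := by
  have h1 : (C (X ^ (4 * a + 2)) * (X ^ (4 * ν + 3) + 2) : A[X][X]).natDegree ≤ 4 * ν + 3 :=
    (natDegree_C_mul_le _ _).trans ((natDegree_add_le _ _).trans
      (max_le (natDegree_X_pow_le _) (by simp)))
  simpa using (natDegree_add_le _ _).trans
    (max_le ((natDegree_A0_sub ha x y).trans (Nat.le_succ _)) h1)

variable {a ν L₀ : ℕ} {x : Var → A} {y : Io (ν * a) → A} {α : A[X]}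

theorem Dat.deriv (h : Dat a ν L₀ x y α) {F : A[X]} (hF : X ^ (ν * a + 1) ∣ F - α) :
    X ^ (ν * a + 1) ∣ (A0 a ν x y).derivative.eval F - X ^ (ν * a) := by
  have h1 : X ^ (ν * a + 1) ∣ F - fx (ν * a) x := by simpa using dvd_add hF h.c3
  simpa using dvd_add (h1.trans (sub_dvd_eval_sub _ _ (A0 a ν x y).derivative)) h.c2

theorem Dat.val (h : Dat a ν L₀ x y α) (hL : ν * a + 1 ≤ L₀) {F : A[X]} {t : A}
    (hF : X ^ (L₀ + 1) ∣ F - α - C t * X ^ L₀) :
    X ^ (L₀ + ν * a + 1) ∣ (A0 a ν x y).eval F - C t * X ^ (L₀ + ν * a) := by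
  obtain ⟨g, hg⟩ := hF
  obtain ⟨v, hv⟩ := h.deriv (F := α) (by simp)
  obtain ⟨k, hk⟩ := (A0 a ν x y).binomExpansion α (X ^ L₀ * (C t + X * g))
  have e : F = α + X ^ L₀ * (C t + X * g) := by linear_combination hg
  rw [e, hk, eq_add_of_sub_eq hv]
  have h3 : X ^ (L₀ + ν * a + 1) ∣ k * (X ^ L₀ * (C t + X * g)) ^ 2 := by
    rw [mul_pow, ← pow_mul]
    exact ((pow_dvd_pow _ (by omega)).mul_right _).mul_left _
  have h4 : X ^ (L₀ + ν * a + 1) ∣ X ^ (L₀ + ν * a + 1) * (g + v * (C t + X * g)) :=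
    dvd_mul_right _ _
  convert dvd_add (dvd_add h.c5 h4) h3 using 1
  ring

theorem IsDer.mul_zero' {δ : A →+ A} (h : IsDer δ) {p q : A} (hp : δ p = 0) (hq : δ q = 0) :
    δ (p * q) = 0 := by rw [h, hp, hq]; simp

theorem IsDer.mc_Lam {δ : A →+ A} (h : IsDer δ) (a ν : ℕ) (e : Io (ν * a)) :
    Pool.Agent.Lib.MP_a0d2f7_nt.mc (Pool.Agent.Lib.MP_a0d2f7_nt.mc δ) (Lam A a ν e) = 0 := by
  have h1 : ∀ k, Pool.Agent.Lib.MP_a0d2f7_nt.mc (Pool.Agent.Lib.MP_a0d2f7_nt.mc δ)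
    (C (X ^ k)) = 0 := fun k => by rw [mc_C, h.mc.pow h.mc_X, map_zero]
  have h2 := fun k => h.mc.mc.pow h.mc.mc_X k
  rcases e with e | e
  · exact h.mc.mc.mul_zero' (h1 _) (h2 _)
  · refine h.mc.mc.mul_zero' ?_ (h.mc.mc.mul_zero' (h1 _) (h2 _))
    rw [map_sub, h1, h.mc.mc_X, sub_zero]

theorem mc_A0 {δ : A →+ A} (h : IsDer δ) (h0 : δ (x (0, 0, 0)) = 0) :
    mc (mc δ) (A0 a ν x y) =
      C X * (ofC (4 * a) (4 * ν + 1) (fun i l => δ (x (1, i, l))) - LS a ν (fun e => δ (y e))) := by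
  have h1 : mc (mc δ) (TP a ν (x (0, 0, 0))) = 0 := by
    rw [TP, map_add, h.mc.mc.mul_zero', h.mc.mc.pow, add_zero]
    · rw [map_sub, h.mc.mc_X, mc_C, mc_C, h0]; simp
    · rw [mc_C, h.mc.pow h.mc_X, map_zero]
    · have := h.mc.mc.int 2
      rw [map_add, h.mc.mc.pow h.mc.mc_X, zero_add]; simpa using this
  have h2 : mc (mc δ) (LS a ν y) = LS a ν (fun e => δ (y e)) := by
    simp only [LS, map_sum]
    refine sum_congr rfl fun e _ => ?_
    rw [h.mc.mc, h.mc_Lam, mc_C, mc_C]; ring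
  rw [A0, map_add, h1, zero_add, h.mc.mc, mc_C, h.mc_X, map_sub, h2, mc_ofC]; simp

theorem Dat.der (h : Dat a ν L₀ x y α) (hu : IsUnit (GM a ν (fx (ν * a) x)).det)
    {δ : A →+ A} (hδ : IsDer δ) (h0 : ∀ i, δ (x (0, i, 0)) = 0) {D : A[X][X]}
    (hD : ofC (4 * a) (4 * ν + 1) (fun i l => δ (x (1, i, l))) = D)
    (h1 : X ^ (2 * (ν * a) + 1) ∣ D.eval (fx (ν * a) x) - C (δ (x (2, 0, 0))) * X ^ (2 * (ν * a)))
    (h2 : X ^ (ν * a) ∣ D.derivative.eval (fx (ν * a) x)) :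
    X ^ (L₀ + ν * a + 1) ∣ X * D.eval α + (A0 a ν x y).derivative.eval α * mc δ α := by
  have hf : mc δ (fx (ν * a) x) = 0 := by
    rw [fx, mc_fP]; simp [h0, fP]
  have e := mc_A0 (a := a) (ν := ν) (y := y) hδ (h0 0)
  rw [hD] at e
  have hy : (fun e => δ (y e)) = 0 := by
    refine LS_inj hu ?_ ?_
    · have h3 := X_pow_dvd_mc δ h.c1
      rw [map_sub, hδ.mc.eval, hf, e, hδ.mc, hδ.mc.pow hδ.mc_X, mc_C] at h3
      have h4 : X ^ (2 * (ν * a) + 1) ∣ D.eval (fx (ν * a) x) -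
          C (δ (x (2, 0, 0))) * X ^ (2 * (ν * a)) - (LS a ν fun e => δ (y e)).eval (fx (ν * a) x) := by
        apply X_pow_cancel (k := 1)
        convert h3 using 1
        simp only [eval_mul, eval_C, eval_sub]; ring
      simpa using dvd_sub h1 h4
    · have h3 := X_pow_dvd_mc δ h.c2
      rw [map_sub, hδ.mc.eval, hf, mc_derivative, e, hδ.mc.pow hδ.mc_X] at h3
      have h4 : X ^ (ν * a) ∣ D.derivative.eval (fx (ν * a) x) -
          (LS a ν fun e => δ (y e)).derivative.eval (fx (ν * a) x) := by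
        apply X_pow_cancel (k := 1)
        convert h3 using 1
        simp only [derivative_C_mul, derivative_sub, eval_mul, eval_C, eval_sub]; ring
      simpa using dvd_sub h2 h4
  have h3 := X_pow_dvd_mc δ h.c5
  rw [hδ.mc.eval, e, hy] at h3
  simpa [LS] using h3

theorem Dat.natDegree_R (h : Dat a ν L₀ x y α) {d : ℕ} (hd : L₀ < d) :
    (α + tP L₀ d x).natDegree < d := by
  have := natDegree_tP (L₀ := L₀) (d := d) x
  have := h.c4
  have := natDegree_add_le α (tP L₀ d x)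
  omega

theorem F_sub {L₀ d : ℕ} (hd : L₀ < d) (μ' : ℕ) (α : A[X]) (x : Var → A) (x' : ℕ → A) :
    X ^ (L₀ + 1) ∣ α + tP L₀ d x + gP d μ' x' - α - C (x (3, L₀, 0)) * X ^ L₀ := by
  convert dvd_add (dvd_tP' hd x) ((pow_dvd_pow _ hd).trans (dvd_gP d μ' x')) using 1
  ring

theorem F_sub' {L₀ d : ℕ} (hd : L₀ < d) (μ' : ℕ) (α : A[X]) (x : Var → A) (x' : ℕ → A) :
    X ^ L₀ ∣ α + tP L₀ d x + gP d μ' x' - α := by
  convert dvd_add (dvd_tP L₀ d x) ((pow_dvd_pow _ hd.le).trans (dvd_gP d μ' x')) using 1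
  ring

end

theorem Dat.gen {K : Type*} [Field K] {a ν L₀ d μ' : ℕ} {x : Var → K} {y : Io (ν * a) → K}
    {α : K[X]} (h : Dat a ν L₀ x y α) (hu : IsUnit (GM a ν (fx (ν * a) x)).det) {x' : ℕ → K}
    (ha : 1 ≤ a) (hL : ν * a + 1 ≤ L₀) (hd : L₀ < d) (ht : x (3, L₀, 0) ≠ 0)
    (H1 : ∀ j, ∃ δ : K →+ K, IsDer δ ∧ ∀ i, δ (x (0, i, 0)) = if i = j then 1 else 0)
    (H2 : ∀ j, ∃ δ : K →+ K, IsDer δ ∧ ∀ i, δ (x' i) = if i = j then 1 else 0)
    (H3 : ∀ c : Var → K, (∀ i, c (0, i, 0) = 0) →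
      ∃ δ : K →+ K, IsDer δ ∧ (∀ t, δ (x t) = c t) ∧ ∀ i, δ (x' i) = 0) :
    Gen (α + tP L₀ d x + gP d μ' x') (A0 a ν x y) a ν (ν * a) L₀ (L₀ + ν * a) d μ' := by
  set F := α + tP L₀ d x + gP d μ' x' with hF
  have hFα : X ^ L₀ ∣ F - α := F_sub' hd _ _ _ _
  have hval := h.val hL (F_sub hd μ' α x x')
  have hder := h.deriv (F := α) (by simp)
  have tang : ∀ D : K[X][X], dz D ≤ 4 * a → D.natDegree ≤ 4 * ν + 1 →
      X ^ (2 * (ν * a)) ∣ D.eval (fx (ν * a) x) → X ^ (ν * a) ∣ D.derivative.eval (fx (ν * a) x) →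
      ∀ g : K[X], X ^ L₀ ∣ g → g.natDegree < d → ∃ δ : K →+ K, IsDer δ ∧ mc δ F = mc δ α + g ∧
      X ^ (L₀ + ν * a + 1) ∣ X * D.eval α + (A0 a ν x y).derivative.eval α * mc δ α := by
    intro D d1 d2 d3 d4 g g1 g2
    obtain ⟨δ, hδ, e1, e2⟩ := H3 (fun t => if t.1 = 1 then (D.coeff t.2.2).coeff t.2.1 else
      if t.1 = 2 then (D.eval (fx (ν * a) x)).coeff (2 * (ν * a)) else
      if t.1 = 3 then g.coeff t.2.1 else 0) (by simp)
    refine ⟨δ, hδ, ?_, h.der hu hδ (by simp [e1]) (by simpa [e1] using ofC_coeff d1 d2) ?_ d4⟩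
    · have e3 : mc δ (gP d μ' x') = 0 := by simp [gP, e2]
      have e4 : mc δ (tP L₀ d x) = g := by
        ext j
        rw [coeff_mc, coeff_tP]
        split_ifs with hj
        · simp [e1]
        · rw [map_zero]
          rcases not_and_or.1 hj with hj | hj
          · exact (X_pow_dvd_iff.1 g1 j (by omega)).symm
          · exact (coeff_eq_zero_of_natDegree_lt (by omega)).symm
      rw [hF, map_add, map_add, e3, e4, add_zero]
    · rw [X_pow_dvd_iff]; intro i hi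
      rw [coeff_sub, coeff_C_mul_X_pow, e1]
      by_cases h1 : i = 2 * (ν * a)
      · simp [h1]
      · rw [if_neg h1, X_pow_dvd_iff.1 d3 i (by omega), sub_zero]
  refine ⟨fun j hj => ?_, fun g g1 g2 => ?_, fun i hi => ?_, ?_, dz_A0 ha x y, natDegree_A0 ha x y,
    ?_, fun hc => ?_⟩
  · obtain ⟨δ, hδ, e⟩ := H1 j
    refine ⟨δ, hδ, ?_⟩
    have h1 : X ^ (ν * a + 1) ∣ F - fx (ν * a) x := by
      simpa using dvd_add ((pow_dvd_pow _ hL).trans hFα) h.c3
    have h2 := X_pow_dvd_mc δ h1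
    have h3 : mc δ (fx (ν * a) x) = X ^ j := by
      ext i
      rw [fx, mc_fP, coeff_fP, e, coeff_X_pow]
      split_ifs <;> first | rfl | omega
    rwa [map_sub, h3] at h2
  · obtain ⟨δ, hδ, e1, e2⟩ := tang 0 (by simp [dz_zero]) (by simp) (by simp) (by simp) g g1 g2
    refine ⟨δ, hδ, ?_⟩
    have h1 : X ^ (L₀ + 1) ∣ mc δ α :=
      cancel_unit hder (by simpa [add_right_comm] using e2)
    have h2 : mc δ α = 0 := by
      by_contra h0
      have := natDegree_le_of_dvd h1 h0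
      rw [natDegree_X_pow] at this
      have := natDegree_mc δ α
      have := h.c4
      omega
    rw [e1, h2, zero_add]
  · obtain ⟨δ, hδ, e⟩ := H2 i
    refine ⟨δ, mc δ (α + tP L₀ d x), hδ, (natDegree_mc _ _).trans_lt (h.natDegree_R hd), ?_⟩
    rw [hF, map_add]
    congr 1
    simp only [gP, map_sum, mc_monomial, e]
    rw [sum_eq_single i]
    · simp [X_pow_eq_monomial]
    · intro b _ hb; simp [hb]
    · intro hb; exact absurd (mem_range.2 (by omega)) hb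
  · obtain ⟨y₀, s1, s2⟩ := LS_surj hu (X ^ (2 * (ν * a))) 0
    rw [sub_zero] at s2
    set D₀ := LS a ν y₀ with hD₀
    have z0 : dz D₀ ≤ 2 * a - 1 := dz_LS ha y₀
    have n0 : D₀.natDegree ≤ 2 * ν := natDegree_LS ha y₀
    have s3 : X ^ (2 * (ν * a)) ∣ D₀.eval (fx (ν * a) x) := by
      simpa using dvd_add ((pow_dvd_pow _ (Nat.le_succ _)).trans s1) dvd_rfl
    obtain ⟨δ₀, h₀, e1, e2⟩ := tang D₀ (by omega) (by omega) s3 s2 0 (by simp) (by simp; omega)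
    rw [add_zero] at e1
    refine ⟨δ₀, h₀, fun hc => ?_, fun U u1 u2 => ?_⟩
    · rw [e1] at hc
      have h1 : X ^ (ν * a) ∣ (A0 a ν x y).derivative.eval α := by
        simpa using dvd_add ((pow_dvd_pow _ (Nat.le_succ _)).trans hder) dvd_rfl
      have h2 : X ^ (2 * (ν * a) + 1 + 1) ∣ (A0 a ν x y).derivative.eval α * mc δ₀ α := by
        convert mul_dvd_mul h1 hc using 1; ring
      have h3 : X ^ (2 * (ν * a) + 1) ∣ D₀.eval α := by
        apply X_pow_cancel (k := 1)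
        rw [pow_one]
        exact (dvd_add_left h2).1 ((pow_dvd_pow _ (by omega)).trans e2)
      obtain ⟨k, hk⟩ := D₀.binomExpansion (fx (ν * a) x) (α - fx (ν * a) x)
      rw [add_sub_cancel] at hk
      have h4 : X ^ (2 * (ν * a) + 1) ∣
          D₀.derivative.eval (fx (ν * a) x) * (α - fx (ν * a) x) := by
        convert mul_dvd_mul s2 h.c3 using 1; ring
      have h5 : X ^ (2 * (ν * a) + 1) ∣ k * (α - fx (ν * a) x) ^ 2 := by
        refine Dvd.dvd.mul_left ((pow_dvd_pow _ (by omega : _ ≤ (ν * a + 1) * 2)).trans ?_) _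
        rw [pow_mul]; exact pow_dvd_pow_of_dvd h.c3 2
      have h6 : (X : K[X]) ^ (2 * (ν * a) + 1) ∣ X ^ (2 * (ν * a)) := by
        convert dvd_sub (dvd_sub (dvd_sub h3 h4) h5) s1 using 1
        rw [hk]; ring
      have := natDegree_le_of_dvd h6 (by simp)
      simp at this
    · obtain ⟨δ₁, h₁, e3, e4⟩ := tang (U * D₀) ((dz_mul_le _ _).trans (by omega))
        (natDegree_mul_le.trans (by omega)) (by rw [eval_mul]; exact s3.mul_left _)
        (by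
          rw [derivative_mul, eval_add, eval_mul, eval_mul]
          exact dvd_add (((pow_dvd_pow _ (by omega)).trans s3).mul_left _) (s2.mul_left _))
        0 (by simp) (by simp; omega)
      refine ⟨δ₁, h₁, ?_⟩
      rw [e1, e3, add_zero]
      have h1 : X ^ (L₀ + 1) ∣ mc δ₁ α - U.eval α * mc δ₀ α := by
        refine cancel_unit hder ?_
        convert dvd_sub e4 (e2.mul_left (U.eval α)) using 1
        · ring
        · rw [eval_mul]; ring
      convert dvd_sub ((pow_dvd_pow _ (Nat.le_succ _)).trans h1)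
        ((hFα.trans (sub_dvd_eval_sub F α U)).mul_right (mc δ₀ α)) using 1
      ring
  · simpa using dvd_add ((pow_dvd_pow _ (Nat.le_succ _)).trans hval)
      (dvd_mul_left (X ^ (L₀ + ν * a)) (C (x (3, L₀, 0))))
  · have h1 : X ^ (L₀ + ν * a + 1) ∣ C (x (3, L₀, 0)) * X ^ (L₀ + ν * a) := by
      simpa [hF] using dvd_sub hc hval
    have := X_pow_dvd_iff.1 h1 (L₀ + ν * a) (by omega)
    simp [ht] at this

end Pool.Agent.Lib.MP_a0d2f7_nt
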