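import Pool.Agent.Lib.MP_a0d2f7_nt.Exc

set_option autoImplicit false

namespace Pool.Agent.Lib.MP_a0d2f7_nt

open Polynomial Finset Filter

theorem liou_contra {B P : ℤ[X]} {β κ t q : ℝ} {m m' e₁ e₂ T Λ : ℕ} (hB : Irreducible B)
    (hβ : aeval β B = 0) (q2 : 2 ≤ q) (d1 : B.natDegree ≤ m) (d2 : P.natDegree ≤ m')
    (hV : N1 B ≤ q ^ T) (hW : N1 P ≤ q ^ e₂) (k0 : 0 < κ) (k1 : κ ≤ q ^ e₁)
    (he : aeval β P = κ * t) (t0 : t ≠ 0) (t1 : |t| ≤ q * q⁻¹ ^ Λ) :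
    Λ ≤ e₁ + 1 + e₂ * m + T * m' := by
  have q1 : 1 < q := by linarith
  have := liouville hB hβ (by rw [he]; positivity) d1 d2 hV hW (one_le_pow₀ q1.le)
    (one_le_pow₀ q1.le)
  rw [he, abs_mul, abs_of_pos k0] at this
  have h2 : (1 : ℝ) ≤ q ^ e₁ * (q * q⁻¹ ^ Λ) * (q ^ e₂) ^ m * (q ^ T) ^ m' :=
    this.trans (by gcongr)
  rw [← pow_le_pow_iff_right₀ q1]
  have h3 : q⁻¹ ^ Λ * q ^ Λ = 1 := by rw [← mul_pow, inv_mul_cancel₀ (by positivity), one_pow]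
  have h4 := mul_le_mul_of_nonneg_right h2 (show 0 ≤ q ^ Λ by positivity)
  rw [one_mul] at h4
  refine h4.trans (le_of_eq ?_)
  calc _ = q ^ e₁ * q * (q ^ e₂) ^ m * (q ^ T) ^ m' * (q⁻¹ ^ Λ * q ^ Λ) := by ring
    _ = _ := by rw [h3]; ring

theorem far {ξ β Q r c q H : ℝ} {Λ Z e K : ℕ} (q2 : 2 ≤ q) (Q0 : 0 ≤ Q) (hQ : Q ≤ q ^ 2)
    (h1 : ¬ |Q * β - r - c| ≤ q⁻¹ ^ Λ) (h2 : |Q * ξ - r - c| ≤ q⁻¹ ^ Z) (hZ : Λ + 1 ≤ Z)
    (hH : q ^ e ≤ H) (hK : 48 * (Λ + 3) ≤ e * K) : 1 ≤ |ξ - β| ^ 48 * H ^ K := by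
  have q1 : 1 ≤ q := by linarith
  have z0 : 0 < q⁻¹ := by positivity
  have z1 : q⁻¹ ≤ 1 / 2 := by rw [one_div]; exact inv_anti₀ (by norm_num) q2
  have h3 : |Q * ξ - r - c| ≤ q⁻¹ ^ Λ * q⁻¹ := by
    rw [← pow_succ]; exact h2.trans (pow_le_pow_of_le_one z0.le (by linarith) hZ)
  have h4 : |Q * β - r - c| ≤ |Q * ξ - r - c| + Q * |ξ - β| := by
    have : Q * β - r - c = (Q * ξ - r - c) - Q * (ξ - β) := by ring
    rw [this]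
    refine (abs_sub _ _).trans ?_
    rw [abs_mul, abs_of_nonneg Q0]
  have h5 : q⁻¹ ^ Λ * q⁻¹ ≤ q ^ 2 * |ξ - β| := by
    have : Q * |ξ - β| ≤ q ^ 2 * |ξ - β| := by gcongr
    have : 0 < q⁻¹ ^ Λ := by positivity
    nlinarith
  have h6 : 1 ≤ |ξ - β| * q ^ (Λ + 3) := by
    have := mul_le_mul_of_nonneg_right h5 (show 0 ≤ q ^ (Λ + 1) by positivity)
    rw [← pow_succ, ← mul_pow, inv_mul_cancel₀ (by positivity), one_pow] at this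
    refine this.trans (le_of_eq (by ring))
  calc (1 : ℝ) ≤ (|ξ - β| * q ^ (Λ + 3)) ^ 48 := one_le_pow₀ h6
    _ = |ξ - β| ^ 48 * q ^ (48 * (Λ + 3)) := by ring
    _ ≤ |ξ - β| ^ 48 * q ^ (e * K) := by gcongr
    _ ≤ _ := by rw [pow_mul]; gcongr

theorem aux_far {F : ℚ[X]} {m T : ℕ} (hm : 3 ≤ m) (hT : m + 3 ≤ T)
    (h : Inj F (30 * T) (2 * m) (2000 * m * T)) :
    ∀ᶠ q : ℕ in atTop, ∀ (E Q : ℕ) (ρ : ℤ) (β : ℝ) (B : ℤ[X]), 0 < E → E ≤ q → Q ≤ q ^ 2 →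
      |(ρ : ℝ)| ≤ q ^ 5 → Irreducible B → B.natDegree ≤ m → aeval β B = 0 → N1 B ≤ q ^ T →
      ¬ |Q * β - ρ / E - aeval (q : ℝ)⁻¹ F| ≤ (q : ℝ)⁻¹ ^ (2000 * m * T) := by
  obtain ⟨A, h0, h1, h2, h3⟩ := exists_aux F (M := 30 * T) (m := 2 * m) (L := 60 * m * T)
    (by nlinarith)
  have hp : 1 ≤ 2000 * m * T := by nlinarith
  have h4 : ¬ X ^ (2000 * m * T - 1 + 1) ∣ A.eval F := by
    rw [Nat.sub_add_cancel hp]; exact fun hc => h0 (h A h1 h2 hc)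
  filter_upwards [est_small h3, est_free (μ := 0) (Λ := 2000 * m * T) h4 (by simp) (by omega)
    (by omega), est_model h1 h2, ev_ge 2] with q s1 s2 s3 q2 E Q ρ β B e1 e2 e3 e4 hB d1 hβ hV hc
  obtain ⟨P, κ, k0, k1, p1, p2, p3⟩ := s3 E Q ρ e1 e2 e3 e4
  obtain ⟨z0, z1⟩ := inv_facts (q := q) (by linarith)
  have := liou_contra hB hβ q2 d1 p1 hV p2 k0 k1 (p3 β) (s2 _ hc)
    (s1 _ le_rfl _ (hc.trans (pow_le_pow_of_le_one z0.le z1 (by nlinarith))))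
  have a1 : m * m ≤ m * T := Nat.mul_le_mul_left _ (by omega)
  have a2 : 3 * T ≤ m * T := Nat.mul_le_mul_right _ hm
  have a3 : m * 6 ≤ m * T := Nat.mul_le_mul_left _ (by omega)
  nlinarith

/-- what a good level of the construction provides -/
def Lev (ν s T₀ Z : ℕ) (F : ℚ[X]) (q : ℕ) : Prop :=
  ∀ (ξ : ℝ) (E Q : ℕ) (ρ : ℤ), 0 < E → E ≤ q → 0 < Q → Q ≤ q ^ 2 → |(ρ : ℝ)| ≤ q ^ 5 →
    |Q * ξ - ρ / E - aeval (q : ℝ)⁻¹ F| ≤ (q : ℝ)⁻¹ ^ Z →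
    (∀ (m T : ℕ) (β H : ℝ) (B : ℤ[X]), 3 ≤ m → m ≤ s → m + 3 ≤ T → T ≤ T₀ → Irreducible B →
      B.natDegree ≤ m → aeval β B = 0 → N1 B ≤ q ^ T → N1 B ≤ q * H → (q : ℝ) ^ (T - 2) ≤ H →
      1 ≤ |ξ - β| ^ 48 * H ^ (210001 * m)) ∧
    ∃ P : ℤ[X], P.natDegree ≤ 4 * ν + 3 ∧ 0 < |aeval ξ P| ∧ |aeval ξ P| ≤ (q : ℝ)⁻¹ ∧
      |aeval ξ P| ^ 48 * N1 P ^ (210002 * (4 * ν + 3)) ≤ 1

theorem lev {a ν s T₀ Z : ℕ} {F : ℚ[X]} {A : ℚ[X][X]} (hν : 1000000 ≤ ν)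
    (ha : (4 * ν + 3) ^ 2 ≤ a) (hC : Cond a ν s T₀ F)
    (h1 : dz (A - C (X ^ (4 * a + 2)) * (X ^ (4 * ν + 3) + 2)) ≤ 4 * a + 1)
    (h2 : (A - C (X ^ (4 * a + 2)) * (X ^ (4 * ν + 3) + 2)).natDegree ≤ 4 * ν + 2)
    (h3 : (A.coeff 2).coeff 0 = 1) (h4 : dz A ≤ 4 * a + 2) (h5 : A.natDegree ≤ 4 * ν + 3)
    (h6 : X ^ (70001 * (ν * a)) ∣ A.eval F) (h7 : ¬ X ^ (70001 * (ν * a) + 1) ∣ A.eval F)
    (h8 : X ^ (ν * a) ∣ A.derivative.eval F) (Z1 : 2000 * s * T₀ + 1 ≤ Z)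
    (Z2 : 70001 * (ν * a) + 2 ≤ Z) : ∀ᶠ q in pw, Lev ν s T₀ Z F q := by
  have hA : ∀ᶠ q : ℕ in atTop, ∀ p ∈ range (s + 1) ×ˢ range (T₀ + 1), 3 ≤ p.1 → p.1 + 3 ≤ p.2 →
      ¬ Box a ν p.1 p.2 → ∀ (E Q : ℕ) (ρ : ℤ) (β : ℝ) (B : ℤ[X]), 0 < E → E ≤ q → Q ≤ q ^ 2 →
      |(ρ : ℝ)| ≤ q ^ 5 → Irreducible B → B.natDegree ≤ p.1 → aeval β B = 0 → N1 B ≤ q ^ p.2 →
      ¬ |Q * β - ρ / E - aeval (q : ℝ)⁻¹ F| ≤ (q : ℝ)⁻¹ ^ (2000 * p.1 * p.2) := by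
    rw [eventually_all_finset]
    intro p hp
    by_cases hc : 3 ≤ p.1 ∧ p.1 + 3 ≤ p.2 ∧ ¬ Box a ν p.1 p.2
    · filter_upwards [aux_far hc.1 hc.2.1 (hC p hp ⟨by omega, by omega, hc.2.2⟩)] with q hq _ _ _
      exact hq
    · exact Eventually.of_forall fun q a b c => absurd ⟨a, b, c⟩ hc
  have na : 4000000 * (4 * ν + 3) ≤ a := by nlinarith
  have μa : 1000000 * a ≤ ν * a := Nat.mul_le_mul_right _ hν
  filter_upwards [pw_le hA, pw_le (est_small h6), pw_le (est_free (Λ := 70000 * (ν * a) + 1) h7 h8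
    (by omega) (by omega)), pw_le (est_model h4 h5), est_exc (M := 4 * a + 1) (by omega) h1 h2 h3,
    pw_le (ev_ge 2)] with q s0 s1 s2 s3 s4 q2 ξ E Q ρ e1 e2 Q0 e3 e4 hξ
  obtain ⟨P, κ, k0, k1, p1, p2, p3⟩ := s3 E Q ρ e1 e2 e3 e4
  have q1 : (1 : ℝ) ≤ q := by linarith
  obtain ⟨z0, z1⟩ := inv_facts (q := q) q1
  have hQ' : (Q : ℝ) ≤ q ^ 2 := by exact_mod_cast e3
  refine ⟨fun m T β H B m3 ms mT TT hB d1 hβ n1 n2 hH => ?_, P, p1, ?_⟩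
  · obtain ⟨T', rfl⟩ : ∃ T', T = T' + 2 := ⟨T - 2, by omega⟩
    rw [Nat.add_sub_cancel] at hH
    have a1 : 4 * m ≤ T' * m := Nat.mul_le_mul_right _ (by omega)
    have a2 : T' * 3 ≤ T' * m := Nat.mul_le_mul_left _ m3
    by_cases hb : Box a ν m (T' + 2)
    · obtain ⟨b1, b2, b3, b4⟩ := hb
      by_cases h0 : ev (q : ℝ)⁻¹ (Q * β - ρ / E) A = 0
      · have E1 : (1 : ℝ) ≤ E := by exact_mod_cast e1
        obtain ⟨c1, c2⟩ := s4 Q (ρ / E) β B Q0 e3 (by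
          push_cast
          rw [abs_div, Nat.abs_cast]
          exact (div_le_self (abs_nonneg _) E1).trans e4) hB hβ (by simpa using h0)
        obtain ⟨e, he⟩ : ∃ e, 4 * a = e + 8 * (4 * ν + 3) := ⟨4 * a - 8 * (4 * ν + 3), by omega⟩
        refine far q2 (by positivity) hQ' (Λ := 70000 * (ν * a) + 1) (e := e)
          (fun hc => s2 _ hc h0) hξ (by omega) ?_ ?_
        · have H0 : 0 ≤ (q : ℝ) * H := (N1_nonneg B).trans n2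
          have : (q : ℝ) ^ (4 * a + 1 + 1) ≤ q * (q * H) * q ^ (8 * (4 * ν + 3)) :=
            c2.trans (by gcongr; exact N1_nonneg B)
          rw [he] at this
          refine le_of_mul_le_mul_right (le_trans (le_of_eq ?_) (this.trans (le_of_eq ?_)))
            (show (0 : ℝ) < q ^ (8 * (4 * ν + 3) + 2) by positivity) <;> ring
        · have c3 : e * (210001 * (4 * ν + 3)) ≤ e * (210001 * m) :=
            Nat.mul_le_mul_left _ (by omega)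
          have c4 : 4000000 * (4 * ν + 3) * ν ≤ a * ν := Nat.mul_le_mul_right _ na
          have c5 : 4 * a * ν = (e + 8 * (4 * ν + 3)) * ν := by rw [he]
          nlinarith
      · refine far q2 (by positivity) hQ' (Λ := (4 * a + 2 + 1 + (4 * ν + 3)) + 1 +
          (4 * a + 2 + 1 + 7 * (4 * ν + 3)) * m + (T' + 2) * (4 * ν + 3) + 1) (fun hc => ?_) hξ
          (le_trans ?_ Z2) hH ?_
        · have := liou_contra hB hβ q2 d1 p1 n1 p2 k0 k1 (p3 β) h0 (s1 _ ?_ _ hc)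
          · omega
          · have c1 : (4 * a + 2 + 1 + 7 * (4 * ν + 3)) * m ≤ (5 * a) * (2000 * ν) :=
              Nat.mul_le_mul (by omega) b3.le
            have c2 : (T' + 2) * (4 * ν + 3) ≤ (200 * a) * (5 * ν) :=
              Nat.mul_le_mul b4.le (by omega)
            nlinarith
        · have c1 : (4 * a + 2 + 1 + 7 * (4 * ν + 3)) * m ≤ (5 * a) * (2000 * ν) :=
            Nat.mul_le_mul (by omega) b3.le
          have c2 : (T' + 2) * (4 * ν + 3) ≤ (200 * a) * (5 * ν) :=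
            Nat.mul_le_mul b4.le (by omega)
          nlinarith
        · have c1 : (4 * a + 2 + 1 + 7 * (4 * ν + 3)) * m ≤ (225 * T') * m :=
            Nat.mul_le_mul_right _ (by omega)
          have c2 : (T' + 2) * (4 * ν + 3) ≤ (2 * T') * (9 * m) :=
            Nat.mul_le_mul (by omega) (by omega)
          have c3 : 5 * a ≤ 225 * T' := by omega
          nlinarith
    · refine far q2 (by positivity) hQ' (s0 (m, T' + 2) (by simp; omega) m3 mT hb E Q ρ β B e1 e2 e3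
        e4 hB d1 hβ n1) hξ (le_trans ?_ Z1) hH ?_
      · exact Nat.succ_le_succ (Nat.mul_le_mul (by omega) TT)
      · nlinarith
  · have t0 := s2 _ (hξ.trans (pow_le_pow_of_le_one z0.le z1 (by omega)))
    have t1 := s1 _ le_rfl _ (hξ.trans (pow_le_pow_of_le_one z0.le z1 (by omega)))
    obtain ⟨e, he⟩ : ∃ e, 70001 * (ν * a) = e + (4 * a + 2 + 1 + (4 * ν + 3) + 1) :=
      ⟨70001 * (ν * a) - (4 * a + 2 + 1 + (4 * ν + 3) + 1), by omega⟩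
    have t2 : |aeval ξ P| ≤ (q : ℝ)⁻¹ ^ e := by
      rw [p3, abs_mul, abs_of_pos k0]
      refine (mul_le_mul k1 t1 (abs_nonneg _) (by positivity)).trans (le_of_eq ?_)
      rw [he, pow_add (q : ℝ)⁻¹]
      calc _ = (q : ℝ)⁻¹ ^ e * ((q : ℝ)⁻¹ * q) ^ (4 * a + 2 + 1 + (4 * ν + 3) + 1) := by ring
        _ = _ := by rw [inv_mul_cancel₀ (by positivity)]; simp
    refine ⟨by rw [p3]; positivity, t2.trans (pow_le_of_le_one z0.le z1 (by omega)), ?_⟩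
    have t3 : (4 * a + 2 + 1 + 7 * (4 * ν + 3)) * (210002 * (4 * ν + 3)) ≤ e * 48 := by
      nlinarith
    have n0 := N1_nonneg P
    calc _ ≤ ((q : ℝ)⁻¹ ^ e) ^ 48 *
          ((q : ℝ) ^ (4 * a + 2 + 1 + 7 * (4 * ν + 3))) ^ (210002 * (4 * ν + 3)) := by gcongr
      _ ≤ ((q : ℝ)⁻¹ ^ e) ^ 48 * (q : ℝ) ^ (e * 48) := by rw [← pow_mul (q : ℝ)]; gcongr
      _ = 1 := by rw [← pow_mul, ← mul_pow, inv_mul_cancel₀ (by positivity), one_pow]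

end Pool.Agent.Lib.MP_a0d2f7_nt
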