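import Pool.Agent.Lib.MP_a0d2f7_nt.Lev

set_option autoImplicit false

namespace Pool.Agent.Lib.MP_a0d2f7_nt

open Polynomial Finset Filter

/-- a quarter of the degree used at stage `s` -/
def nu (s : ℕ) : ℕ := 1000000 + (Nat.unpair s).1

/-- a quarter of the logarithmic height used at stage `s` -/
def aa (s : ℕ) : ℕ := 16 * (1000001 + s) ^ 2

/-- ratio of consecutive levels at stage `s` -/
def dd' (s : ℕ) : ℕ := 6 * (s + 1) * (70000 * (nu s * aa s))

theorem nu_ge (s : ℕ) : 1000000 ≤ nu s := Nat.le_add_right _ _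

theorem aa_ge (s : ℕ) : (4 * nu s + 3) ^ 2 ≤ aa s := by
  have := Nat.unpair_left_le s
  have h : 4 * nu s + 3 ≤ 4 * (1000001 + s) := by rw [nu]; omega
  calc _ ≤ (4 * (1000001 + s)) ^ 2 := Nat.pow_le_pow_left h 2
    _ = _ := by rw [aa]; ring

theorem mu_ge {s s' : ℕ} (h : s ≤ s') : 2000 * (s + 4) ^ 2 ≤ nu s' * aa s' := by
  refine Nat.mul_le_mul ((by norm_num : 2000 ≤ 1000000).trans (nu_ge _)) ?_
  have : (s + 4) ^ 2 ≤ (1000001 + s') ^ 2 := Nat.pow_le_pow_left (by omega) 2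
  rw [aa]; omega

theorem dd_ge (s : ℕ) : 6 * (70000 * (nu s * aa s)) ≤ dd' s :=
  Nat.mul_le_mul_right _ (by omega)

theorem stages : ∃ (R : ℕ → ℚ[X]) (f : ℕ → ℕ → ℚ), ∀ s, (R s).natDegree < dd' s ∧
    X ^ (nu s * aa s + 1) ∣ R s - fP (nu s * aa s) (f s) ∧ ∀ s', (s' = s ∨ s' = s + 1) →
    ∀ᶠ q in pw, Lev (nu s) s (dd' s * (s + 3) + 1) (dd' s * (nu s' * aa s' + 1))
      (R s + gP (dd' s) (nu s' * aa s') (f s')) q := by
  have a1 : ∀ s, 1 ≤ aa s := fun s => le_trans (Nat.one_le_pow _ _ (by omega)) (aa_ge s)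
  have m1 : ∀ s, 1 ≤ nu s * aa s := fun s => Nat.mul_pos (by have := nu_ge s; omega) (a1 s)
  have hT : ∀ s s', s ≤ s' → 2000 * (s + 1) * (dd' s * (s + 3) + 1) ≤ dd' s * (nu s' * aa s') := by
    intro s s' h
    have h1 := Nat.mul_le_mul_left (dd' s) (mu_ge h)
    have h2 := dd_ge s
    have h3 := m1 s
    have h4 : (s + 1) * 1 ≤ (s + 1) * dd' s := Nat.mul_le_mul_left _ (by omega)
    nlinarith
  have hT' : ∀ s s', s ≤ s' → 60 * (dd' s * (s + 3) + 1) ≤ dd' s * (nu s' * aa s') :=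
    fun s s' h => le_trans (Nat.mul_le_mul_right _ (by omega)) (hT s s' h)
  choose Ψ h0 hΨ using fun s => spec (a := aa s) (ν := nu s) (d := dd' s) (s := s)
    (T₀ := dd' s * (s + 3) + 1) (μ₂ := nu (s + 1) * aa (s + 1)) (a1 s)
    (by have := nu_ge s; omega) le_rfl (hT' s s le_rfl) (hT' s (s + 1) (by omega))
  obtain ⟨x, hx⟩ := exists_seq Ψ h0
  choose y α hD ht c1 c2 using fun s => hΨ s _ (hx s)
  simp only [Sum.elim_inl, Sum.elim_inr] at hD ht c1 c2
  refine ⟨fun s => α s + tP (70000 * (nu s * aa s)) (dd' s) (x s), fun s i => x s (0, i, 0),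
    fun s => ?_⟩
  have d1 := dd_ge s
  have d2 := m1 s
  have hd : 70000 * (nu s * aa s) < dd' s := by omega
  refine ⟨(hD s).natDegree_R hd, ?_, fun s' hs' => ?_⟩
  · rw [add_sub_right_comm]
    exact dvd_add (hD s).c3 ((pow_dvd_pow _ (by omega)).trans (dvd_tP _ _ _))
  · have hval := (hD s).val (by omega) (F_sub hd (nu s' * aa s') (α s) (x s) fun i => x s' (0, i, 0))
    have hder := (hD s).deriv ((pow_dvd_pow _ (by omega)).trans
      (F_sub' hd (nu s' * aa s') (α s) (x s) fun i => x s' (0, i, 0)))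
    rw [show 70000 * (nu s * aa s) + nu s * aa s = 70001 * (nu s * aa s) by ring] at hval
    refine lev (nu_ge s) (aa_ge s) ?_ (dz_A0_sub (a1 s) (x s) (y s))
      (natDegree_A0_sub (a1 s) _ _) (coeff_A0_two _ _ _ _) (dz_A0 (a1 s) _ _)
      (natDegree_A0 (a1 s) _ _) ?_ (fun hc => ?_) ?_ ?_ ?_
    · rcases hs' with rfl | rfl
      · exact c1 _
      · exact c2 _
    · simpa using dvd_add ((pow_dvd_pow _ (Nat.le_succ _)).trans hval)
        (dvd_mul_left (X ^ (70001 * (nu s * aa s))) (C (x s (3, 70000 * (nu s * aa s), 0))))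
    · have h1 : X ^ (70001 * (nu s * aa s) + 1) ∣
          C (x s (3, 70000 * (nu s * aa s), 0)) * X ^ (70001 * (nu s * aa s)) := by
        simpa using dvd_sub hc hval
      have := X_pow_dvd_iff.1 h1 (70001 * (nu s * aa s)) (by omega)
      simp [ht] at this
    · simpa using dvd_add ((pow_dvd_pow _ (Nat.le_succ _)).trans hder) dvd_rfl
    · have := hT s s' (by omega)
      nlinarith
    · have := Nat.le_mul_of_pos_right (dd' s) (show 0 < nu s' * aa s' + 1 by omega)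
      omega

theorem exists_levels (Good : ℕ → ℕ → Prop) (d : ℕ → ℕ) (hd : ∀ s, 2 ≤ d s)
    (h : ∀ s, ∀ᶠ q in pw, Good s q) :
    ∃ st q : ℕ → ℕ, (∀ k, Good (st k) (q k)) ∧ (∀ k, q (k + 1) = q k ^ d (st k)) ∧
      (∀ k, st (k + 1) = st k ∨ st (k + 1) = st k + 1) ∧ ∀ s, ∃ k, st k = s := by
  simp only [pw, eventually_map, eventually_atTop] at h
  choose K hK using h
  let u : ℕ → ℕ × ℕ := fun k => Nat.rec (0, K 0 + 1)
    (fun _ p => (if K (p.1 + 1) ≤ p.2 * d p.1 then p.1 + 1 else p.1, p.2 * d p.1)) k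
  have e1 : ∀ k, (u (k + 1)).1 = if K ((u k).1 + 1) ≤ (u k).2 * d (u k).1 then (u k).1 + 1
    else (u k).1 := fun k => rfl
  have e2 : ∀ k, (u (k + 1)).2 = (u k).2 * d (u k).1 := fun k => rfl
  have h1 : ∀ k, K (u k).1 ≤ (u k).2 ∧ k < (u k).2 := by
    intro k
    induction k with
    | zero => exact ⟨Nat.le_succ _, Nat.succ_pos _⟩
    | succ k ih =>
      have := Nat.mul_le_mul_left (u k).2 (hd (u k).1)
      rw [e1, e2]
      split_ifs <;> omega
  have h2 : ∀ k, (u (k + 1)).1 = (u k).1 ∨ (u (k + 1)).1 = (u k).1 + 1 := by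
    intro k; rw [e1]; split_ifs <;> simp
  refine ⟨fun k => (u k).1, fun k => 2 ^ (u k).2, fun k => hK _ _ (h1 k).1,
    fun k => by simp only [e2, pow_mul], h2, fun s => ?_⟩
  induction s with
  | zero => exact ⟨0, rfl⟩
  | succ s ih =>
    obtain ⟨k, hk⟩ := ih
    by_contra hc
    have h3 : ∀ j, (u (k + j)).1 = s := by
      intro j
      induction j with
      | zero => exact hk
      | succ j ih =>
        rcases h2 (k + j) with h | h
        · exact h.trans ih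
        · exact absurd ⟨k + j + 1, by simp only [h, ih]⟩ hc
    have h4 := h3 (K (s + 1) + 1)
    have h5 := (h1 (k + K (s + 1) + 1)).2
    rw [← add_assoc, e1, ← e2, h3, if_pos (by omega)] at h4
    omega

/-- all estimates needed at a level -/
def Good (R : ℕ → ℚ[X]) (f : ℕ → ℕ → ℚ) (s q : ℕ) : Prop :=
  s + 2 ≤ q ∧ (|aeval (q : ℝ)⁻¹ (R s)| + 1) ^ 2 ≤ q ∧
    |aeval (q : ℝ)⁻¹ (R s) - aeval (q : ℝ)⁻¹ (fP (nu s * aa s) (f s))| ≤
      (q : ℝ)⁻¹ ^ (nu s * aa s) / 2 ∧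
    (∃ (b : ℕ) (c : ℤ), 0 < b ∧ b ≤ q ∧ (c : ℝ) = b * q ^ dd' s * aeval (q : ℝ)⁻¹ (R s)) ∧
    ∀ s', (s' = s ∨ s' = s + 1) →
      Lev (nu s) s (dd' s * (s + 3) + 1) (dd' s * (nu s' * aa s' + 1))
        (R s + gP (dd' s) (nu s' * aa s') (f s')) q

theorem good : ∃ (R : ℕ → ℚ[X]) (f : ℕ → ℕ → ℚ), ∀ s, ∀ᶠ q in pw, Good R f s q := by
  obtain ⟨R, f, h⟩ := stages
  refine ⟨R, f, fun s => ?_⟩
  obtain ⟨h1, ⟨U, hU⟩, h3⟩ := h s
  obtain ⟨c₁, p₁, b₁⟩ := bdd1 (R s)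
  obtain ⟨c₂, p₂, b₂⟩ := bdd1 U
  obtain ⟨b, hb, hc⟩ := int_coeffs (C (R s))
  choose c hc using fun i => hc i 0
  simp only [coeff_C_zero] at hc
  filter_upwards [pw_le (eventually_ge_atTop (s + 2)), pw_le (ev_ge ((c₁ + 1) ^ 2)),
    pw_le (ev_ge (2 * c₂)), pw_le (eventually_ge_atTop b), h3 s (Or.inl rfl),
    h3 (s + 1) (Or.inr rfl)] with q g1 g2 g3 g4 g5 g6
  have q1 : (1 : ℝ) ≤ q := by exact_mod_cast (by omega : 1 ≤ q)
  obtain ⟨z0, z1⟩ := inv_facts q1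
  have za : |(q : ℝ)⁻¹| ≤ 1 := by rwa [abs_of_pos z0]
  refine ⟨g1, le_trans (by have := b₁ _ za; gcongr) g2, ?_,
    ⟨b, ∑ i ∈ range (dd' s + 1), c i * q ^ (dd' s - i), hb, g4, ?_⟩, ?_⟩
  · rw [← map_sub, hU, map_mul, map_pow, aeval_X, abs_mul, abs_pow, abs_of_pos z0, pow_succ,
      mul_assoc, div_eq_mul_inv]
    refine mul_le_mul_of_nonneg_left ?_ (by positivity)
    rw [inv_mul_le_iff₀ (by positivity)]
    have := b₂ _ za
    linarith
  · have := clear h1.le hc (q := q) (by have : 0 < q := by omega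
                                        positivity)
    rw [aeval_inv]
    exact_mod_cast this
  · rintro s' (rfl | rfl)
    · exact g5
    · exact g6

theorem aeval_gP (z : ℝ) (d μ : ℕ) (f : ℕ → ℚ) :
    aeval z (gP d μ f) = z ^ d * aeval (z ^ d) (fP μ f) := by
  simp only [gP, fP, map_sum, aeval_monomial, mul_sum]
  refine sum_congr rfl fun i _ => by ring

theorem exists_xi : ∃ ξ : ℝ,
    (∀ m, 3 ≤ m → ∃ H₀ : ℕ, ∀ (H : ℕ) (β : ℝ) (B : ℤ[X]), H₀ ≤ H → Irreducible B →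
      B.natDegree ≤ m → aeval β B = 0 → N1 B ≤ (m + 1) * H →
      1 ≤ |ξ - β| ^ 48 * (H : ℝ) ^ (210001 * m)) ∧
    ∀ ν, 1000000 ≤ ν → ∀ j : ℕ, ∃ P : ℤ[X], P.natDegree ≤ 4 * ν + 3 ∧ 0 < |aeval ξ P| ∧
      |aeval ξ P| ≤ ((j : ℝ) + 1)⁻¹ ∧ |aeval ξ P| ^ 48 * N1 P ^ (210002 * (4 * ν + 3)) ≤ 1 := by
  obtain ⟨R, f, hG⟩ := good
  have m1 : ∀ s, 1 ≤ nu s * aa s := fun s => Nat.mul_pos (by have := nu_ge s; omega)
    (le_trans (Nat.one_le_pow _ _ (by omega)) (aa_ge s))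
  have hd : ∀ s, 2 * (nu s * aa s) + 2 ≤ dd' s := fun s => by
    have := dd_ge s; have := m1 s; omega
  obtain ⟨st, q, hg, hq, hs, hall⟩ := exists_levels (Good R f) dd'
    (fun s => by have := hd s; omega) hG
  have q2 : ∀ k, 2 ≤ q k := fun k => by have := (hg k).1; omega
  have q2' : ∀ k, (2 : ℝ) ≤ q k := fun k => by exact_mod_cast q2 k
  have q0 : ∀ k, (0 : ℝ) < q k := fun k => by linarith [q2' k]
  have qq : ∀ k, q k ^ 2 ≤ q (k + 1) := fun k => by
    rw [hq]; exact Nat.pow_le_pow_right (by have := q2 k; omega) (by have := hd (st k); omega)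
  have qm : StrictMono q := strictMono_nat_of_lt_succ fun k => by
    have := qq k; have := q2 k; nlinarith
  obtain ⟨c, ec⟩ : ∃ c : ℕ → ℝ, ∀ k, c k = aeval (q k : ℝ)⁻¹ (R (st k)) := ⟨_, fun _ => rfl⟩
  obtain ⟨Q, Q0, eQ⟩ : ∃ Q : ℕ → ℕ, Q 0 = 1 ∧ ∀ k, Q (k + 1) = Q k * q (k + 1) :=
    ⟨fun k => Nat.rec 1 (fun k p => p * q (k + 1)) k, rfl, fun _ => rfl⟩
  obtain ⟨r, r0, er⟩ : ∃ r : ℕ → ℝ, r 0 = 0 ∧ ∀ k, r (k + 1) = (r k + c k) * q (k + 1) :=
    ⟨fun k => Nat.rec 0 (fun k p => (p + c k) * q (k + 1)) k, rfl, fun _ => rfl⟩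
  have hQ : ∀ k, 0 < Q k ∧ Q k ≤ q k ^ 2 := by
    intro k
    induction k with
    | zero => rw [Q0]; exact ⟨one_pos, Nat.one_le_pow _ _ (by have := q2 0; omega)⟩
    | succ k ih =>
      have := q2 (k + 1)
      rw [eQ]
      exact ⟨Nat.mul_pos ih.1 (by omega), by
        rw [sq]; exact Nat.mul_le_mul_right _ (ih.2.trans (qq k))⟩
  have rel : ∀ (x : ℝ) (k : ℕ),
      Q (k + 1) * x - r (k + 1) = q (k + 1) * (Q k * x - r k - c k) := by
    intro x k; rw [eQ, er]; push_cast; ring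
  have cb : ∀ (x : ℝ) (k : ℕ), |Q k * x - r k - c k| ≤ 1 → |Q k * x - r k| ^ 2 ≤ q k := by
    intro x k h
    refine le_trans (pow_le_pow_left₀ (abs_nonneg _) ?_ 2) (hg k).2.1
    have := abs_add_le (Q k * x - r k - c k) (c k)
    rw [sub_add_cancel] at this
    rw [← ec]
    linarith
  have cb' : ∀ (x : ℝ) (k : ℕ), |Q k * x - r k - c k| ≤ 1 → |Q k * x - r k| ≤ q k := by
    intro x k h
    have := cb x k h
    have := q2' k
    nlinarith [abs_nonneg (Q k * x - r k)]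
  obtain ⟨ξ, hξ⟩ := IsCompact.nonempty_iInter_of_sequence_nonempty_isCompact_isClosed
    (fun k => {x : ℝ | |Q k * x - r k - c k| ≤ 1}) (fun k x hx => by
      have := cb' x (k + 1) hx
      rw [rel, abs_mul, abs_of_pos (q0 _)] at this
      exact le_of_mul_le_mul_left (by rwa [mul_one]) (q0 (k + 1)))
    (fun k => ⟨(r k + c k) / Q k, by
      have : (Q k : ℝ) ≠ 0 := by have := (hQ k).1; positivity
      simp [mul_div_cancel₀ _ this]⟩)
    (by
      have : {x : ℝ | |Q 0 * x - r 0 - c 0| ≤ 1} = Set.Icc (c 0 - 1) (c 0 + 1) := by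
        ext x
        simp only [Q0, r0, Nat.cast_one, one_mul, sub_zero, Set.mem_ofPred_eq, abs_le,
          Set.mem_Icc]
        constructor <;> rintro ⟨h1, h2⟩ <;> constructor <;> linarith
      rw [this]; exact isCompact_Icc)
    (fun k => isClosed_le (by fun_prop) continuous_const)
  simp only [Set.mem_iInter, Set.mem_ofPred_eq] at hξ
  have hE : ∀ k, ∃ (E : ℕ) (ρ : ℤ), 0 < E ∧ E ≤ q k ∧ r k = ρ / E := by
    intro k
    induction k with
    | zero => exact ⟨1, 0, one_pos, by have := q2 0; omega, by simp [r0]⟩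
    | succ k ih =>
      obtain ⟨E, ρ, e1, e2, e3⟩ := ih
      obtain ⟨b, c', b1, b2, b3⟩ := (hg k).2.2.2.1
      refine ⟨E * b, ρ * b * q (k + 1) + E * c', Nat.mul_pos e1 b1,
        le_trans (by rw [sq]; exact Nat.mul_le_mul e2 b2) (qq k), ?_⟩
      rw [er, e3, hq, ec]; push_cast; rw [b3]
      field_simp
  have acc : ∀ k, |Q k * ξ - r k - aeval (q k : ℝ)⁻¹ (R (st k) + gP (dd' (st k))
      (nu (st (k + 1)) * aa (st (k + 1))) (f (st (k + 1))))| ≤
      (q k : ℝ)⁻¹ ^ (dd' (st k) * (nu (st (k + 1)) * aa (st (k + 1)) + 1)) := by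
    intro k
    have ez : (q k : ℝ)⁻¹ ^ dd' (st k) = (q (k + 1) : ℝ)⁻¹ := by rw [hq]; simp
    rw [map_add, aeval_gP, pow_mul, ez]
    set μ := nu (st (k + 1)) * aa (st (k + 1))
    have h1 := (hg (k + 1)).2.2.1
    have h2 : |Q (k + 1) * ξ - r (k + 1) - c (k + 1)| ≤ (q (k + 1) : ℝ)⁻¹ ^ μ / 2 := by
      have h3 := cb ξ (k + 2) (hξ _)
      rw [rel, abs_mul, abs_of_pos (q0 _)] at h3
      have h4 : ((q (k + 1) : ℝ) ^ (μ + 1)) ^ 2 ≤ q (k + 2) := by
        rw [hq (k + 1), ← pow_mul]; push_cast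
        exact pow_le_pow_right₀ (by linarith [q2' (k + 1)]) (by have := hd (st (k + 1)); omega)
      set t := |Q (k + 1) * ξ - r (k + 1) - c (k + 1)|
      have t0 : 0 ≤ t := abs_nonneg _
      have h5 : (t * (q (k + 1) : ℝ) ^ (μ + 1)) ^ 2 ≤ 1 := by
        have h6 : t ^ 2 * q (k + 2) ≤ 1 :=
          le_of_mul_le_mul_left (by linarith) (q0 (k + 2))
        rw [mul_pow]
        exact le_trans (by gcongr) h6
      have h7 : t * (q (k + 1) : ℝ) ^ (μ + 1) ≤ 1 := by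
        rwa [sq_le_one_iff₀ (by have := q0 (k + 1); positivity)] at h5
      rw [inv_pow, le_div_iff₀ two_pos, ← one_div, le_div_iff₀ (pow_pos (q0 _) _)]
      refine le_trans ?_ h7
      rw [pow_succ, mul_assoc, mul_comm 2]
      have := q0 (k + 1)
      gcongr; exact q2' _
    have h3 : Q k * ξ - r k - (aeval (q k : ℝ)⁻¹ (R (st k)) + (q (k + 1) : ℝ)⁻¹ *
        aeval (q (k + 1) : ℝ)⁻¹ (fP μ (f (st (k + 1))))) = (q (k + 1) : ℝ)⁻¹ *
        ((Q (k + 1) * ξ - r (k + 1) - c (k + 1)) + (aeval (q (k + 1) : ℝ)⁻¹ (R (st (k + 1))) -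
          aeval (q (k + 1) : ℝ)⁻¹ (fP μ (f (st (k + 1)))))) := by
      rw [rel]
      have := (q0 (k + 1)).ne'
      simp only [ec]
      field_simp
      ring
    rw [h3, abs_mul, abs_of_pos (inv_pos.2 (q0 _)), pow_succ']
    refine mul_le_mul_of_nonneg_left ((abs_add_le _ _).trans ?_) (inv_pos.2 (q0 _)).le
    linarith
  have key := fun k => by
    refine (hE k).elim fun E h => h.elim fun ρ h => (hg k).2.2.2.2 (st (k + 1)) (hs k) ξ E (Q k) ρ
      h.1 h.2.1 (hQ k).1 (hQ k).2 ?_ (by rw [← h.2.2]; exact acc k)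
    have E0 : (0 : ℝ) < E := by exact_mod_cast h.1
    have h1 : (ρ : ℝ) = E * (Q k * ξ - (Q k * ξ - r k)) := by rw [h.2.2]; field_simp; ring
    have h2 : |ξ| ≤ q k := by
      have := cb' ξ 0 (hξ 0)
      simp only [Q0, r0, Nat.cast_one, one_mul, sub_zero] at this
      exact this.trans (by exact_mod_cast qm.monotone (Nat.zero_le k))
    have h3 := cb' ξ k (hξ k)
    have h4 : (Q k : ℝ) ≤ q k ^ 2 := by exact_mod_cast (hQ k).2
    have h5 : (E : ℝ) ≤ q k := by exact_mod_cast h.2.1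
    have h6 := q2' k
    rw [h1, abs_mul, abs_of_pos E0]
    calc _ ≤ (q k : ℝ) * (q k ^ 2 * q k + q k) := by
          gcongr
          refine (abs_sub _ _).trans (add_le_add ?_ h3)
          rw [abs_mul, Nat.abs_cast]; gcongr
      _ ≤ _ := by
          have : (q k : ℝ) ^ 2 ≤ q k ^ 4 := pow_le_pow_right₀ (by linarith) (by norm_num)
          have : (0 : ℝ) ≤ q k ^ 4 := by positivity
          nlinarith
  have sm : Monotone st := monotone_nat_of_le_succ fun k => by have := hs k; omega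
  refine ⟨ξ, fun m hm => ?_, fun ν hν j => ?_⟩
  · obtain ⟨k₀, hk₀⟩ := hall m
    refine ⟨q k₀ ^ (m + 3), fun H β B hH hB d1 hβ hN => ?_⟩
    have ex : ∃ j, H < q (k₀ + j + 1) ^ (m + 3) :=
      ⟨H, lt_of_lt_of_le (lt_of_lt_of_le (by omega) (qm.le_apply (x := k₀ + H + 1)))
        (Nat.le_self_pow (by omega) _)⟩
    obtain ⟨k, k1, k2, k3⟩ : ∃ k, k₀ ≤ k ∧ q k ^ (m + 3) ≤ H ∧ H < q (k + 1) ^ (m + 3) := by
      refine ⟨k₀ + Nat.find ex, by omega, ?_, Nat.find_spec ex⟩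
      rcases h : Nat.find ex with _ | j
      · exact hH
      · exact not_lt.1 (Nat.find_min ex (m := j) (by omega))
    have ms : m ≤ st k := hk₀ ▸ sm k1
    have mq : m + 1 ≤ q k := by have := (hg k).1; omega
    have qk := q2 k
    have ex2 : (m + 1) * H ≤ q k ^ (dd' (st k) * (st k + 3) + 1) := by
      rw [pow_succ']
      refine Nat.mul_le_mul mq (k3.le.trans ?_)
      rw [hq, ← pow_mul]
      exact Nat.pow_le_pow_right (by omega) (Nat.mul_le_mul_left _ (by omega))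
    have ex3 : ∃ T, (m + 1) * H ≤ q k ^ T := ⟨_, ex2⟩
    have t1 := Nat.find_spec ex3
    have t2 : m + 3 ≤ Nat.find ex3 := by
      rw [← Nat.pow_le_pow_iff_right (show 1 < q k by omega)]
      exact k2.trans (le_trans (Nat.le_mul_of_pos_left _ (by omega)) t1)
    have t3 := Nat.find_min ex3 (m := Nat.find ex3 - 2 + 1) (by omega)
    refine (key k).1 m (Nat.find ex3) β H B hm ms t2 (Nat.find_min' ex3 ex2) hB d1 hβ
      (hN.trans (by exact_mod_cast t1)) (hN.trans ?_) ?_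
    · have : ((m : ℝ) + 1) ≤ q k := by exact_mod_cast mq
      gcongr
    · have : q k ^ (Nat.find ex3 - 2) ≤ H := by
        rw [not_le, pow_succ'] at t3
        exact Nat.le_of_mul_le_mul_left (t3.le.trans (Nat.mul_le_mul_right _ mq)) (by omega)
      exact_mod_cast this
  · obtain ⟨k, hk⟩ := hall (Nat.pair (ν - 1000000) j)
    obtain ⟨P, p1, p2, p3, p4⟩ := (key k).2
    have e : nu (st k) = ν := by rw [hk, nu, Nat.unpair_pair]; omega
    rw [e] at p1 p4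
    refine ⟨P, p1, p2, p3.trans (inv_anti₀ (by positivity) ?_), p4⟩
    have := (hg k).1
    have := Nat.right_le_pair (ν - 1000000) j
    exact_mod_cast (by omega : j + 1 ≤ q k)

end Pool.Agent.Lib.MP_a0d2f7_nt
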