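import Pool.Agent.Lib.MP_a0d2f7_nt.Levels

set_option autoImplicit false

namespace Pool.Agent.Lib.MP_a0d2f7_nt

open Polynomial Finset Filter

theorem coeff_le_ht (P : ℤ[X]) (i : ℕ) :
    (P.coeff i).natAbs ≤ P.support.sup fun i => (P.coeff i).natAbs := by
  by_cases h : i ∈ P.support
  · exact le_sup (f := fun i => (P.coeff i).natAbs) h
  · simp [notMem_support_iff.1 h]

theorem norm_natAbs (a : ℤ) : ‖a‖ = (a.natAbs : ℝ) := by simp [Int.norm_eq_abs]

theorem ht_le_N1 (P : ℤ[X]) : ((P.support.sup fun i => (P.coeff i).natAbs : ℕ) : ℝ) ≤ N1 P := by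
  rw [← Nat.le_floor_iff (N1_nonneg P)]
  refine Finset.sup_le fun i _ => ?_
  rw [Nat.le_floor_iff (N1_nonneg P), ← norm_natAbs]
  exact coeff_le_N1 P i

theorem N1_le_ht {P : ℤ[X]} {m : ℕ} (h : P.natDegree ≤ m) :
    N1 P ≤ (m + 1) * ((P.support.sup fun i => (P.coeff i).natAbs : ℕ) : ℝ) := by
  rw [N1_eq P (Nat.lt_succ_of_le h)]
  refine (sum_le_card_nsmul _ _ ((P.support.sup fun i => (P.coeff i).natAbs : ℕ) : ℝ)
    fun i _ => ?_).trans (by simp)
  rw [norm_natAbs]; exact_mod_cast coeff_le_ht P i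

theorem ht_pos {P : ℤ[X]} (h : P ≠ 0) : 1 ≤ P.support.sup fun i => (P.coeff i).natAbs :=
  le_trans (Int.natAbs_pos.2 (leadingCoeff_ne_zero.2 h)) (coeff_le_ht P P.natDegree)

theorem main : ∃ ξ : ℝ,
    (∀ m : ℕ, 3 ≤ m → ∀ w : ℝ, Set.Infinite {α : ℝ | ∃ P : ℤ[X], Irreducible P ∧ P.natDegree ≤ m ∧
      aeval α P = 0 ∧ 0 < |ξ - α| ∧
      |ξ - α| ≤ ((P.support.sup (fun i => (P.coeff i).natAbs) : ℕ) : ℝ) ^ (-w - 1)} →
      w ≤ 210001 / 48 * m) ∧
    ∀ ν : ℕ, 1000000 ≤ ν → Set.Infinite {P : ℤ[X] | P.natDegree ≤ 4 * ν + 3 ∧ 0 < |aeval ξ P| ∧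
      |aeval ξ P| ≤ ((P.support.sup (fun i => (P.coeff i).natAbs) : ℕ) : ℝ) ^
        (-(210002 / 48 * ((4 * ν + 3 : ℕ) : ℝ)))} := by
  obtain ⟨ξ, h1, h2⟩ := exists_xi
  refine ⟨ξ, fun m hm w hw => ?_, fun ν hν hf => ?_⟩
  · obtain ⟨H₀, h⟩ := h1 m hm
    by_contra hc
    refine hw ((bUnion_roots_finite (algebraMap ℤ ℝ) m
      (Set.finite_Icc (-(H₀ + 2 : ℕ) : ℤ) (H₀ + 2 : ℕ))).subset ?_)
    rintro α ⟨P, p1, p2, p3, -, p5⟩
    set H := P.support.sup fun i => (P.coeff i).natAbs with hH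
    have hlt : H < H₀ + 2 := by
      by_contra hge
      have h3 := h H α P (by omega) p1 p2 p3 (N1_le_ht p2)
      have H1 : (1 : ℝ) < H := by exact_mod_cast (by omega : 1 < H)
      have h4 : |ξ - α| ^ 48 * (H : ℝ) ^ (210001 * m) ≤
          (H : ℝ) ^ ((-w - 1) * (48 : ℕ) + (210001 * m : ℕ)) := by
        rw [Real.rpow_add (by linarith), Real.rpow_mul_natCast (by linarith), Real.rpow_natCast]
        gcongr
      have h5 := Real.rpow_lt_one_of_one_lt_of_neg H1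
        (show (-w - 1) * (48 : ℕ) + (210001 * m : ℕ) < 0 by push_cast; linarith)
      linarith
    simp only [Set.mem_iUnion, mem_coe, Multiset.mem_toFinset]
    refine ⟨P, ⟨p2, fun i => ?_⟩, ?_⟩
    · have := coeff_le_ht P i
      rw [Set.mem_Icc]; omega
    · rw [mem_roots (by
        rw [Ne, Polynomial.map_eq_zero_iff (FaithfulSMul.algebraMap_injective ℤ ℝ)]
        exact p1.ne_zero), IsRoot, eval_map_algebraMap, p3]
  · have : ∀ᶠ j : ℕ in atTop, ∀ P ∈ _, ((j : ℝ) + 1)⁻¹ < |aeval ξ P| :=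
      (eventually_all_finite hf).2 fun P hP => by
        have := tendsto_one_div_add_atTop_nhds_zero_nat (𝕜 := ℝ)
        simpa using this.eventually_lt_const hP.2.1
    obtain ⟨j, hj⟩ := this.exists
    obtain ⟨P, p1, p2, p3, p4⟩ := h2 ν hν j
    refine absurd (hj P ⟨p1, p2, ?_⟩) (not_lt.2 p3)
    have P0 : P ≠ 0 := by rintro rfl; simp at p2
    have h3 := ht_le_N1 P
    have h4 := ht_pos P0
    set H := P.support.sup fun i => (P.coeff i).natAbs with hH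
    have H1 : (1 : ℝ) ≤ H := by exact_mod_cast h4
    rw [← pow_le_pow_iff_left₀ (abs_nonneg _) (by positivity) (show 48 ≠ 0 by norm_num),
      ← Real.rpow_mul_natCast (by positivity),
      show -(210002 / 48 * ((4 * ν + 3 : ℕ) : ℝ)) * (48 : ℕ) = -((210002 * (4 * ν + 3) : ℕ) : ℝ) by
        push_cast; ring, Real.rpow_neg (by positivity), Real.rpow_natCast, ← one_div,
      le_div_iff₀ (by positivity)]
    exact le_trans (by gcongr) p4

theorem limsup_lt {u v : ℕ → Set ℝ} {a b : ℝ} (hab : a < b)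
    (hv : ∀ m : ℕ, 3 ≤ m → ∀ w ∈ v m, w ≤ a * m)
    (hu : ∀ ν : ℕ, 1000000 ≤ ν → b * ((4 * ν + 3 : ℕ) : ℝ) ∈ u (4 * ν + 3)) :
    limsup (fun n : ℕ => (((1 : ℝ) / (n : ℝ) : ℝ) : EReal) *
      sSup ((fun w : ℝ => (w : EReal)) '' v n)) atTop <
    limsup (fun n : ℕ => (((1 : ℝ) / (n : ℝ) : ℝ) : EReal) *
      sSup ((fun w : ℝ => (w : EReal)) '' u n)) atTop := by
  have h1 : limsup (fun n : ℕ => (((1 : ℝ) / (n : ℝ) : ℝ) : EReal) *
      sSup ((fun w : ℝ => (w : EReal)) '' v n)) atTop ≤ (a : EReal) := by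
    refine limsup_le_of_le (h := ?_)
    filter_upwards [eventually_ge_atTop 3] with m hm
    have h2 : sSup ((fun w : ℝ => (w : EReal)) '' v m) ≤ ((a * m : ℝ) : EReal) := by
      refine sSup_le ?_
      rintro _ ⟨w, hw, rfl⟩
      exact EReal.coe_le_coe_iff.2 (hv m hm w hw)
    refine (mul_le_mul_of_nonneg_left h2 (EReal.coe_nonneg.2 (by positivity))).trans (le_of_eq ?_)
    rw [← EReal.coe_mul]
    congr 1
    have : (m : ℝ) ≠ 0 := by have : 0 < m := by omega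
                             positivity
    field_simp
  have h2 : (b : EReal) ≤ limsup (fun n : ℕ => (((1 : ℝ) / (n : ℝ) : ℝ) : EReal) *
      sSup ((fun w : ℝ => (w : EReal)) '' u n)) atTop := by
    refine le_limsup_of_frequently_le' (frequently_atTop.2 fun N => ?_)
    refine ⟨4 * (N + 1000000) + 3, by omega, ?_⟩
    have h3 : ((b * ((4 * (N + 1000000) + 3 : ℕ) : ℝ) : ℝ) : EReal) ≤
        sSup ((fun w : ℝ => (w : EReal)) '' u (4 * (N + 1000000) + 3)) :=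
      le_sSup ⟨_, hu _ (by omega), rfl⟩
    refine le_trans (le_of_eq ?_) (mul_le_mul_of_nonneg_left h3 (EReal.coe_nonneg.2 (by positivity)))
    rw [← EReal.coe_mul]
    congr 1
    field_simp
  exact h1.trans_lt ((EReal.coe_lt_coe_iff.2 hab).trans_le h2)

end Pool.Agent.Lib.MP_a0d2f7_nt
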