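import Pool.Agent.Lib.MP_a0d2f7_nt.GenPf

set_option autoImplicit false

namespace Pool.Agent.Lib.MP_a0d2f7_nt

open Polynomial Finset

section
variable {A : Type*} [CommRing A] {A' : Type*} [CommRing A']

/-- no nonzero polynomial of bidegree `(M, m)` vanishes to order `L` at `F` -/
def Inj (F : A[X]) (M m L : ℕ) : Prop :=
  ∀ B : A[X][X], dz B ≤ M → B.natDegree ≤ m → X ^ L ∣ B.eval F → B = 0

/-- matrix of the vanishing conditions -/
noncomputable def Mx (F : A[X]) (M m L : ℕ) : Matrix (Fin L) (Fin (M + 1) × Fin (m + 1)) A :=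
  Matrix.of fun e p => (X ^ p.1.1 * F ^ p.2.1).coeff e

theorem map_Mx (φ : A →+* A') (F : A[X]) (M m L : ℕ) :
    (Mx F M m L).map φ = Mx (F.map φ) M m L := by
  ext e p
  simp only [Mx, Matrix.map_apply, Matrix.of_apply]
  rw [← coeff_map]; simp

theorem eval_ofC (M m : ℕ) (c : ℕ → ℕ → A) (F : A[X]) :
    (ofC M m c).eval F = ∑ p : Fin (M + 1) × Fin (m + 1), C (c p.1 p.2) * (X ^ p.1.1 * F ^ p.2.1) := by
  rw [Fintype.sum_prod_type_right, ofC, fP, eval_finsetSum, sum_range]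
  refine sum_congr rfl fun l _ => ?_
  rw [eval_monomial, fP, sum_range, sum_mul]
  refine sum_congr rfl fun i _ => ?_
  rw [← C_mul_X_pow_eq_monomial, mul_assoc]

theorem dvd_ofC_iff (M m L : ℕ) (c : ℕ → ℕ → A) (F : A[X]) :
    X ^ L ∣ (ofC M m c).eval F ↔ (Mx F M m L).mulVec (fun p => c p.1 p.2) = 0 := by
  have : ∀ e : Fin L, ((ofC M m c).eval F).coeff e =
      (Mx F M m L).mulVec (fun p => c p.1 p.2) e := by
    intro e
    rw [eval_ofC, finsetSum_coeff]
    simp only [Mx, Matrix.mulVec, dotProduct, Matrix.of_apply, coeff_C_mul]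
    exact sum_congr rfl fun _ _ => mul_comm _ _
  rw [X_pow_dvd_iff]
  exact ⟨fun h => funext fun e => by rw [← this, h e e.2]; rfl,
    fun h e he => (this ⟨e, he⟩).trans (congrFun h _)⟩

theorem exists_ofC {M m : ℕ} (v : Fin (M + 1) × Fin (m + 1) → A) :
    ∃ c : ℕ → ℕ → A, (fun p : Fin (M + 1) × Fin (m + 1) => c p.1 p.2) = v :=
  ⟨fun i l => if h : i < M + 1 ∧ l < m + 1 then v (⟨i, h.1⟩, ⟨l, h.2⟩) else 0, by
    funext p; exact dif_pos ⟨p.1.2, p.2.2⟩⟩

theorem ofC_eq_zero {M m : ℕ} {c : ℕ → ℕ → A} :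
    ofC M m c = 0 ↔ (fun p : Fin (M + 1) × Fin (m + 1) => c p.1 p.2) = 0 := by
  constructor
  · intro h; funext p
    have := congrArg (fun B : A[X][X] => (B.coeff p.2).coeff p.1) h
    have h1 := p.1.2
    have h2 := p.2.2
    simp only [ofC, coeff_fP, coeff_zero] at this
    rwa [if_pos (by omega), coeff_fP, if_pos (by omega)] at this
  · intro h; ext l i
    simp only [ofC, coeff_fP, coeff_zero]
    split_ifs with h1
    · rw [coeff_fP]; split_ifs with h2
      · exact congrFun h (⟨i, by omega⟩, ⟨l, by omega⟩)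
      · rfl
    · rfl

theorem inj_iff {F : A[X]} {M m L : ℕ} :
    Inj F M m L ↔ ∀ v, (Mx F M m L).mulVec v = 0 → v = 0 := by
  constructor
  · intro h v hv
    obtain ⟨c, rfl⟩ := exists_ofC v
    exact ofC_eq_zero.1 (h _ (dz_ofC _ _ _) (natDegree_ofC _ _ _) ((dvd_ofC_iff _ _ _ _ _).2 hv))
  · intro h B h1 h2 h3
    rw [← ofC_coeff h1 h2] at h3 ⊢
    exact ofC_eq_zero.2 (h _ ((dvd_ofC_iff _ _ _ _ _).1 h3))

end

theorem exists_aux {k : Type*} [Field k] (F : k[X]) {M m L : ℕ} (h : L < (M + 1) * (m + 1)) :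
    ∃ B : k[X][X], B ≠ 0 ∧ dz B ≤ M ∧ B.natDegree ≤ m ∧ X ^ L ∣ B.eval F := by
  by_contra hc
  have h1 : Inj F M m L := fun B h1 h2 h3 => by
    by_contra h0; exact hc ⟨B, h0, h1, h2, h3⟩
  rw [inj_iff] at h1
  have h2 : Function.Injective (Mx F M m L).mulVecLin :=
    (injective_iff_map_eq_zero _).2 h1
  have := LinearMap.finrank_le_finrank_of_injective h2
  simp at this
  omega

section
variable {P 𝓐 : Type*} [CommRing P] [IsDomain P] [CommRing 𝓐]

/-- properties of rational points that hold off a hypersurface -/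
def Gh (i : P →+* 𝓐) (Q : (𝓐 →+* ℚ) → Prop) : Prop :=
  ∃ c : P, c ≠ 0 ∧ ∀ φ : 𝓐 →+* ℚ, φ (i c) ≠ 0 → Q φ

theorem Gh.and {i : P →+* 𝓐} {Q Q' : (𝓐 →+* ℚ) → Prop} (h : Gh i Q) (h' : Gh i Q') :
    Gh i fun φ => Q φ ∧ Q' φ := by
  obtain ⟨c, h1, h2⟩ := h
  obtain ⟨c', h1', h2'⟩ := h'
  refine ⟨c * c', mul_ne_zero h1 h1', fun φ hφ => ?_⟩
  rw [map_mul, map_mul, mul_ne_zero_iff] at hφ
  exact ⟨h2 φ hφ.1, h2' φ hφ.2⟩

theorem Gh.ball {i : P →+* 𝓐} {ι : Type*} (s : Finset ι) {Q : ι → (𝓐 →+* ℚ) → Prop}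
    (h : ∀ t ∈ s, Gh i (Q t)) : Gh i fun φ => ∀ t ∈ s, Q t φ := by
  classical
  induction s using Finset.induction_on with
  | empty => exact ⟨1, one_ne_zero, by simp⟩
  | insert a s _ ih =>
    obtain ⟨c, h1, h2⟩ := (h a (mem_insert_self _ _)).and (ih fun t ht => h t (mem_insert_of_mem ht))
    refine ⟨c, h1, fun φ hφ t ht => ?_⟩
    rcases mem_insert.1 ht with rfl | ht
    · exact (h2 φ hφ).1
    · exact (h2 φ hφ).2 t ht

theorem Gh.imp {i : P →+* 𝓐} {Q : (𝓐 →+* ℚ) → Prop} {p : Prop} (h : p → Gh i Q) :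
    Gh i fun φ => p → Q φ := by
  by_cases hp : p
  · obtain ⟨c, h1, h2⟩ := h hp
    exact ⟨c, h1, fun φ hφ _ => h2 φ hφ⟩
  · exact ⟨1, one_ne_zero, fun _ _ h => absurd h hp⟩

theorem transfer {K : Type*} [Field K] [Algebra P K] [IsFractionRing P K] (i : P →+* 𝓐)
    (j : 𝓐 →+* K) (hj : Function.Injective j) (hij : ∀ p, j (i p) = algebraMap P K p)
    (F : 𝓐[X]) {M m L : ℕ} (h : Inj (F.map j) M m L) :
    Gh i fun φ => Inj (F.map φ) M m L := by
  rw [inj_iff] at h
  obtain ⟨g, hg⟩ := LinearMap.exists_leftInverse_of_injective (Mx (F.map j) M m L).mulVecLin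
    (LinearMap.ker_eq_bot'.2 h)
  have h1 : LinearMap.toMatrix' g * Mx (F.map j) M m L = 1 := by
    have := congrArg LinearMap.toMatrix' hg
    rwa [LinearMap.toMatrix'_comp, ← Matrix.toLin'_apply', LinearMap.toMatrix'_toLin',
      LinearMap.toMatrix'_id] at this
  obtain ⟨b, hb⟩ := IsLocalization.exist_integer_multiples_of_finite (nonZeroDivisors P)
    (fun p : (Fin (M + 1) × Fin (m + 1)) × Fin L => LinearMap.toMatrix' g p.1 p.2)
  choose N hN using hb
  let N' : Matrix (Fin (M + 1) × Fin (m + 1)) (Fin L) 𝓐 := Matrix.of fun p e => i (N (p, e))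
  have h2 : N' * Mx F M m L = i b • 1 := by
    apply Matrix.map_injective hj
    have : N'.map j = (algebraMap P K b) • LinearMap.toMatrix' g := by
      ext p e; simp [N', hij, hN, Algebra.smul_def]
    simp only [Matrix.map_mul, this, map_Mx, Matrix.smul_mul, h1]
    ext p p'
    simp [Matrix.one_apply, hij, apply_ite j]
  refine ⟨b, nonZeroDivisors.coe_ne_zero b, fun φ hφ => inj_iff.2 fun v hv => ?_⟩
  have h3 : N'.map φ * Mx (F.map φ) M m L = φ (i b) • 1 := by
    rw [← map_Mx, ← Matrix.map_mul, h2]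
    ext p p'
    simp [Matrix.one_apply, apply_ite φ]
  have h4 : (N'.map φ * Mx (F.map φ) M m L).mulVec v = 0 := by
    rw [← Matrix.mulVec_mulVec, hv, Matrix.mulVec_zero]
  rw [h3, Matrix.smul_mulVec, Matrix.one_mulVec] at h4
  exact (smul_eq_zero.1 h4).resolve_left hφ

end

/-- the zero estimates valid at a level -/
def Cond {A : Type*} [CommRing A] (a ν s T₀ : ℕ) (F : A[X]) : Prop :=
  ∀ p ∈ range (s + 1) ×ˢ range (T₀ + 1), (1 ≤ p.1 ∧ 1 ≤ p.2 ∧ ¬ Box a ν p.1 p.2) →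
    Inj F (30 * p.2) (2 * p.1) (2000 * p.1 * p.2)

theorem spec {a ν d s T₀ μ₂ : ℕ} (ha : 1 ≤ a) (hν : 1 ≤ ν)
    (p1 : 6 * (s + 1) * (70000 * (ν * a)) ≤ d) (p2 : 60 * T₀ ≤ d * (ν * a))
    (p3 : 60 * T₀ ≤ d * μ₂) :
    ∃ Ψ : MvPolynomial (Var ⊕ Var) ℚ, Ψ ≠ 0 ∧ ∀ z, MvPolynomial.eval z Ψ ≠ 0 →
      ∃ y α, Dat a ν (70000 * (ν * a)) (fun t => z (Sum.inl t)) y α ∧
        z (Sum.inl (3, 70000 * (ν * a), 0)) ≠ 0 ∧
        Cond a ν s T₀ (α + tP (70000 * (ν * a)) d (fun t => z (Sum.inl t)) +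
          gP d (ν * a) fun i => z (Sum.inl (0, i, 0))) ∧
        Cond a ν s T₀ (α + tP (70000 * (ν * a)) d (fun t => z (Sum.inl t)) +
          gP d μ₂ fun i => z (Sum.inr (0, i, 0))) := by
  classical
  let P := MvPolynomial (Var ⊕ Var) ℚ
  let K := FractionRing P
  let Δ : P := (GM a ν (fx (ν * a) fun t => MvPolynomial.X (Sum.inl t))).det
  have hμ : 1 ≤ ν * a := Nat.mul_pos hν ha
  have hdet : ∀ {B : Type} [CommRing B] (φ : P →+* B),
      (GM a ν (fx (ν * a) fun t => φ (MvPolynomial.X (Sum.inl t)))).det = φ Δ := by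
    intro B _ φ
    rw [← map_fx, ← map_GM, ← RingHom.map_det]
  have hΔ : Δ ≠ 0 := by
    intro h0
    have := hdet (MvPolynomial.eval fun t => if t = Sum.inl (0, a, 0) then 1 else 0)
    have h1 : (fx (ν * a) fun t => MvPolynomial.eval
        (fun t : Var ⊕ Var => if t = Sum.inl (0, a, 0) then (1 : ℚ) else 0)
        (MvPolynomial.X (Sum.inl t))) = X ^ a := by
      ext i
      have : a ≤ ν * a := Nat.le_mul_of_pos_left _ hν
      simp only [fx, coeff_fP, coeff_X_pow, MvPolynomial.eval_X, Sum.inl.injEq, Prod.mk.injEq,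
        true_and, and_true]
      split_ifs <;> first | rfl | omega
    rw [h1, det_GM_model, h0, map_zero] at this
    exact one_ne_zero this
  let 𝓐 := Localization.Away Δ
  let i : P →+* 𝓐 := algebraMap P 𝓐
  have inj := FaithfulSMul.algebraMap_injective P K
  have hK : IsUnit (algebraMap P K Δ) := by
    rw [isUnit_iff_ne_zero]; exact fun h => hΔ (inj (by rw [h, map_zero]))
  let j : 𝓐 →+* K := IsLocalization.Away.lift Δ hK
  have hij : ∀ p, j (i p) = algebraMap P K p := IsLocalization.Away.lift_eq Δ hK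
  have hj : Function.Injective j := by
    rw [injective_iff_map_eq_zero]
    intro u hu
    obtain ⟨n, p, hp⟩ := IsLocalization.Away.surj Δ u
    have h1 := congrArg j hp
    rw [map_mul, hu, zero_mul] at h1
    have h2 : p = 0 := inj (by rw [← hij, map_zero]; exact h1.symm)
    rw [h2, map_zero] at hp
    exact (IsLocalization.Away.algebraMap_pow_isUnit (S := 𝓐) Δ n).mul_left_eq_zero.1 hp
  obtain ⟨y, α, hD⟩ := exists_dat (a := a) (ν := ν) (L₀ := 70000 * (ν * a)) hμ (by omega)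
    (fun t => i (MvPolynomial.X (Sum.inl t)))
    (by rw [hdet]; exact IsLocalization.Away.algebraMap_isUnit Δ)
  have key : ∀ (e : Var → Var ⊕ Var) (μ' : ℕ), (e = Sum.inl ∨ e = Sum.inr) → 60 * T₀ ≤ d * μ' →
      Gh i fun φ => Cond a ν s T₀ ((α + tP (70000 * (ν * a)) d
        (fun t => i (MvPolynomial.X (Sum.inl t))) +
        gP d μ' fun k => i (MvPolynomial.X (e (0, k, 0)))).map φ) := by
    intro e μ' he hμ'
    refine Gh.ball _ fun p hp => Gh.imp fun ⟨q1, q2, q3⟩ => transfer i j hj hij _ ?_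
    obtain ⟨hp1, hp2⟩ := mem_product.1 hp
    rw [mem_range] at hp1 hp2
    have hG := (hD.map j).gen (d := d) (μ' := μ')
      (x' := fun k => j (i (MvPolynomial.X (e (0, k, 0)))))
      (by rw [show (fun t => j (i (MvPolynomial.X (Sum.inl t)))) =
            fun t => algebraMap P K (MvPolynomial.X (Sum.inl t)) from funext fun t => hij _, hdet]
          exact hK) ha (by omega) (by nlinarith)
      (by rw [hij]; exact fun h => MvPolynomial.X_ne_zero _ (inj (by rw [h, map_zero])))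
      (fun k => by
        obtain ⟨δ, h1, h2⟩ := exists_der (σ := Var ⊕ Var)
          fun t => if t = Sum.inl (0, k, 0) then 1 else 0
        exact ⟨δ, h1, fun l => by rw [hij]; simpa using h2 (Sum.inl (0, l, 0))⟩)
      (fun k => by
        obtain ⟨δ, h1, h2⟩ := exists_der (σ := Var ⊕ Var)
          fun t => if t = e (0, k, 0) then 1 else 0
        refine ⟨δ, h1, fun l => ?_⟩
        rw [hij]
        rcases he with rfl | rfl
        · simpa using h2 (Sum.inl (0, l, 0))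
        · simpa using h2 (Sum.inr (0, l, 0)))
      (fun c hc => by
        obtain ⟨δ, h1, h2⟩ := exists_der (σ := Var ⊕ Var) (Sum.elim c 0)
        refine ⟨δ, h1, fun t => by rw [hij]; simpa using h2 (Sum.inl t), fun l => ?_⟩
        rw [hij]
        rcases he with rfl | rfl
        · simpa [hc] using h2 (Sum.inl (0, l, 0))
        · simpa using h2 (Sum.inr (0, l, 0)))
    intro B b1 b2 b3
    by_contra b0
    rw [show 70000 * (ν * a) + ν * a = 70001 * (ν * a) by ring] at hG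
    refine hG.ze q1 q2 (le_trans ?_ p1) (by omega) (by omega) (by omega) q3 b0 b2 b1 ?_
    · exact Nat.mul_le_mul_right _ (by omega)
    · rwa [Polynomial.map_add, Polynomial.map_add, map_tP, map_gP] at b3
  obtain ⟨c, hc, hQ⟩ := (key Sum.inl (ν * a) (Or.inl rfl) p2).and (key Sum.inr μ₂ (Or.inr rfl) p3)
  refine ⟨c * Δ * MvPolynomial.X (Sum.inl (3, 70000 * (ν * a), 0)),
    mul_ne_zero (mul_ne_zero hc hΔ) (MvPolynomial.X_ne_zero _), fun z hz => ?_⟩
  rw [map_mul, map_mul, mul_ne_zero_iff, mul_ne_zero_iff, MvPolynomial.eval_X] at hz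
  have hu : IsUnit (MvPolynomial.eval z Δ) := isUnit_iff_ne_zero.2 hz.1.2
  let φ : 𝓐 →+* ℚ := IsLocalization.Away.lift Δ hu
  have hφ : ∀ p, φ (i p) = MvPolynomial.eval z p := IsLocalization.Away.lift_eq Δ hu
  have h1 := hD.map φ
  have h2 := hQ φ (by rw [hφ]; exact hz.1.1)
  simp only [Polynomial.map_add, map_tP, map_gP, hφ, MvPolynomial.eval_X] at h1 h2
  exact ⟨_, _, h1, hz.2, h2⟩

theorem exists_seq {τ : Type*} (Ψ : ℕ → MvPolynomial (τ ⊕ τ) ℚ) (hΨ : ∀ s, Ψ s ≠ 0) :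
    ∃ x : ℕ → τ → ℚ, ∀ s, MvPolynomial.eval (Sum.elim (x s) (x (s + 1))) (Ψ s) ≠ 0 := by
  have ex : ∀ {σ : Type _} (p : MvPolynomial σ ℚ), p ≠ 0 → ∃ z, MvPolynomial.eval z p ≠ 0 := by
    intro σ p hp
    by_contra h
    exact hp (MvPolynomial.funext fun z => by simpa using not_exists.1 h z)
  let G : ℕ → (τ → ℚ) → Prop := fun s x => ∃ x', MvPolynomial.eval (Sum.elim x x') (Ψ s) ≠ 0
  have step : ∀ s x, G s x → ∃ x', MvPolynomial.eval (Sum.elim x x') (Ψ s) ≠ 0 ∧ G (s + 1) x' := by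
    intro s x ⟨x₁, h1⟩
    obtain ⟨z, hz⟩ := ex _ (hΨ (s + 1))
    let p₁ : MvPolynomial τ ℚ := MvPolynomial.aeval
      (Sum.elim (fun t => MvPolynomial.C (x t)) MvPolynomial.X) (Ψ s)
    let p₂ : MvPolynomial τ ℚ := MvPolynomial.aeval
      (Sum.elim MvPolynomial.X (fun t => MvPolynomial.C (z (Sum.inr t)))) (Ψ (s + 1))
    have e1 : ∀ w, MvPolynomial.eval w p₁ = MvPolynomial.eval (Sum.elim x w) (Ψ s) := by
      intro w
      simp only [p₁, ← MvPolynomial.coe_aeval_eq_eval, RingHom.coe_coe]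
      rw [MvPolynomial.comp_aeval_apply]
      congr 2; funext t; cases t <;> simp
    have e2 : ∀ w, MvPolynomial.eval w p₂ =
        MvPolynomial.eval (Sum.elim w fun t => z (Sum.inr t)) (Ψ (s + 1)) := by
      intro w
      simp only [p₂, ← MvPolynomial.coe_aeval_eq_eval, RingHom.coe_coe]
      rw [MvPolynomial.comp_aeval_apply]
      congr 2; funext t; cases t <;> simp
    have n1 : p₁ ≠ 0 := fun h => h1 (by rw [← e1, h, map_zero])
    have n2 : p₂ ≠ 0 := fun h => hz (by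
      have := e2 fun t => z (Sum.inl t)
      rw [h, map_zero] at this
      rw [this]; congr 2; funext t; cases t <;> simp)
    obtain ⟨w, hw⟩ := ex _ (mul_ne_zero n1 n2)
    rw [map_mul, mul_ne_zero_iff, e1, e2] at hw
    exact ⟨w, hw.1, _, hw.2⟩
  obtain ⟨z, hz⟩ := ex _ (hΨ 0)
  have h0 : G 0 fun t => z (Sum.inl t) := ⟨fun t => z (Sum.inr t), by
    convert hz using 3; funext t; cases t <;> simp⟩
  choose! f hf using step
  let x : ℕ → τ → ℚ := fun s => Nat.rec (fun t => z (Sum.inl t)) f s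
  have hx : ∀ s, G s (x s) := by
    intro s
    induction s with
    | zero => exact h0
    | succ s ih => exact (hf s _ ih).2
  exact ⟨x, fun s => (hf s _ (hx s)).1⟩

end Pool.Agent.Lib.MP_a0d2f7_nt
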