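import Pool.Agent.Lib.MP_a0d2f7_nt.Biv

set_option autoImplicit false

namespace Pool.Agent.Lib.MP_a0d2f7_nt

open Polynomial

variable {K : Type*} [Field K]

/-- the supply of derivations available for the series `F` -/
structure Gen (F : K[X]) (A₀ : K[X][X]) (a ν μ L₀ N₀ d μ' : ℕ) : Prop where
  d1 : ∀ j ≤ μ, ∃ δ : K →+ K, IsDer δ ∧ X ^ (μ + 1) ∣ mc δ F - X ^ j
  d2 : ∀ g : K[X], X ^ L₀ ∣ g → g.natDegree < d → ∃ δ : K →+ K, IsDer δ ∧ mc δ F = g
  d3 : ∀ i ≤ μ', ∃ (δ : K →+ K) (p : K[X]), IsDer δ ∧ p.natDegree < d ∧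
    mc δ F = p + X ^ (d * (i + 1))
  d4 : ∃ δ₀ : K →+ K, IsDer δ₀ ∧ ¬ X ^ (μ + 2) ∣ mc δ₀ F ∧ ∀ U : K[X][X], dz U ≤ 2 * a + 1 →
    U.natDegree ≤ 2 * ν + 1 → ∃ δ₁ : K →+ K, IsDer δ₁ ∧ X ^ L₀ ∣ mc δ₁ F - U.eval F * mc δ₀ F
  a1 : dz A₀ ≤ 4 * a + 2
  a2 : A₀.natDegree ≤ 4 * ν + 3
  a3 : X ^ N₀ ∣ A₀.eval F
  a4 : ¬ X ^ (N₀ + 1) ∣ A₀.eval F

theorem der_eval {δ : K →+ K} (h : IsDer δ) {B : K[X][X]} {F : K[X]} {L : ℕ}
    (hL : X ^ L ∣ B.eval F) : X ^ L ∣ (mc (mc δ) B).eval F + B.derivative.eval F * mc δ F := by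
  rw [← h.mc.eval]; exact X_pow_dvd_mc _ hL

theorem two_eval {δ₀ δ₁ : K →+ K} (h₀ : IsDer δ₀) (h₁ : IsDer δ₁) {B : K[X][X]} {F u : K[X]}
    {L : ℕ} (hL : X ^ L ∣ B.eval F) (hu : X ^ L ∣ mc δ₁ F - u * mc δ₀ F) :
    X ^ L ∣ (mc (mc δ₁) B).eval F - u * (mc (mc δ₀) B).eval F := by
  have := dvd_sub (dvd_sub (der_eval h₁ hL) ((der_eval h₀ hL).mul_left u))
    (hu.mul_left (B.derivative.eval F))
  convert this using 1; ring

theorem sum_bound {F : K[X]} {m M α β : ℕ}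
    (h : ∀ B : K[X][X], Prime B → B.natDegree ≤ m → dz B ≤ M → ∀ L, X ^ L ∣ B.eval F →
      L ≤ α * B.natDegree + β * dz B) (A : K[X][X]) :
    A ≠ 0 → A.natDegree ≤ m → dz A ≤ M → ∀ L, X ^ L ∣ A.eval F →
      L ≤ α * A.natDegree + β * dz A := by
  induction A using UniqueFactorizationMonoid.induction_on_prime with
  | h₁ => intro h0; exact absurd rfl h0
  | h₂ A hA =>
    intro _ _ _ L hL
    have hu : IsUnit (A.eval F) := hA.map (evalRingHom F)
    have := natDegree_le_of_dvd hL hu.ne_zero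
    rw [natDegree_X_pow, natDegree_eq_zero_of_isUnit hu] at this
    omega
  | h₃ A p hA hp ih =>
    intro _ h1 h2 L hL
    rw [natDegree_mul hp.ne_zero hA] at h1 ⊢
    rw [dz_mul hp.ne_zero hA] at h2 ⊢
    rw [eval_mul] at hL
    have := ordmul (b := α * p.natDegree + β * dz p) (c := α * A.natDegree + β * dz A) hL
      (fun hc => by have := h p hp (by omega) (by omega) _ hc; omega)
      (fun hc => by have := ih hA (by omega) (by omega) _ hc; omega)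
    nlinarith

variable [CharZero K]

theorem one_der {δ : K →+ K} (h : IsDer δ) {B : K[X][X]} (hB : Prime B) (hm : 1 ≤ B.natDegree)
    {F u : K[X]} {L : ℕ} (hL : X ^ L ∣ B.eval F) (hu : X ^ L ∣ mc δ F - u)
    (hd : 2 * dz B < u.natDegree) : L ≤ B.natDegree * (2 * dz B + u.natDegree) := by
  by_contra hc
  have h1 : B ∣ -B.derivative := by
    refine zcore (e₁ := mc (mc δ) B) hB hm ?_ (natDegree_mc _ _) ?_ (dz_mc_le _ _) hd hL ?_
      (not_le.1 hc)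
    · rw [natDegree_neg]; exact (natDegree_derivative_le _).trans (Nat.sub_le _ _)
    · rw [dz_neg]; exact dz_derivative_le _
    · have := dvd_sub (der_eval h hL) (hu.mul_left (B.derivative.eval F))
      convert this using 1; simp; ring
  exact not_dvd_derivative hm (dvd_neg.1 h1)

theorem two_end {δ : K →+ K} (h : IsDer δ) {B : K[X][X]} (hB : Prime B) (hm : 1 ≤ B.natDegree)
    {F : K[X]} {L c : ℕ} (hL : X ^ L ∣ B.eval F) (hd : B ∣ mc (mc δ) B)
    (hc : ¬ X ^ (c + 1) ∣ mc δ F) : L ≤ 2 * B.natDegree * dz B + c := by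
  by_cases h1 : L ≤ 2 * B.natDegree * dz B
  · omega
  have h2 : X ^ L ∣ B.derivative.eval F * mc δ F :=
    (dvd_add_right (hL.trans (eval_dvd hd))).1 (der_eval h hL)
  refine ordmul h2 (fun h3 => ?_) hc
  have := res_bound hB hm (not_dvd_derivative hm) ((pow_dvd_pow _ (by omega)).trans hL) h3
  have h4 := Nat.mul_le_mul_left B.natDegree (dz_derivative_le B)
  have h5 := Nat.mul_le_mul_right (dz B) ((natDegree_derivative_le B).trans (Nat.sub_le _ _))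
  nlinarith

omit [CharZero K] in
theorem Gen.d4' {F : K[X]} {A₀ : K[X][X]} {a ν μ L₀ N₀ d μ' : ℕ}
    (G : Gen F A₀ a ν μ L₀ N₀ d μ') (hd : 0 < d) :
    ∃ δ₀ : K →+ K, IsDer δ₀ ∧ ¬ X ^ (μ + 2) ∣ mc δ₀ F ∧ ∀ U : K[X][X], dz U ≤ 2 * a + 1 →
    U.natDegree ≤ 2 * ν + 1 → ∃ δ₁ : K →+ K, IsDer δ₁ ∧ X ^ d ∣ mc δ₁ F - U.eval F * mc δ₀ F := by
  obtain ⟨δ₀, h₀, h1, h2⟩ := G.d4
  refine ⟨δ₀, h₀, h1, fun U hU hU' => ?_⟩
  obtain ⟨δ₁, h₁, h3⟩ := h2 U hU hU'
  by_cases hL : d ≤ L₀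
  · exact ⟨δ₁, h₁, (pow_dvd_pow _ hL).trans h3⟩
  set r := mc δ₁ F - U.eval F * mc δ₀ F with hr
  have hm : (X ^ d : K[X]).Monic := monic_X_pow d
  have h4 := modByMonic_add_div r (X ^ d)
  obtain ⟨δ₂, h₂, h5⟩ := G.d2 (-(r %ₘ X ^ d)) (by
      rw [dvd_neg]
      have : r %ₘ X ^ d = r - X ^ d * (r /ₘ X ^ d) := by rw [eq_sub_iff_add_eq, h4]
      rw [this]; exact dvd_sub h3 ((pow_dvd_pow _ (by omega)).mul_right _))
    (by
      rw [natDegree_neg]
      have := natDegree_modByMonic_lt r hm (by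
        intro h; have := congrArg natDegree h; simp at this; omega)
      simpa using this)
  refine ⟨δ₁ + δ₂, h₁.add h₂, r /ₘ X ^ d, ?_⟩
  rw [mc_add, h5, ← sub_eq_zero]
  have : mc δ₁ F = r + U.eval F * mc δ₀ F := by rw [hr]; ring
  rw [this]
  linear_combination -h4

theorem Gen.prime_bound {F : K[X]} {A₀ : K[X][X]} {a ν μ L₀ N₀ d μ' : ℕ}
    (G : Gen F A₀ a ν μ L₀ N₀ d μ') {B : K[X][X]} (hB : Prime B) (hm : 1 ≤ B.natDegree)
    (p1 : 3 * B.natDegree * L₀ ≤ d) (p2 : 2 * dz B ≤ d * μ') (p3 : 1 ≤ L₀) (p4 : L₀ ≤ N₀)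
    {L : ℕ} (hL : X ^ L ∣ B.eval F) :
    L ≤ 10 * B.natDegree * (dz B + 1) ∨ (a < dz B ∧ ν < B.natDegree ∧ L ≤ N₀) := by
  set m := B.natDegree with hmd
  set M := dz B with hMd
  have hd3 : 3 * L₀ ≤ d := by nlinarith
  have hd : 0 < d := by omega
  by_cases c1 : d ≤ 2 * M + 1
  · left
    obtain ⟨δ, p, h, hp, he⟩ := G.d3 (2 * M / d) (Nat.div_le_of_le_mul p2)
    have e1 := Nat.div_add_mod (2 * M) d
    have e2 := Nat.mod_lt (2 * M) hd
    have e3 : d * (2 * M / d + 1) = d * (2 * M / d) + d := by ring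
    have hdeg : (p + X ^ (d * (2 * M / d + 1))).natDegree = d * (2 * M / d + 1) := by
      rw [natDegree_add_eq_right_of_natDegree_lt] <;> rw [natDegree_X_pow]
      omega
    have := one_der h hB hm hL (u := p + X ^ (d * (2 * M / d + 1))) (by rw [he]; simp)
      (by rw [hdeg]; omega)
    rw [hdeg] at this
    have h4 : m * (2 * M + d * (2 * M / d + 1)) ≤ m * (6 * M + 1) :=
      Nat.mul_le_mul_left _ (by omega)
    nlinarith
  by_cases c2 : L₀ ≤ 2 * M + 1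
  · left
    obtain ⟨δ, h, he⟩ := G.d2 (X ^ (2 * M + 1)) (pow_dvd_pow _ c2) (by rw [natDegree_X_pow]; omega)
    have := one_der h hB hm hL (u := X ^ (2 * M + 1)) (by rw [he]; simp)
      (by rw [natDegree_X_pow]; omega)
    rw [natDegree_X_pow] at this
    nlinarith
  by_cases c3 : m * (4 * M + 1) ≤ μ
  · left
    obtain ⟨δ, h, he⟩ := G.d1 (2 * M + 1) (by nlinarith)
    by_contra hc
    have := one_der h hB hm (L := m * (4 * M + 1) + 1) ((pow_dvd_pow _ (by nlinarith)).trans hL)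
      (u := X ^ (2 * M + 1)) ((pow_dvd_pow _ (by omega)).trans he) (by rw [natDegree_X_pow]; omega)
    rw [natDegree_X_pow] at this
    nlinarith
  by_cases c4 : M ≤ a
  · left
    obtain ⟨δ₀, h₀, h1, h2⟩ := G.d4' hd
    obtain ⟨δ₁, h₁, h3⟩ := h2 (C (X ^ (2 * M + 1))) (by rw [dz_C, natDegree_X_pow]; omega) (by simp)
    rw [eval_C] at h3
    by_contra hc
    have h4 : X ^ (m * (4 * M + 1) + 1) ∣ B.eval F := (pow_dvd_pow _ (by nlinarith)).trans hL
    have h5 := zcore hB hm (natDegree_mc _ _) (natDegree_mc _ _) (dz_mc_le _ _) (dz_mc_le _ _)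
      (by rw [natDegree_X_pow]; omega) h4
      (two_eval h₀ h₁ h4 ((pow_dvd_pow _ (by nlinarith)).trans h3))
      (by rw [natDegree_X_pow]; nlinarith)
    have := two_end h₀ hB hm hL h5 (c := μ + 1) h1
    nlinarith
  by_cases c5 : m ≤ ν
  · left
    obtain ⟨δ₀, h₀, h1, h2⟩ := G.d4' hd
    obtain ⟨δ₁, h₁, h3⟩ := h2 (X ^ (2 * m + 1)) (by rw [dz_X_pow]; omega)
      (by rw [natDegree_X_pow]; omega)
    rw [eval_pow, eval_X] at h3
    by_contra hc
    have h4 : X ^ (M * (4 * m + 1) + 1) ∣ B.eval F := (pow_dvd_pow _ (by nlinarith)).trans hL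
    have h5 := ycore hB hm (by omega) (natDegree_mc _ _) (natDegree_mc _ _) (dz_mc_le _ _)
      (dz_mc_le _ _) (by omega) h4
      (two_eval h₀ h₁ h4 ((pow_dvd_pow _ (by nlinarith)).trans h3))
      (by nlinarith)
    have := two_end h₀ hB hm hL h5 (c := μ + 1) h1
    nlinarith
  by_cases c6 : B ∣ A₀
  · right
    refine ⟨by omega, by omega, ?_⟩
    by_contra hc
    exact G.a4 ((pow_dvd_pow _ (by omega)).trans (hL.trans (eval_dvd c6)))
  left
  by_contra hc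
  have h6 : min L N₀ ≤ 8 * m * M := by
    have := res_bound hB hm c6 ((pow_dvd_pow _ (min_le_left L N₀)).trans hL)
      ((pow_dvd_pow _ (min_le_right L N₀)).trans G.a3)
    have h7 : m * dz A₀ ≤ m * (4 * M) := Nat.mul_le_mul_left _ (by have := G.a1; omega)
    have h8 : A₀.natDegree * M ≤ (4 * m) * M := Nat.mul_le_mul_right _ (by have := G.a2; omega)
    nlinarith
  have h7 : L₀ ≤ 8 * m * M := by
    rcases min_le_iff.1 h6 with h | h
    · nlinarith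
    · omega
  obtain ⟨δ₀, h₀, e₀⟩ := G.d2 (X ^ L₀) dvd_rfl (by rw [natDegree_X_pow]; omega)
  obtain ⟨δ₁, h₁, e₁⟩ := G.d2 (X ^ (2 * M + 1) * X ^ L₀) (dvd_mul_left _ _)
    (by rw [← pow_add, natDegree_X_pow]; omega)
  have h5 := zcore hB hm (natDegree_mc _ _) (natDegree_mc _ _) (dz_mc_le _ _) (dz_mc_le _ _)
    (u := X ^ (2 * M + 1)) (by rw [natDegree_X_pow]; omega) hL
    (two_eval h₀ h₁ hL (by rw [e₀, e₁]; simp)) (by rw [natDegree_X_pow]; nlinarith)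
  have := two_end h₀ hB hm hL h5 (c := L₀) (by
    rw [e₀]; intro h
    have := natDegree_le_of_dvd h (by simp)
    simp at this)
  nlinarith

/-- the window of parameters in which the exceptional polynomial matters -/
def Box (a ν m T : ℕ) : Prop := a < 30 * T ∧ ν < 2 * m ∧ m < 2000 * ν ∧ T < 200 * a

theorem Gen.ze {F : K[X]} {A₀ : K[X][X]} {a ν L₀ d μ' : ℕ}
    (G : Gen F A₀ a ν (ν * a) L₀ (70001 * (ν * a)) d μ') {m T : ℕ} (hm : 1 ≤ m) (hT : 1 ≤ T)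
    (p1 : 6 * m * L₀ ≤ d) (p2 : 60 * T ≤ d * μ') (p3 : 1 ≤ L₀) (p4 : L₀ ≤ 70001 * (ν * a))
    (hb : ¬ Box a ν m T) {A : K[X][X]} (h0 : A ≠ 0) (h1 : A.natDegree ≤ 2 * m)
    (h2 : dz A ≤ 30 * T) : ¬ X ^ (2000 * m * T) ∣ A.eval F := by
  intro hL
  have := sum_bound (F := F) (m := 2 * m) (M := 30 * T) (α := 351 * T) (β := 37 * m) ?_ A h0 h1 h2
    _ hL
  · have h3 := Nat.mul_le_mul_left (351 * T) h1
    have h4 := Nat.mul_le_mul_left (37 * m) h2
    nlinarith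
  intro B hB d1 d2 L hL
  by_cases hm0 : B.natDegree = 0
  · obtain ⟨b, rfl⟩ := natDegree_eq_zero.1 hm0
    rw [eval_C] at hL
    have := natDegree_le_of_dvd hL (by simpa using hB.ne_zero)
    rw [natDegree_X_pow] at this
    rw [dz_C]; nlinarith
  rcases G.prime_bound hB (by omega) (by nlinarith) (by omega) p3 p4 hL with h | ⟨q1, q2, q3⟩
  · have : 10 * B.natDegree * (dz B + 1) ≤ 10 * B.natDegree * (31 * T) :=
      Nat.mul_le_mul_left _ (by omega)
    nlinarith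
  · by_cases c : 2000 * ν ≤ m
    · have : ν * a ≤ ν * dz B := Nat.mul_le_mul_left _ q1.le
      have : 2000 * ν * dz B ≤ m * dz B := Nat.mul_le_mul_right _ c
      nlinarith
    · have c' : 200 * a ≤ T := by
        by_contra c'; exact hb ⟨by omega, by omega, by omega, by omega⟩
      have : ν * a ≤ B.natDegree * a := Nat.mul_le_mul_right _ q2.le
      have : 200 * a * B.natDegree ≤ T * B.natDegree := Nat.mul_le_mul_right _ c'
      nlinarith

end Pool.Agent.Lib.MP_a0d2f7_nt
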